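import Mathlib
import Pool.Agent.TH841.PT.ATS1
import Pool.Agent.TH841.PT.Bas3

/-!
# Project TR: the refined bound for sums of Jacobi symbols with signed weights (statements)

`ATS` bounds the contribution of an unlinked set `U` of variables by `exp (∑ i ∈ U, Sp (b i))`. Here
the variables `q ∈ Z` have signed weights with bounded sums `∑ a q p / p`, and such a variable does
not contribute if it is not connected with any other variable.
-/

set_option autoImplicit false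

namespace Pool.Agent.TH841.TR

open Finset Polynomial Pool.Agent.W262.RK Pool.Agent.TH841.PT

open Pool.Agent.H474R2.PG (rho)

/-- there is no symbol of `q` with an index of `S` -/
def Unc {ι : Type} (L : ι → ι → Bool) (q : ι) (S : Finset ι) : Prop :=
  ∀ j ∈ S, L q j = false ∧ L j q = false

instance {ι : Type} (L : ι → ι → Bool) (q : ι) (S : Finset ι) : Decidable (Unc L q S) := by
  unfold Unc
  infer_instance

/-- the sets and the upper bound `M`, first condition -/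
def CA {ι : Type} [DecidableEq ι] (L : ι → ι → Bool) (Z : Finset ι) (S : ι → ℝ) (M : ℝ) : Prop :=
  ∀ F : Finset ι, (∀ i ∈ F, ∀ j ∈ F, L i j = L j i) →
    ∑ i ∈ F.filter (fun i => ¬ (i ∈ Z ∧ Unc L i F)), S i ≤ M

/-- the sets and the upper bound `M`, second condition -/
def CB {ι : Type} [DecidableEq ι] (L : ι → ι → Bool) (Z : Finset ι) (S : ι → ℝ) (M : ℝ) : Prop :=
  ∀ F W : Finset ι, Disjoint F W → (∀ i ∈ F, ∀ j ∈ F, L i j = L j i) →
    (∃ w ∈ W, ¬ (w ∈ Z ∧ Unc L w (F ∪ W))) →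
    ∑ i ∈ F.filter (fun i => (∀ w ∈ W, L i w = L w i) ∧ ¬ (i ∈ Z ∧ Unc L i (F ∪ W))), S i ≤ M

/-- the hypotheses of the refined bound -/
structure Hyp {ι : Type} [Fintype ι] [DecidableEq ι] (a b : ι → ℕ → ℝ) (L : ι → ι → Bool)
    (Z : Finset ι) (c z : ℕ) (δ C0 E0 : ℝ) (M : ℕ → ℝ) : Prop where
  ab : ∀ i p, |a i p| ≤ b i p
  LL : ∀ i, L i i = false
  hz : 2 * c + 2 + Fintype.card ι ≤ z
  hδ : 0 < δ
  hE : 0 ≤ E0
  hC : 0 ≤ C0
  low : ∀ i y, z < y → δ * Real.log (Real.log y) ≤ Sp (b i) z y + C0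
  ZZ : ∀ q ∈ Z, ∀ q' ∈ Z, L q q' = L q' q
  H1 : ∀ q ∈ Z, ∀ y, z < y → ∑ p ∈ PS z y, a q p / (p : ℝ) ≤ C0
  H2 : ∀ (i : ι) (y r : ℕ) (e : Bool), z < y → 1 < r → Squarefree r →
    (∀ p : ℕ, p.Prime → p ∣ r → z < p) →
    ∑ p ∈ PS z y, a i p * (Jr p r * x4 e p) / (p : ℝ) ≤ E0 * Real.log (Real.log r) + C0
  CA : ∀ y, z < y → CA L Z (fun i => Sp (b i) z y) (M y)
  CB : ∀ y, z < y → CB L Z (fun i => Sp (b i) z y) (M y + C0 - δ * Real.log (Real.log y))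

/-- ATX: the refined bound -/
def ATX : Prop := ∀ (ι : Type) [Fintype ι] [DecidableEq ι] (a b : ι → ℕ → ℝ) (L : ι → ι → Bool)
  (Z : Finset ι) (c z : ℕ) (δ C0 E0 : ℝ) (M : ℕ → ℝ),
  (∀ i p, b i p ≤ 1 / 2) → Hyp a b L Z c z δ C0 E0 M →
  ∃ C : ℝ, ∀ y, z < y →
    |∑ d ∈ Tup ι z y, (∏ i, gp (a i) c (d i)) * Sym L (fun _ => 1) d| ≤ C * Real.exp (M y)

/-- ATXR: the refined bound for larger weights -/
def ATXR : Prop := ∀ (R : ℕ), 1 ≤ R → ∀ (ι : Type) [Fintype ι] [DecidableEq ι] (a b : ι → ℕ → ℝ)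
  (L : ι → ι → Bool) (Z : Finset ι) (c z : ℕ) (δ C0 E0 : ℝ) (M : ℕ → ℝ),
  (∀ i p, b i p ≤ R / 2) → Hyp a b L Z c z δ C0 E0 M →
  2 * c + 2 + Fintype.card ι * R ≤ z →
  ∃ C : ℝ, ∀ y, z < y →
    |∑ d ∈ Tup ι z y, (∏ i, gp (a i) c (d i)) * Sym L (fun _ => 1) d| ≤ C * Real.exp (M y)

/-- EUL: the Euler product for tuples of pairwise coprime divisors -/
def EUL : Prop := ∀ (ι : Type) [Fintype ι] [DecidableEq ι] (F : Finset ι) (h : ι → ℕ → ℝ)
  (z y R : ℕ), R ≠ 0 →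
  ∑ d ∈ (Fintype.piFinset (fun i : ι => if i ∈ F then (PP z y).divisors.filter
      (fun m => m.Coprime R) else {1})).filter
      (fun d => ∀ i ∈ F, ∀ j ∈ F, i ≠ j → (d i).Coprime (d j)),
    ∏ i ∈ F, ∏ p ∈ (d i).primeFactors, h i p =
      ∏ p ∈ (PS z y).filter (fun p => ¬ p ∣ R), (1 + ∑ i ∈ F, h i p)

/-- SYMD: the sum over the variables of an unlinked set `F`, the other variables being fixed -/
def SYMD : Prop := ∀ (ι : Type) [Fintype ι] [DecidableEq ι] (a b : ι → ℕ → ℝ) (L : ι → ι → Bool)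
  (c z y : ℕ) (F : Finset ι) (e : ι → ℕ), (∀ i p, |a i p| ≤ b i p) → (∀ i, L i i = false) →
  (∀ i ∈ F, ∀ j ∈ F, L i j = L j i) → 2 ≤ z → 2 * c ≤ z → (∀ i, e i ∈ (PP z y).divisors) →
  ∃ t : ι → Bool,
    (∀ i ∈ F, (∀ w, w ∉ F → e w ≠ 1 → L i w = false ∧ L w i = false) → t i = false) ∧
    |∑ d ∈ Fintype.piFinset (fun i => if i ∈ F then (PP z y).divisors else {e i}),
        ATS8.HG a L (fun _ => 1) c d| ≤
      (∏ i ∈ Fᶜ, gp (b i) c (e i)) *
        ∑ S ∈ (F.filter (fun i => ¬ Unc L i F)).powerset,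
          |∏ p ∈ (PS z y).filter (fun p => ¬ p ∣ ∏ i ∈ Fᶜ, e i),
            (1 + ∑ i ∈ F, a i p / ((p : ℝ) - c) *
              (Jr p (∏ w ∈ Fᶜ.filter (fun w => L i w ≠ L w i), e w) *
                x4 (xor (t i) (decide (i ∈ S))) p))|

/-- ML: the main lemma, the sum over the variables of an unlinked set `F` -/
def ML : Prop := ∀ (ι : Type) [Fintype ι] [DecidableEq ι] (a b : ι → ℕ → ℝ) (L : ι → ι → Bool)
  (Z : Finset ι) (c z : ℕ) (δ C0 E0 : ℝ) (M : ℕ → ℝ),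
  (∀ i p, b i p ≤ 1 / 2) → Hyp a b L Z c z δ C0 E0 M →
  ∃ (C : ℝ) (N : ℕ), 0 ≤ C ∧ ∀ y, z < y → ∀ (F : Finset ι),
    (∀ i ∈ F, ∀ j ∈ F, L i j = L j i) → ∀ e : ι → ℕ, (∀ i, e i ∈ (PP z y).divisors) →
    |∑ d ∈ Fintype.piFinset (fun i => if i ∈ F then (PP z y).divisors else {e i}),
        ATS8.HG a L (fun _ => 1) c d| ≤
      (∏ i ∈ Fᶜ, gp (b i) c (e i)) * (C * (1 + Real.log ((∏ i ∈ Fᶜ, e i : ℕ) : ℝ)) ^ N *
        Real.exp (∑ i ∈ F.filter (fun i => (∀ w ∈ Fᶜ.filter (fun w => e w ≠ 1), L i w = L w i) ∧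
          ¬ (i ∈ Z ∧ Unc L i (F ∪ Fᶜ.filter (fun w => e w ≠ 1)))), Sp (b i) z y))

/-- H1L: the sums of the symbols of a nonsquare -/
def H1L : Prop := ∀ f : ℤ[X], Irreducible f → 0 < f.natDegree → ∀ g : ℤ[X],
  ¬ (f.map (Int.castRingHom ℚ)) ∣ g.map (Int.castRingHom ℚ) → NSqg f g 1 →
  ∃ z0 : ℕ, ∀ z, z0 ≤ z → ∃ C : ℝ, ∀ y : ℕ, z < y →
    ∑ p ∈ PS z y, rhoc f g p / (p : ℝ) ≤ C

section

variable {J : Type} [Fintype J] [DecidableEq J]

/-- the indices with signed weights: the type `(ec, ec.swap)` of the classes 0, 1, 2, for the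
`j` with `sp j = false` -/
def ZI (cls : J → Fin 4) (sp : J → Bool) : Finset (I4 cls) :=
  univ.filter (fun i => cls i.1.1 ≠ 3 ∧ sp i.1.1 = false ∧ i.1.2 = (ec (cls i.1.1),
    (ec (cls i.1.1)).swap))

/-- the inequalities for the numbers of the indices of the classes -/
def Tri (cls : J → Fin 4) (sp : J → Bool) : Prop :=
  ∀ k : Fin 4, k ≠ 3 → 2 * (univ.filter (fun j => cls j = k)).card +
    (univ.filter (fun j => cls j = k ∧ sp j = true)).card ≤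
      (univ.filter (fun j => cls j ≠ 3)).card

end

/-- COMBX: the largest unlinked sets -/
def COMBX : Prop := ∀ (J : Type) [Fintype J] [DecidableEq J] (cls : J → Fin 4) (sp : J → Bool),
  Tri cls sp → CA (L4 cls) (ZI cls sp) (w4 cls) (Fintype.card J) ∧
    CB (L4 cls) (ZI cls sp) (w4 cls) (Fintype.card J - 1 / 4)

end Pool.Agent.TH841.TR
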