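import Mathlib
import Pool.Agent.TH841.TR.Stm

/-!
# Project TR: the bound for the Euler products, and the main lemma
-/

set_option autoImplicit false

namespace Pool.Agent.TH841.TR

open Finset Polynomial Pool.Agent.W262.RK Pool.Agent.W262.RK.AT Pool.Agent.TH841.PT

lemma sum_inv_le (S : Finset ℕ) (hS : ∀ n ∈ S, 2 ≤ n) :
    ∑ n ∈ S, (1 : ℝ) / n ≤ Real.log (S.card + 1) := by
  induction S using Finset.induction_on_max with
  | empty => simp
  | insert a s ha ih =>
    have has : a ∉ s := fun h => lt_irrefl _ (ha a h)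
    rw [sum_insert has, card_insert_of_notMem has]
    have ih' := ih fun n hn => hS n (mem_insert_of_mem hn)
    have h1 : s.card + 2 ≤ a := by
      have h2 : s ⊆ Ico 2 a := fun n hn => mem_Ico.2 ⟨hS n (mem_insert_of_mem hn), ha n hn⟩
      have h3 := card_le_card h2
      rw [Nat.card_Ico] at h3
      have := hS a (mem_insert_self a s)
      omega
    have h2 : (1 : ℝ) / a ≤ 1 / (s.card + 2) := by
      apply one_div_le_one_div_of_le (by positivity)
      exact_mod_cast h1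
    have h3 : 1 - ((s.card + 2 : ℝ) / (s.card + 1))⁻¹ ≤ Real.log ((s.card + 2 : ℝ) / (s.card + 1)) :=
      Real.one_sub_inv_le_log_of_pos (by positivity)
    rw [Real.log_div (by positivity) (by positivity)] at h3
    have h4 : 1 - ((s.card + 2 : ℝ) / (s.card + 1))⁻¹ = 1 / (s.card + 2) := by
      field_simp
      ring
    rw [h4] at h3
    push_cast
    have h5 : (s.card : ℝ) + 1 + 1 = s.card + 2 := by ring
    rw [h5]
    linarith

lemma sum_pf_le {R : ℕ} (hR : R ≠ 0) :
    ∑ p ∈ R.primeFactors, (1 : ℝ) / p ≤ Real.log 2 + Real.log (1 + Real.log R) := by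
  have hR0 : (0 : ℝ) < R := Nat.cast_pos.2 (Nat.pos_of_ne_zero hR)
  have hl : 0 ≤ Real.log R := Real.log_natCast_nonneg R
  refine (sum_inv_le _ fun n hn => (Nat.prime_of_mem_primeFactors hn).two_le).trans ?_
  rw [← Real.log_mul (by norm_num) (by positivity)]
  apply Real.log_le_log (by positivity)
  have h1 : 2 ^ R.primeFactors.card ≤ R := by
    calc 2 ^ R.primeFactors.card = ∏ _p ∈ R.primeFactors, 2 := by rw [prod_const]
      _ ≤ ∏ p ∈ R.primeFactors, p :=
          prod_le_prod' fun p hp => (Nat.prime_of_mem_primeFactors hp).two_le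
      _ ≤ R := Nat.le_of_dvd (Nat.pos_of_ne_zero hR) (Nat.prod_primeFactors_dvd R)
  have h2 : (R.primeFactors.card : ℝ) * Real.log 2 ≤ Real.log R := by
    rw [← Real.log_pow]
    apply Real.log_le_log (by positivity)
    exact_mod_cast h1
  have h3 := Real.log_two_gt_d9
  have h4 : (0 : ℝ) ≤ R.primeFactors.card := Nat.cast_nonneg _
  nlinarith

variable {ι : Type} [Fintype ι] [DecidableEq ι]

variable {a b : ι → ℕ → ℝ} {L : ι → ι → Bool} {Z : Finset ι} {c z : ℕ} {δ C0 E0 : ℝ} {M : ℕ → ℝ}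

/-- the exponent -/
noncomputable def BB (b : ι → ℕ → ℝ) (L : ι → ι → Bool) (Z : Finset ι) (z : ℕ) (F W : Finset ι)
    (y : ℕ) : ℝ :=
  ∑ i ∈ F.filter (fun i => (∀ w ∈ W, L i w = L w i) ∧ ¬ (i ∈ Z ∧ Unc L i (F ∪ W))), Sp (b i) z y

lemma abs_chi_le (p r : ℕ) (e : Bool) : |Jr p r * x4 e p| ≤ 1 := by
  rw [abs_mul]
  exact mul_le_one₀ (abs_Jr_le _ _) (abs_nonneg _) (abs_x4_le _ _)

/-- one variable -/
lemma est_one (hb : ∀ i p, b i p ≤ 1 / 2) (h : Hyp a b L Z c z δ C0 E0 M) {y : ℕ} (hy : z < y)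
    {F : Finset ι} {e : ι → ℕ} (he : ∀ i, e i ∈ (PP z y).divisors)
    (hcop : ∀ i ∈ Fᶜ, ∀ j ∈ Fᶜ, i ≠ j → (e i).Coprime (e j)) {t : ι → Bool}
    (ht : ∀ i ∈ F, (∀ w, w ∉ F → e w ≠ 1 → L i w = false ∧ L w i = false) → t i = false)
    {S : Finset ι} (hS : S ⊆ F.filter (fun i => ¬ Unc L i F)) {i : ι} (hi : i ∈ F) :
    ∑ p ∈ PS z y, a i p / ((p : ℝ) - c) *
      (Jr p (∏ w ∈ Fᶜ.filter (fun w => L i w ≠ L w i), e w) * x4 (xor (t i) (decide (i ∈ S))) p) ≤
    (if (∀ w ∈ Fᶜ.filter (fun w => e w ≠ 1), L i w = L w i) ∧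
      ¬ (i ∈ Z ∧ Unc L i (F ∪ Fᶜ.filter (fun w => e w ≠ 1))) then Sp (b i) z y else 0) +
      (E0 * Real.log (1 + Real.log ((∏ i ∈ Fᶜ, e i : ℕ) : ℝ)) + C0 + 1) := by
  classical
  have hz := h.hz
  have hE := h.hE
  have hC := h.hC
  have hb0 : ∀ p, 0 ≤ b i p := fun p => (abs_nonneg _).trans (h.ab i p)
  set R : ℕ := ∏ i ∈ Fᶜ, e i with hR
  have hRne : R ≠ 0 := prod_ne_zero_iff.2 fun b _ => dv_ne_zero (he b)
  have hlR : 0 ≤ Real.log (R : ℝ) := Real.log_natCast_nonneg R
  have hlR1 : 0 ≤ Real.log (1 + Real.log (R : ℝ)) := Real.log_nonneg (by linarith)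
  set r : ℕ := ∏ w ∈ Fᶜ.filter (fun w => L i w ≠ L w i), e w with hr
  set u : Bool := xor (t i) (decide (i ∈ S)) with hu
  -- replace p - c by p
  have hdiff : ∑ p ∈ PS z y, a i p / ((p : ℝ) - c) * (Jr p r * x4 u p) ≤
      ∑ p ∈ PS z y, a i p * (Jr p r * x4 u p) / (p : ℝ) + 1 := by
    have h1 : ∀ p ∈ PS z y, a i p / ((p : ℝ) - c) * (Jr p r * x4 u p) ≤
        a i p * (Jr p r * x4 u p) / (p : ℝ) + c * ((p : ℝ) ^ 2)⁻¹ := by
      intro p hp
      have hzp : z < p := (mem_Ioc.1 (mem_filter.1 hp).1).1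
      have hp2 : (2 : ℝ) * c < p := by
        have : 2 * c < p := by omega
        exact_mod_cast this
      have hc0 : (0 : ℝ) ≤ c := Nat.cast_nonneg c
      have hp0 : (0 : ℝ) < p := by linarith
      have hpc : (0 : ℝ) < (p : ℝ) - c := by linarith
      have hx := abs_chi_le p r u
      set x := Jr p r * x4 u p with hxd
      have hax : a i p * x ≤ 1 / 2 := by
        have h2 : |a i p * x| ≤ 1 / 2 := by
          rw [abs_mul]
          calc |a i p| * |x| ≤ (1 / 2) * 1 :=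
                mul_le_mul ((h.ab i p).trans (hb i p)) hx (abs_nonneg _) (by norm_num)
            _ = 1 / 2 := by norm_num
        exact (le_abs_self _).trans h2
      have h3 : a i p / ((p : ℝ) - c) * x - a i p * x / p = (a i p * x) * (c / (p * (p - c))) := by
        field_simp
        ring
      have h4 : (a i p * x) * (c / (p * (p - c))) ≤ c * ((p : ℝ) ^ 2)⁻¹ := by
        have h5 : (0 : ℝ) ≤ c / (p * (p - c)) := by positivity
        have h6 : (c : ℝ) / (p * (p - c)) ≤ 2 * (c * ((p : ℝ) ^ 2)⁻¹) := by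
          rw [div_le_iff₀ (by positivity)]
          have : 2 * (c * ((p : ℝ) ^ 2)⁻¹) * (p * (p - c)) = c * (2 * (p - c) / p) := by
            field_simp
          rw [this]
          have h7 : 1 ≤ 2 * ((p : ℝ) - c) / p := by
            rw [le_div_iff₀ hp0]
            linarith
          nlinarith
        calc (a i p * x) * (c / (p * (p - c))) ≤ (1 / 2) * (c / (p * (p - c))) :=
              mul_le_mul_of_nonneg_right hax h5
          _ ≤ (1 / 2) * (2 * (c * ((p : ℝ) ^ 2)⁻¹)) := by linarith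
          _ = _ := by ring
      linarith
    have h2 := sum_le_sum h1
    rw [sum_add_distrib, ← mul_sum] at h2
    have h3 : (c : ℝ) * ∑ p ∈ PS z y, ((p : ℝ) ^ 2)⁻¹ ≤ 1 := by
      have hz0 : z ≠ 0 := by omega
      have h4 : ∑ p ∈ PS z y, ((p : ℝ) ^ 2)⁻¹ ≤ ∑ p ∈ Ioc z y, ((p : ℝ) ^ 2)⁻¹ :=
        sum_le_sum_of_subset_of_nonneg (filter_subset _ _) fun p _ _ => by positivity
      have h5 := sum_Ioc_inv_sq_le_sub (α := ℝ) hz0 hy.le
      have h6 : (0 : ℝ) ≤ (y : ℝ)⁻¹ := by positivity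
      have h7 : (c : ℝ) * (z : ℝ)⁻¹ ≤ 1 := by
        have hz0' : (0 : ℝ) < z := by exact_mod_cast (by omega : 0 < z)
        rw [mul_inv_le_iff₀ hz0', one_mul]
        exact_mod_cast (by omega : c ≤ z)
      calc (c : ℝ) * ∑ p ∈ PS z y, ((p : ℝ) ^ 2)⁻¹ ≤ c * (z : ℝ)⁻¹ := by
            apply mul_le_mul_of_nonneg_left _ (Nat.cast_nonneg c)
            linarith
        _ ≤ 1 := h7
    linarith
  refine hdiff.trans ?_
  have hSp : 0 ≤ Sp (b i) z y := by
    unfold Sp
    exact sum_nonneg fun p _ => div_nonneg (hb0 p) (Nat.cast_nonneg p)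
  have hif : 0 ≤ (if (∀ w ∈ Fᶜ.filter (fun w => e w ≠ 1), L i w = L w i) ∧
      ¬ (i ∈ Z ∧ Unc L i (F ∪ Fᶜ.filter (fun w => e w ≠ 1))) then Sp (b i) z y else 0) := by
    split_ifs
    · exact hSp
    · exact le_rfl
  by_cases hlk : ∀ w ∈ Fᶜ.filter (fun w => e w ≠ 1), L i w = L w i
  · -- the index is not linked
    have hr1 : r = 1 := by
      rw [hr]
      apply prod_eq_one
      intro w hw
      by_contra hne
      have hw' := mem_filter.1 hw
      exact hw'.2 (hlk w (mem_filter.2 ⟨hw'.1, hne⟩))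
    by_cases hfree : i ∈ Z ∧ Unc L i (F ∪ Fᶜ.filter (fun w => e w ≠ 1))
    · -- a free signed variable
      have ht' : t i = false := by
        apply ht i hi
        intro w hw hne
        exact hfree.2 w (mem_union_right _ (mem_filter.2 ⟨mem_compl.2 hw, hne⟩))
      have hS' : i ∉ S := by
        intro hiS
        have := (mem_filter.1 (hS hiS)).2
        exact this fun j hj => hfree.2 j (mem_union_left _ hj)
      have hu' : u = false := by
        rw [hu, ht']
        simp [hS']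
      have h1 : ∑ p ∈ PS z y, a i p * (Jr p r * x4 u p) / (p : ℝ) =
          ∑ p ∈ PS z y, a i p / (p : ℝ) := by
        apply sum_congr rfl
        intro p _
        have h2 : Jr (p : ℤ) r * x4 u p = 1 := by
          rw [hr1, hu']
          simp [Jr, x4]
        rw [h2, mul_one]
      rw [h1]
      have h2 := h.H1 i hfree.1 y hy
      have h3 : 0 ≤ E0 * Real.log (1 + Real.log (R : ℝ)) := mul_nonneg hE hlR1
      linarith
    · rw [if_pos ⟨hlk, hfree⟩]
      have h1 : ∑ p ∈ PS z y, a i p * (Jr p r * x4 u p) / (p : ℝ) ≤ Sp (b i) z y := by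
        unfold Sp
        apply sum_le_sum
        intro p _
        apply div_le_div_of_nonneg_right _ (Nat.cast_nonneg p)
        refine (le_abs_self _).trans ?_
        rw [abs_mul]
        calc |a i p| * |Jr p r * x4 u p| ≤ b i p * 1 :=
              mul_le_mul (h.ab i p) (abs_chi_le p r u) (abs_nonneg _) (hb0 p)
          _ = b i p := mul_one _
      have h3 : 0 ≤ E0 * Real.log (1 + Real.log (R : ℝ)) := mul_nonneg hE hlR1
      linarith
  · -- a linked index
    push Not at hlk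
    obtain ⟨w, hw, hne⟩ := hlk
    have hw' := mem_filter.1 hw
    have hwr : w ∈ Fᶜ.filter (fun w => L i w ≠ L w i) := mem_filter.2 ⟨hw'.1, hne⟩
    have hpos : ∀ w, 0 < e w := fun w => dv_pos (he w)
    have hew : 1 < e w := by
      have := hpos w
      have := hw'.2
      omega
    have hr1 : 1 < r := by
      rw [hr, ← mul_prod_erase _ _ hwr]
      have : 0 < ∏ b ∈ (Fᶜ.filter (fun w => L i w ≠ L w i)).erase w, e b := prod_pos fun b _ => hpos b
      nlinarith
    have hrsq : Squarefree r := by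
      apply squarefree_prod
      · intro b _
        exact dv_squarefree (he b)
      · intro a ha b hb hab
        exact hcop a (mem_filter.1 ha).1 b (mem_filter.1 hb).1 hab
    have hrp : ∀ p : ℕ, p.Prime → p ∣ r → z < p := by
      intro p hp hpr
      obtain ⟨b, _, hb⟩ := (hp.prime.dvd_finsetProd_iff _).1 hpr
      exact (dv_prime (he b) hp hb).1
    have h1 := h.H2 i y r u hy hr1 hrsq hrp
    have hrR : r ≤ R := by
      apply Nat.le_of_dvd (Nat.pos_of_ne_zero hRne)
      exact prod_dvd_prod_of_subset _ _ _ (filter_subset _ _)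
    have hlr : 0 < Real.log (r : ℝ) := Real.log_pos (by exact_mod_cast hr1)
    have h2 : Real.log (Real.log (r : ℝ)) ≤ Real.log (1 + Real.log (R : ℝ)) := by
      apply Real.log_le_log hlr
      have : Real.log (r : ℝ) ≤ Real.log (R : ℝ) :=
        Real.log_le_log (by exact_mod_cast (by omega : 0 < r)) (by exact_mod_cast hrR)
      linarith
    have h3 := mul_le_mul_of_nonneg_left h2 hE
    linarith

/-- the Euler product -/
theorem est (hb : ∀ i p, b i p ≤ 1 / 2) (h : Hyp a b L Z c z δ C0 E0 M) :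
    ∃ (C : ℝ) (N : ℕ), 0 ≤ C ∧ ∀ y, z < y → ∀ (F : Finset ι) (e : ι → ℕ),
    (∀ i, e i ∈ (PP z y).divisors) →
    (∀ i ∈ Fᶜ, ∀ j ∈ Fᶜ, i ≠ j → (e i).Coprime (e j)) → ∀ t : ι → Bool,
    (∀ i ∈ F, (∀ w, w ∉ F → e w ≠ 1 → L i w = false ∧ L w i = false) → t i = false) →
    ∀ S : Finset ι, S ⊆ F.filter (fun i => ¬ Unc L i F) →
    |∏ p ∈ (PS z y).filter (fun p => ¬ p ∣ ∏ i ∈ Fᶜ, e i),
            (1 + ∑ i ∈ F, a i p / ((p : ℝ) - c) *
              (Jr p (∏ w ∈ Fᶜ.filter (fun w => L i w ≠ L w i), e w) *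
                x4 (xor (t i) (decide (i ∈ S))) p))| ≤
      C * (1 + Real.log ((∏ i ∈ Fᶜ, e i : ℕ) : ℝ)) ^ N *
        Real.exp (BB b L Z z F (Fᶜ.filter (fun w => e w ≠ 1)) y) := by
  classical
  set m : ℕ := Fintype.card ι with hm
  refine ⟨Real.exp (m * (C0 + 1)) * 2 ^ m, m * ⌈E0⌉₊ + m, by positivity,
    fun y hy F e he hcop t ht S hS => ?_⟩
  have hz := h.hz
  have hE := h.hE
  have hC := h.hC
  have hb0 : ∀ i p, 0 ≤ b i p := fun i p => (abs_nonneg _).trans (h.ab i p)
  set R : ℕ := ∏ i ∈ Fᶜ, e i with hR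
  have hRne : R ≠ 0 := prod_ne_zero_iff.2 fun b _ => dv_ne_zero (he b)
  have hlR : 0 ≤ Real.log (R : ℝ) := Real.log_natCast_nonneg R
  have hlR1 : 0 ≤ Real.log (1 + Real.log (R : ℝ)) := Real.log_nonneg (by linarith)
  have hFm : F.card ≤ m := (card_le_card (subset_univ F)).trans (le_of_eq card_univ)
  have hFm' : (F.card : ℝ) ≤ m := by exact_mod_cast hFm
  set χ : ι → ℕ → ℝ := fun i p => Jr p (∏ w ∈ Fᶜ.filter (fun w => L i w ≠ L w i), e w) *
    x4 (xor (t i) (decide (i ∈ S))) p with hχ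
  set x : ℕ → ℝ := fun p => ∑ i ∈ F, a i p / ((p : ℝ) - c) * χ i p with hx
  have hp : ∀ p ∈ PS z y, (2 : ℝ) * c + 2 + m < p := by
    intro p hp
    have hzp : z < p := (mem_Ioc.1 (mem_filter.1 hp).1).1
    exact_mod_cast (by omega : 2 * c + 2 + m < p)
  have hc0 : (0 : ℝ) ≤ c := Nat.cast_nonneg c
  have hm0 : (0 : ℝ) ≤ m := Nat.cast_nonneg m
  have hxa : ∀ p ∈ PS z y, |x p| ≤ (1 / 2) * m / ((p : ℝ) - c) := by
    intro p hpp
    have hp1 := hp p hpp
    have hpc : (0 : ℝ) < (p : ℝ) - c := by linarith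
    calc |x p| ≤ ∑ i ∈ F, |a i p / ((p : ℝ) - c) * χ i p| := abs_sum_le_sum_abs _ _
      _ ≤ ∑ i ∈ F, (1 / 2) / ((p : ℝ) - c) := by
          apply sum_le_sum
          intro i _
          rw [abs_mul, abs_div, abs_of_pos hpc]
          calc |a i p| / ((p : ℝ) - c) * |χ i p| ≤ (1 / 2) / ((p : ℝ) - c) * 1 :=
                mul_le_mul (div_le_div_of_nonneg_right ((h.ab i p).trans (hb i p)) hpc.le)
                  (abs_chi_le _ _ _) (abs_nonneg _) (by positivity)
            _ = _ := mul_one _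
      _ = F.card * ((1 / 2) / ((p : ℝ) - c)) := by rw [sum_const, nsmul_eq_mul]
      _ ≤ m * ((1 / 2) / ((p : ℝ) - c)) := mul_le_mul_of_nonneg_right hFm' (by positivity)
      _ = _ := by ring
  have hxh : ∀ p ∈ PS z y, |x p| ≤ 1 / 2 := by
    intro p hpp
    have hp1 := hp p hpp
    refine (hxa p hpp).trans ?_
    rw [div_le_iff₀ (by linarith)]
    nlinarith
  have h1 : |∏ p ∈ (PS z y).filter (fun p => ¬ p ∣ R), (1 + x p)| ≤
      Real.exp (∑ p ∈ (PS z y).filter (fun p => ¬ p ∣ R), x p) := by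
    rw [abs_prod, Real.exp_sum]
    apply prod_le_prod (fun _ _ => abs_nonneg _)
    intro p hpp
    have h2 := abs_le.1 (hxh p (mem_filter.1 hpp).1)
    rw [abs_of_nonneg (by linarith [h2.1])]
    rw [add_comm]
    exact Real.add_one_le_exp _
  refine h1.trans ?_
  have h2 : ∑ p ∈ (PS z y).filter (fun p => ¬ p ∣ R), x p ≤
      ∑ p ∈ PS z y, x p + m * ∑ p ∈ R.primeFactors, (1 : ℝ) / p := by
    have e1 := sum_filter_add_sum_filter_not (PS z y) (fun p => p ∣ R) x
    have e2 : -(∑ p ∈ (PS z y).filter (fun p => p ∣ R), x p) ≤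
        m * ∑ p ∈ R.primeFactors, (1 : ℝ) / p := by
      refine (neg_le_abs _).trans ((abs_sum_le_sum_abs _ _).trans ?_)
      rw [mul_sum]
      calc ∑ p ∈ (PS z y).filter (fun p => p ∣ R), |x p|
          ≤ ∑ p ∈ (PS z y).filter (fun p => p ∣ R), (m : ℝ) * (1 / p) := by
            apply sum_le_sum
            intro p hpp
            have hp' := (mem_filter.1 hpp).1
            have hp1 := hp p hp'
            refine (hxa p hp').trans ?_
            rw [div_le_iff₀ (by linarith)]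
            have hp0 : (0 : ℝ) < p := by linarith
            have : (m : ℝ) * (1 / p) * ((p : ℝ) - c) = m * (((p : ℝ) - c) / p) := by
              field_simp
            rw [this]
            have h3 : (1 / 2 : ℝ) ≤ ((p : ℝ) - c) / p := by
              rw [le_div_iff₀ hp0]
              linarith
            nlinarith
        _ ≤ ∑ p ∈ R.primeFactors, (m : ℝ) * (1 / p) := by
            apply sum_le_sum_of_subset_of_nonneg
            · intro p hpp
              have hp' := mem_filter.1 hpp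
              exact Nat.mem_primeFactors.2 ⟨(mem_filter.1 hp'.1).2, hp'.2, hRne⟩
            · intro p _ _
              positivity
    linarith
  have h3 : ∑ p ∈ PS z y, x p ≤ BB b L Z z F (Fᶜ.filter (fun w => e w ≠ 1)) y +
      m * (E0 * Real.log (1 + Real.log (R : ℝ)) + C0 + 1) := by
    rw [hx, sum_comm]
    have e1 : ∑ i ∈ F, ∑ p ∈ PS z y, a i p / ((p : ℝ) - c) * χ i p ≤
        ∑ i ∈ F, ((if (∀ w ∈ Fᶜ.filter (fun w => e w ≠ 1), L i w = L w i) ∧
          ¬ (i ∈ Z ∧ Unc L i (F ∪ Fᶜ.filter (fun w => e w ≠ 1))) then Sp (b i) z y else 0) +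
          (E0 * Real.log (1 + Real.log (R : ℝ)) + C0 + 1)) :=
      sum_le_sum fun i hi => est_one hb h hy he hcop ht hS hi
    refine e1.trans ?_
    rw [sum_add_distrib, ← sum_filter, sum_const, nsmul_eq_mul]
    unfold BB
    have e2 : 0 ≤ E0 * Real.log (1 + Real.log (R : ℝ)) + C0 + 1 := by positivity
    have e3 := mul_le_mul_of_nonneg_right hFm' e2
    exact add_le_add_right e3 _
  have h4 := sum_pf_le hRne
  set l := Real.log (1 + Real.log (R : ℝ)) with hl
  have h5 : E0 ≤ ⌈E0⌉₊ := Nat.le_ceil E0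
  have h6 : ∑ p ∈ (PS z y).filter (fun p => ¬ p ∣ R), x p ≤
      m * (C0 + 1) + m * Real.log 2 + ((m * ⌈E0⌉₊ + m : ℕ) : ℝ) * l +
        BB b L Z z F (Fᶜ.filter (fun w => e w ≠ 1)) y := by
    have e1 := mul_le_mul_of_nonneg_left h4 hm0
    have e2 : (m : ℝ) * (E0 * l) ≤ m * (⌈E0⌉₊ * l) :=
      mul_le_mul_of_nonneg_left (mul_le_mul_of_nonneg_right h5 hlR1) hm0
    push_cast
    nlinarith
  refine (Real.exp_le_exp.2 h6).trans (le_of_eq ?_)
  rw [Real.exp_add, Real.exp_add, Real.exp_add]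
  have e1 : Real.exp (m * Real.log 2) = 2 ^ m := by
    rw [mul_comm, ← Real.rpow_def_of_pos (by norm_num), Real.rpow_natCast]
  have e2 : Real.exp (((m * ⌈E0⌉₊ + m : ℕ) : ℝ) * l) =
      (1 + Real.log (R : ℝ)) ^ (m * ⌈E0⌉₊ + m) := by
    rw [mul_comm, hl, ← Real.rpow_def_of_pos (by positivity), Real.rpow_natCast]
  rw [e1, e2]

/-- the main lemma -/
theorem ml_of (hsy : SYMD) : ML := by
  intro ι _ _ a b L Z c z δ C0 E0 M hb h
  classical
  obtain ⟨C, N, hC, hest⟩ := est hb h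
  refine ⟨2 ^ Fintype.card ι * C, N, by positivity, fun y hy F hF e he => ?_⟩
  have hz := h.hz
  have hgp0 : ∀ i, 0 ≤ gp (b i) c (e i) := fun i =>
    ATS8.gp_nonneg (fun p => (abs_nonneg _).trans (h.ab i p)) (by omega) (he i)
  have hP0 : 0 ≤ ∏ i ∈ Fᶜ, gp (b i) c (e i) := prod_nonneg fun i _ => hgp0 i
  have hlR : 0 ≤ Real.log ((∏ i ∈ Fᶜ, e i : ℕ) : ℝ) := Real.log_natCast_nonneg _
  by_cases hcop : ∀ i ∈ Fᶜ, ∀ j ∈ Fᶜ, i ≠ j → (e i).Coprime (e j)
  · obtain ⟨t, ht, hsum⟩ := hsy ι a b L c z y F e h.ab h.LL hF (by omega) (by omega) he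
    refine hsum.trans ?_
    apply mul_le_mul_of_nonneg_left _ hP0
    have h1 : ∀ S ∈ (F.filter (fun i => ¬ Unc L i F)).powerset,
        |∏ p ∈ (PS z y).filter (fun p => ¬ p ∣ ∏ i ∈ Fᶜ, e i),
            (1 + ∑ i ∈ F, a i p / ((p : ℝ) - c) *
              (Jr p (∏ w ∈ Fᶜ.filter (fun w => L i w ≠ L w i), e w) *
                x4 (xor (t i) (decide (i ∈ S))) p))| ≤
        C * (1 + Real.log ((∏ i ∈ Fᶜ, e i : ℕ) : ℝ)) ^ N *
          Real.exp (BB b L Z z F (Fᶜ.filter (fun w => e w ≠ 1)) y) := fun S hS =>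
      hest y hy F e he hcop t ht S (mem_powerset.1 hS)
    have h2 := sum_le_sum h1
    rw [sum_const, nsmul_eq_mul] at h2
    refine h2.trans ?_
    have h3 : (((F.filter (fun i => ¬ Unc L i F)).powerset.card : ℕ) : ℝ) ≤
        2 ^ Fintype.card ι := by
      rw [card_powerset]
      push_cast
      apply pow_le_pow_right₀ (by norm_num)
      exact (card_le_card (subset_univ _)).trans (le_of_eq card_univ)
    have h4 : 0 ≤ C * (1 + Real.log ((∏ i ∈ Fᶜ, e i : ℕ) : ℝ)) ^ N *
          Real.exp (BB b L Z z F (Fᶜ.filter (fun w => e w ≠ 1)) y) := by positivity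
    refine (mul_le_mul_of_nonneg_right h3 h4).trans (le_of_eq ?_)
    unfold BB
    ring
  · -- all the terms are 0
    have h0 : ∑ d ∈ Fintype.piFinset (fun i => if i ∈ F then (PP z y).divisors else {e i}),
        ATS8.HG a L (fun _ => 1) c d = 0 := by
      apply sum_eq_zero
      intro d hd
      unfold ATS8.HG
      rw [if_neg]
      intro hc
      apply hcop
      intro i hi j hj hij
      have h1 := Fintype.mem_piFinset.1 hd i
      have h2 := Fintype.mem_piFinset.1 hd j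
      rw [if_neg (mem_compl.1 hi), mem_singleton] at h1
      rw [if_neg (mem_compl.1 hj), mem_singleton] at h2
      rw [← h1, ← h2]
      exact hc i j hij
    rw [h0, abs_zero]
    positivity

end Pool.Agent.TH841.TR
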