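import Mathlib
import Pool.Agent.TH841.TR.EST
import Pool.Agent.TH841.PT.ATS2

/-!
# Project TR: the refined bound
-/

set_option autoImplicit false

namespace Pool.Agent.TH841.TR

open Finset Polynomial Pool.Agent.W262.RK Pool.Agent.W262.RK.AT Pool.Agent.TH841.PT

open Pool.Agent.TH841.PT.ATS8 (Bd HG exp_Sp_le Sp_nonneg gh_nonneg cs_any cs_low gp_le_hh gp_one
  triv pair_case)

variable {ι : Type} [Fintype ι] [DecidableEq ι]

/-- the bounds used -/
lemma bd_of (he : EPS) (hf : FULLG) {a b : ι → ℕ → ℝ} {c z : ℕ} {C0 E0 : ℝ}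
    (hab : ∀ i p, |a i p| ≤ b i p) (hb : ∀ i p, b i p ≤ 1 / 2) (hz : 2 * c + 2 ≤ z) (hE0 : 0 ≤ E0)
    (H2 : ∀ (i : ι) (y r : ℕ) (e : Bool), z < y → 1 < r → Squarefree r →
      (∀ p : ℕ, p.Prime → p ∣ r → z < p) →
      ∑ p ∈ PS z y, a i p * (Jr p r * x4 e p) / (p : ℝ) ≤ E0 * Real.log (Real.log r) + C0) :
    ∃ C : ℝ, Bd a b (fun _ => 1) c z C E0 := by
  have hg : ∀ i p, 0 ≤ b i p ∧ b i p ≤ 1 / 2 := fun i p =>
    ⟨(abs_nonneg _).trans (hab i p), hb i p⟩
  obtain ⟨B, hB1, hBB⟩ := exp_Sp_le
  choose CE hCE using fun i => he (a i) (b i) c z C0 E0 (fun p => ⟨hab i p, hb i p⟩) hz hE0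
    (fun y r e hy hr hs hp => by
      have h1 := H2 i y r e hy hr hs hp
      have h2 : 0 ≤ Sp (b i) z y := by
        unfold Sp
        exact sum_nonneg fun p _ => div_nonneg (hg i p).1 (Nat.cast_nonneg p)
      linarith)
  choose CF hCF1 hCF2 hCF3 using fun i => hf (b i) c z (hg i) hz
  set C' : ℝ := 1 + ∑ i, (|CE i| + |CF i|) with hC'
  have hC'1 : 1 ≤ C' := by
    rw [hC']
    have : 0 ≤ ∑ i, (|CE i| + |CF i|) := sum_nonneg fun i _ => by positivity
    linarith
  set C : ℝ := C' * B with hC
  have hCC : C' ≤ C := by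
    rw [hC]
    nlinarith
  have hCi : ∀ i, |CE i| + |CF i| ≤ C' := by
    intro i
    have h1 : |CE i| + |CF i| ≤ ∑ i, (|CE i| + |CF i|) :=
      single_le_sum (f := fun i => |CE i| + |CF i|) (fun j _ => by positivity) (mem_univ i)
    linarith
  have hCE' : ∀ i, CE i ≤ C := fun i => by
    have := le_abs_self (CE i)
    have := abs_nonneg (CF i)
    linarith [hCi i]
  have hCF0 : ∀ i, CF i ≤ C' := fun i => by
    have := le_abs_self (CF i)
    have := abs_nonneg (CE i)
    linarith [hCi i]
  have hCF' : ∀ i, CF i ≤ C := fun i => (hCF0 i).trans hCC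
  exact ⟨C,
    { ab := hab
      w0 := fun i p => (hg i p).1
      w1 := hb
      z2 := by omega
      zc := by omega
      C1 := hC'1.trans hCC
      E1 := hE0
      F0 := fun i y hy => by
        refine (hCF1 i y hy).trans ?_
        have h1 := hBB (b i) (hg i) z y (by omega) hy
        have h3 : 0 ≤ Real.exp (Sp (b i) z y) := (Real.exp_pos _).le
        calc CF i * Real.exp (Sp (b i) z y) ≤ C' * Real.exp (Sp (b i) z y) :=
              mul_le_mul_of_nonneg_right (hCF0 i) h3
          _ ≤ C' * (B * Real.log y) := mul_le_mul_of_nonneg_left h1 (by linarith)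
          _ = C * Real.log y := by rw [hC]; ring
      F1 := fun i y hy => (hCF1 i y hy).trans (mul_le_mul_of_nonneg_right (hCF' i)
        (Real.exp_pos _).le)
      F2 := fun i y V hy hV => (hCF2 i y V hy hV).trans (mul_le_mul_of_nonneg_right (hCF' i)
        (Real.log_natCast_nonneg V))
      F3 := fun i y Y hy hY => (hCF3 i y Y hy hY).trans (by
        apply mul_le_mul_of_nonneg_right _ (by positivity)
        exact mul_le_mul_of_nonneg_right (hCF' i) (Real.exp_pos _).le)
      E := fun i y R r e hy hR hr hs hp => by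
        simp only [ATS8.Jr_one_left, mul_one]
        exact (hCE i y R r e hy hR hr hs hp).trans (by
          apply mul_le_mul_of_nonneg_right _ (hh_nonneg _)
          apply mul_le_mul_of_nonneg_right _ (Real.rpow_nonneg (Real.log_natCast_nonneg r) _)
          exact mul_le_mul_of_nonneg_right (hCE' i) (Real.exp_pos _).le) }⟩

/-- the variables of a given kind, all the variables for `none` -/
def oc (z y V Y : ℕ) : Option (Fin 4) → Finset ℕ
  | none => (PP z y).divisors
  | some r => cell z y V Y r

lemma oc_sub (z y V Y : ℕ) (k : Option (Fin 4)) : oc z y V Y k ⊆ (PP z y).divisors := by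
  cases k with
  | none => exact subset_rfl
  | some r => exact cell_sub z y V Y r

lemma sum_cells (z y V Y : ℕ) (g : ℕ → ℝ) :
    ∑ m ∈ (PP z y).divisors, g m = ∑ r, ∑ m ∈ cell z y V Y r, g m := by
  unfold cell
  exact (sum_fiberwise _ _ _).symm

/-- splitting one variable -/
lemma split_one (z y V Y : ℕ) (π : ι → Option (Fin 4)) (i : ι) (f : (ι → ℕ) → ℝ) :
    ∑ d ∈ Fintype.piFinset (fun k => oc z y V Y (Function.update π i none k)), f d =
      ∑ r, ∑ d ∈ Fintype.piFinset (fun k => oc z y V Y (Function.update π i (some r) k)), f d := by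
  have h1 : ∀ v : Option (Fin 4), (fun k => oc z y V Y (Function.update π i v k)) =
      Function.update (fun k => oc z y V Y (π k)) i (oc z y V Y v) := by
    intro v
    funext k
    by_cases hk : k = i
    · subst hk
      rw [Function.update_self, Function.update_self]
    · rw [Function.update_of_ne hk, Function.update_of_ne hk]
  have h2 : ∀ v : Option (Fin 4),
      ∑ d ∈ Fintype.piFinset (fun k => oc z y V Y (Function.update π i v k)), f d =
        ∑ e ∈ Fintype.piFinset (Function.update (fun k => oc z y V Y (π k)) i {1}),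
          ∑ m ∈ oc z y V Y v, f (Function.update e i m) := by
    intro v
    rw [h1 v, sum_update _ i, Function.update_self, Function.update_idem]
  rw [h2 none, sum_congr rfl fun r _ => h2 (some r)]
  symm
  rw [sum_comm]
  symm
  apply sum_congr rfl
  intro e _
  exact sum_cells z y V Y _

/-- the sum over the variables outside `F` and the sum over the variables of `F` -/
lemma split_two (F : Finset ι) (t : ι → Finset ℕ) (f : (ι → ℕ) → ℝ) :
    ∑ d ∈ Fintype.piFinset t, f d =
      ∑ e ∈ Fintype.piFinset (fun i => if i ∈ F then {1} else t i),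
        ∑ d ∈ Fintype.piFinset (fun i => if i ∈ F then t i else {e i}), f d := by
  classical
  have hmap : ∀ d ∈ Fintype.piFinset t, (fun i => if i ∈ F then 1 else d i) ∈
      Fintype.piFinset (fun i => if i ∈ F then {1} else t i) := by
    intro d hd
    rw [Fintype.mem_piFinset] at hd ⊢
    intro i
    by_cases hi : i ∈ F
    · simp [hi]
    · simp [hi, hd i]
  rw [← sum_fiberwise_of_maps_to hmap]
  apply sum_congr rfl
  intro e he
  rw [Fintype.mem_piFinset] at he
  apply sum_congr _ fun _ _ => rfl
  ext d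
  rw [mem_filter, Fintype.mem_piFinset, Fintype.mem_piFinset]
  constructor
  · rintro ⟨h1, h2⟩ i
    by_cases hi : i ∈ F
    · rw [if_pos hi]
      exact h1 i
    · rw [if_neg hi, mem_singleton, ← h2]
      simp [hi]
  · intro h1
    constructor
    · intro i
      have h2 := h1 i
      have h3 := he i
      by_cases hi : i ∈ F
      · rwa [if_pos hi] at h2
      · rw [if_neg hi, mem_singleton] at h2
        rw [if_neg hi] at h3
        rwa [h2]
    · funext i
      have h2 := h1 i
      have h3 := he i
      by_cases hi : i ∈ F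
      · rw [if_pos hi, mem_singleton] at h3
        simp [hi, h3]
      · rw [if_neg hi, mem_singleton] at h2
        simp [hi, h2]

lemma prod_two (F : Finset ι) (t : ι → Finset ℕ) (g : ι → ℕ → ℝ) :
    ∑ e ∈ Fintype.piFinset (fun i => if i ∈ F then {1} else t i), ∏ i ∈ Fᶜ, g i (e i) =
      ∏ i ∈ Fᶜ, ∑ m ∈ t i, g i m := by
  classical
  have h1 : ∀ e : ι → ℕ, ∏ i ∈ Fᶜ, g i (e i) = ∏ i, (if i ∈ F then 1 else g i (e i)) := by
    intro e
    rw [← prod_subset (subset_univ Fᶜ)]
    · apply prod_congr rfl
      intro i hi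
      rw [if_neg (mem_compl.1 hi)]
    · intro i _ hi
      rw [mem_compl, not_not] at hi
      rw [if_pos hi]
  simp_rw [h1]
  rw [← prod_univ_sum (fun i => if i ∈ F then {1} else t i)
    (fun i m => if i ∈ F then 1 else g i m), ← prod_subset (subset_univ Fᶜ)]
  · apply prod_congr rfl
    intro i hi
    have := mem_compl.1 hi
    simp [this]
  · intro i _ hi
    rw [mem_compl, not_not] at hi
    simp [hi]

section

variable (a : ι → ℕ → ℝ) (L : ι → ι → Bool) (c z : ℕ) (M : ℕ → ℝ) (A : ℕ)

/-- the bound for the variables of the kinds `π` -/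
def Gd (π : ι → Option (Fin 4)) : Prop := ∃ C' : ℝ, ∀ y, z < y →
  |∑ d ∈ Fintype.piFinset (fun i => oc z y (VV A (Real.log y)) (YY A (Real.log y)) (π i)),
    HG a L (fun _ => 1) c d| ≤ C' * Real.exp (M y)

variable {a L c z M A}

lemma gd_all {π : ι → Option (Fin 4)} (i : ι)
    (h : ∀ r, Gd a L c z M A (Function.update π i (some r))) :
    Gd a L c z M A (Function.update π i none) := by
  choose C' hC' using h
  refine ⟨∑ r, C' r, fun y hy => ?_⟩
  rw [split_one, sum_mul]
  exact (abs_sum_le_sum_abs _ _).trans (sum_le_sum fun r _ => hC' r y hy)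

lemma gd_two {π : ι → Option (Fin 4)} (i : ι)
    (h : ∀ v, v ≠ some 2 → Gd a L c z M A (Function.update π i v)) :
    Gd a L c z M A (Function.update π i (some 2)) := by
  obtain ⟨Ca, ha⟩ := h none (by decide)
  obtain ⟨C0, h0⟩ := h (some 0) (by decide)
  obtain ⟨C1, h1⟩ := h (some 1) (by decide)
  obtain ⟨C3, h3⟩ := h (some 3) (by decide)
  refine ⟨Ca + C0 + C1 + C3, fun y hy => ?_⟩
  have e1 := split_one z y (VV A (Real.log y)) (YY A (Real.log y)) π i
    (fun d => HG a L (fun _ => 1) c d)
  rw [Fin.sum_univ_four] at e1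
  have ga := abs_le.1 (ha y hy)
  have g0 := abs_le.1 (h0 y hy)
  have g1 := abs_le.1 (h1 y hy)
  have g3 := abs_le.1 (h3 y hy)
  rw [abs_le]
  constructor
  · linarith [ga.1, g0.2, g1.2, g3.2]
  · linarith [ga.2, g0.1, g1.1, g3.1]

lemma gd_all_set (T : Finset ι) : ∀ π : ι → Option (Fin 4),
    (∀ ρ : ι → Fin 4, Gd a L c z M A (fun i => if i ∈ T then some (ρ i) else π i)) →
    Gd a L c z M A (fun i => if i ∈ T then none else π i) := by
  induction T using Finset.induction_on with
  | empty =>
    intro π h
    simpa using h 0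
  | insert i T hi ih =>
    intro π h
    have e1 : (fun j => if j ∈ insert i T then none else π j) =
        (fun j => if j ∈ T then none else Function.update π i none j) := by
      funext j
      by_cases hj : j = i
      · subst hj
        simp [hi]
      · simp [hj]
    rw [e1]
    apply ih
    intro ρ
    have e2 : (fun j => if j ∈ T then some (ρ j) else Function.update π i none j) =
        Function.update (fun j => if j ∈ T then some (ρ j) else π j) i none := by
      funext j
      by_cases hj : j = i
      · subst hj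
        simp [hi]
      · simp [hj]
    rw [e2]
    apply gd_all
    intro r
    have e3 : Function.update (fun j => if j ∈ T then some (ρ j) else π j) i (some r) =
        (fun j => if j ∈ insert i T then some (Function.update ρ i r j) else π j) := by
      funext j
      by_cases hj : j = i
      · subst hj
        simp
      · simp [hj]
    rw [e3]
    exact h _

lemma gd_two_set (T : Finset ι) : ∀ π : ι → Option (Fin 4),
    (∀ ρ : ι → Option (Fin 4), (∀ i ∈ T, ρ i ≠ some 2) →
      Gd a L c z M A (fun i => if i ∈ T then ρ i else π i)) →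
    Gd a L c z M A (fun i => if i ∈ T then some 2 else π i) := by
  induction T using Finset.induction_on with
  | empty =>
    intro π h
    simpa using h (fun _ => none) (by simp)
  | insert i T hi ih =>
    intro π h
    have e1 : (fun j => if j ∈ insert i T then some 2 else π j) =
        (fun j => if j ∈ T then some 2 else Function.update π i (some 2) j) := by
      funext j
      by_cases hj : j = i
      · subst hj
        simp [hi]
      · simp [hj]
    rw [e1]
    apply ih
    intro ρ hρ
    have e2 : (fun j => if j ∈ T then ρ j else Function.update π i (some 2) j) =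
        Function.update (fun j => if j ∈ T then ρ j else π j) i (some 2) := by
      funext j
      by_cases hj : j = i
      · subst hj
        simp [hi]
      · simp [hj]
    rw [e2]
    apply gd_two
    intro v hv
    have e3 : Function.update (fun j => if j ∈ T then ρ j else π j) i v =
        (fun j => if j ∈ insert i T then Function.update ρ i v j else π j) := by
      funext j
      by_cases hj : j = i
      · subst hj
        simp
      · simp [hj]
    rw [e3]
    apply h
    intro j hj
    by_cases hji : j = i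
    · subst hji
      rwa [Function.update_self]
    · rw [Function.update_of_ne hji]
      exact hρ j ((mem_insert.1 hj).resolve_left hji)

end

section

variable {a b : ι → ℕ → ℝ} {L : ι → ι → Bool} {c z : ℕ} {C E0 : ℝ} {M : ℕ → ℝ}

/-- a huge variable -/
lemma gd_tail (hB : Bd a b (fun _ => 1) c z C E0) (A : ℕ) (hM : ∀ y, z < y → 0 ≤ M y)
    (π : ι → Option (Fin 4)) {k : ι} (hk : π k = some 3) : Gd a L c z M A π := by
  have hcz : c ≤ z := by have := hB.zc; omega
  have hC0 : 0 ≤ C := zero_le_one.trans hB.C1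
  refine ⟨C ^ (Fintype.card ι + 1) * (Fintype.card ι + 2).factorial, fun y hy => ?_⟩
  have hly := one_le_log hB.z2 hy
  have hly0 : 0 < Real.log y := by linarith
  set l := Real.log y with hl
  set V := VV A l with hV
  set Y := YY A l with hY
  refine (triv hB.ab hB.w0 hcz fun i => oc_sub _ _ _ _ _).trans ?_
  have h1 : ∏ i, ∑ m ∈ oc z y V Y (π i), gp (b i) c m ≤
      ∏ i, ∑ m ∈ oc z y V Y (π i), gp (b i) c m * hh m := by
    apply prod_le_prod
    · intro i _
      exact sum_nonneg fun m hm => ATS8.gp_nonneg (hB.w0 i) hcz (oc_sub _ _ _ _ _ hm)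
    · intro i _
      exact sum_le_sum fun m hm => gp_le_hh hB i (oc_sub _ _ _ _ _ hm)
  refine h1.trans ?_
  rw [← mul_prod_erase univ _ (mem_univ k), hk]
  have h2 : ∑ m ∈ oc z y V Y (some 3), gp (b k) c m * hh m ≤ C * Real.exp (-l) * l ^ 2 := by
    have hV3 := three_le_VV A l
    have hVY := VV_le_YY A l
    calc ∑ m ∈ cell z y V Y 3, gp (b k) c m * hh m
        ≤ ∑ m ∈ (PP z y).divisors.filter (fun d => Y < d), gp (b k) c m * hh m := by
          apply sum_le_sum_of_subset_of_nonneg
          · intro m hm
            rw [mem_filter]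
            exact ⟨cell_sub _ _ _ _ _ hm, cell_three hm⟩
          · intro m hm _
            exact gh_nonneg hB k (mem_filter.1 hm).1
      _ ≤ C * Real.exp (-(Real.log Y / Real.log y)) * (Real.log y) ^ 2 :=
          hB.F3 k y Y hy (by omega)
      _ ≤ C * Real.exp (-l) * l ^ 2 := by
          apply mul_le_mul_of_nonneg_right _ (by positivity)
          apply mul_le_mul_of_nonneg_left _ hC0
          apply Real.exp_le_exp.2
          rw [neg_le_neg_iff, le_div_iff₀ hly0]
          have := log_YY_ge A l
          nlinarith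
  have h3 : ∏ b' ∈ univ.erase k, ∑ m ∈ oc z y V Y (π b'), gp (b b') c m * hh m ≤
      (C * l) ^ (Fintype.card ι) := by
    have hCl : 1 ≤ C * l := by nlinarith [hB.C1]
    calc _ ≤ ∏ b' ∈ univ.erase k, (C * l) := by
          apply prod_le_prod
          · intro b' _
            exact sum_nonneg fun m hm => gh_nonneg hB b' (oc_sub _ _ _ _ _ hm)
          · intro b' _
            calc ∑ m ∈ oc z y V Y (π b'), gp (b b') c m * hh m
                ≤ ∑ m ∈ (PP z y).divisors, gp (b b') c m * hh m :=
                  sum_le_sum_of_subset_of_nonneg (oc_sub _ _ _ _ _) fun m hm _ =>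
                    gh_nonneg hB b' hm
              _ ≤ C * Real.log y := hB.F0 b' y hy
      _ = (C * l) ^ (univ.erase k).card := by rw [prod_const]
      _ ≤ _ := by
          apply pow_le_pow_right₀ hCl
          exact (card_le_card (erase_subset _ _)).trans (le_of_eq card_univ)
  have h4 : 1 ≤ Real.exp (M y) := Real.one_le_exp (hM y hy)
  have h5 := exp_neg_pow (Fintype.card ι + 2) hly
  calc _ ≤ C * Real.exp (-l) * l ^ 2 * (C * l) ^ (Fintype.card ι) := by
        apply mul_le_mul h2 h3 _ (by positivity)
        exact prod_nonneg fun b' _ => sum_nonneg fun m hm => gh_nonneg hB b' (oc_sub _ _ _ _ _ hm)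
    _ = C ^ (Fintype.card ι + 1) * (Real.exp (-l) * l ^ (Fintype.card ι + 2)) := by ring
    _ ≤ C ^ (Fintype.card ι + 1) * (Fintype.card ι + 2).factorial :=
        mul_le_mul_of_nonneg_left h5 (by positivity)
    _ ≤ _ := le_mul_of_one_le_right (by positivity) h4

/-- two linked large variables -/
lemma gd_pair (hB : Bd a b (fun _ => 1) c z C E0) {C2 : ℝ} {E2 : ℕ} (hC2 : 0 ≤ C2) (h2 : BW C2 E2)
    (hL : ∀ i, L i i = false) {A : ℕ} (hA : 6 * (Fintype.card ι + 2 * E2) ≤ A)
    (hM : ∀ y, z < y → 0 ≤ M y)
    (π : ι → Option (Fin 4)) {i j : ι} (hi : π i = some 2) (hj : π j = some 2)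
    (hij : L i j ≠ L j i) : Gd a L c z M A π := by
  have hC0 : 0 ≤ C := zero_le_one.trans hB.C1
  refine ⟨C ^ (Fintype.card ι) * C2 * (A + 3) ^ E2, fun y hy => ?_⟩
  have hly := one_le_log hB.z2 hy
  have hly0 : 0 < Real.log y := by linarith
  set l := Real.log y with hl
  set V := VV A l with hV
  set Y := YY A l with hY
  have hV3 : 3 ≤ V := three_le_VV A l
  have hVY : V ≤ Y := VV_le_YY A l
  have hne : i ≠ j := by rintro rfl; exact hij rfl
  have hc2 : ∀ b', π b' = some 2 → oc z y V Y (π b') = lg z y V Y := fun b' hb => by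
    rw [hb]; exact cell_two (by omega)
  have hmain : |∑ d ∈ Fintype.piFinset (fun b' => oc z y V Y (π b')), HG a L (fun _ => 1) c d| ≤
      (C * l) ^ (Fintype.card ι) * (C2 * (Real.log Y) ^ E2 * (V : ℝ) ^ (-(1 / 6 : ℝ))) := by
    rcases h1 : L i j with _ | _
    · rcases h1' : L j i with _ | _
      · rw [h1, h1'] at hij; exact absurd rfl hij
      · exact pair_case hB hC2 h2 hne.symm (hL j) h1' h1 hy (by omega) hVY
          (fun b' => oc_sub _ _ _ _ _) (hc2 j hj) (hc2 i hi)
    · rcases h1' : L j i with _ | _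
      · exact pair_case hB hC2 h2 hne (hL i) h1 h1' hy (by omega) hVY
          (fun b' => oc_sub _ _ _ _ _) (hc2 i hi) (hc2 j hj)
      · rw [h1, h1'] at hij; exact absurd rfl hij
  refine hmain.trans ?_
  have h3 : Real.log Y ≤ (A + 3) * l ^ 2 := log_YY_le hly
  have h3' : 0 ≤ Real.log Y := Real.log_natCast_nonneg Y
  have h4 : (V : ℝ) ^ (-(1 / 6 : ℝ)) ≤ (l ^ (Fintype.card ι + 2 * E2))⁻¹ := by
    have h5 : l ^ (6 * (Fintype.card ι + 2 * E2)) ≤ V :=
      (pow_le_pow_right₀ hly hA).trans (VV_ge A l)
    have h6 : (0 : ℝ) < l ^ (6 * (Fintype.card ι + 2 * E2)) := by positivity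
    have h7 : (V : ℝ) ^ (-(1 / 6 : ℝ)) ≤ (l ^ (6 * (Fintype.card ι + 2 * E2))) ^ (-(1 / 6 : ℝ)) :=
      Real.rpow_le_rpow_of_nonpos h6 h5 (by norm_num)
    refine h7.trans (le_of_eq ?_)
    rw [← Real.rpow_natCast l, ← Real.rpow_mul hly0.le, ← Real.rpow_natCast l,
      ← Real.rpow_neg hly0.le]
    congr 1
    push_cast
    ring
  have h8 : (1 : ℝ) ≤ Real.exp (M y) := Real.one_le_exp (hM y hy)
  calc (C * l) ^ (Fintype.card ι) * (C2 * (Real.log Y) ^ E2 * (V : ℝ) ^ (-(1 / 6 : ℝ)))
      ≤ (C * l) ^ (Fintype.card ι) * (C2 * ((A + 3) * l ^ 2) ^ E2 *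
          (l ^ (Fintype.card ι + 2 * E2))⁻¹) := by
        apply mul_le_mul_of_nonneg_left _ (by positivity)
        apply mul_le_mul _ h4 (by positivity) (by positivity)
        exact mul_le_mul_of_nonneg_left (pow_le_pow_left₀ h3' h3 _) hC2
    _ = C ^ (Fintype.card ι) * C2 * (A + 3) ^ E2 := by
        rw [mul_pow, mul_pow, ← pow_mul, pow_add]
        field_simp
    _ ≤ _ := le_mul_of_one_le_right (by positivity) h8

variable {Z : Finset ι} {δ C0 : ℝ}

/-- the final case -/
lemma gd_fin (hml : ML) (hB : Bd a b (fun _ => 1) c z C E0) (hb : ∀ i p, b i p ≤ 1 / 2)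
    (h : Hyp a b L Z c z δ C0 E0 M) (A : ℕ) (π : ι → Option (Fin 4))
    (hπ : ∀ i, π i = none ∨ π i = some 0 ∨ π i = some 1)
    (hF : ∀ i j, π i = none → π j = none → L i j = L j i)
    (hBB : (∀ y, z < y → BB b L Z z (univ.filter (fun i => π i = none))
        (univ.filter (fun i => π i = some 1)) y ≤ M y + C0 - δ * Real.log (Real.log y)) ∨
      (∀ i, π i ≠ some 1)) : Gd a L c z M A π := by
  classical
  have hcz : c ≤ z := by have := hB.zc; omega
  have hC0 : 0 ≤ C := zero_le_one.trans hB.C1
  obtain ⟨C2, N, hC2, h2⟩ := hml ι a b L Z c z δ C0 E0 M hb h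
  set m := Fintype.card ι with hm
  obtain ⟨C1, hC1, h1⟩ := log_VV_pow_le A (m + N) h.hδ
  set F := univ.filter (fun i => π i = none) with hFd
  set W := univ.filter (fun i => π i = some 1) with hWd
  have hFu : ∀ i ∈ F, ∀ j ∈ F, L i j = L j i := fun i hi j hj =>
    hF i j (mem_filter.1 hi).2 (mem_filter.1 hj).2
  have key : ∀ y, z < y → ∀ e ∈ Fintype.piFinset (fun i => if i ∈ F then {1} else
        oc z y (VV A (Real.log y)) (YY A (Real.log y)) (π i)),
      |∑ d ∈ Fintype.piFinset (fun i => if i ∈ F then
        oc z y (VV A (Real.log y)) (YY A (Real.log y)) (π i) else {e i}),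
        HG a L (fun _ => 1) c d| ≤
      (∏ i ∈ Fᶜ, gp (b i) c (e i)) * (C2 * (if W = ∅ then 1 else
        (1 + m * Real.log (VV A (Real.log y))) ^ N) * Real.exp (BB b L Z z F W y)) := by
    intro y hy e he
    set V := VV A (Real.log y) with hV
    set Y := YY A (Real.log y) with hY
    have hV3 : 3 ≤ V := three_le_VV _ _
    rw [Fintype.mem_piFinset] at he
    have hkind : ∀ i, i ∉ F → (π i = some 0 ∧ e i = 1) ∨ (π i = some 1 ∧ 1 < e i ∧ e i ≤ V) := by
      intro i hi
      have h3 := he i
      rw [if_neg hi] at h3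
      rcases hπ i with h4 | h4 | h4
      · exact absurd (mem_filter.2 ⟨mem_univ i, h4⟩) hi
      · left
        rw [h4] at h3
        exact ⟨h4, cell_zero h3⟩
      · right
        rw [h4] at h3
        exact ⟨h4, cell_one h3⟩
    have hdv : ∀ i, e i ∈ (PP z y).divisors := by
      intro i
      have h3 := he i
      by_cases hi : i ∈ F
      · rw [if_pos hi, mem_singleton] at h3
        rw [h3]
        exact one_mem_dv z y
      · rw [if_neg hi] at h3
        exact oc_sub _ _ _ _ _ h3
    have hW : Fᶜ.filter (fun w => e w ≠ 1) = W := by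
      ext i
      constructor
      · intro h0
        obtain ⟨h3, h4⟩ := mem_filter.1 h0
        rcases hkind i (mem_compl.1 h3) with h5 | h5
        · exact absurd h5.2 h4
        · exact mem_filter.2 ⟨mem_univ i, h5.1⟩
      · intro h0
        have h4 := (mem_filter.1 h0).2
        have h3 : i ∉ F := by
          intro h3
          have := (mem_filter.1 h3).2
          rw [h4] at this
          exact absurd this (by simp)
        refine mem_filter.2 ⟨mem_compl.2 h3, ?_⟩
        rcases hkind i h3 with h5 | h5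
        · rw [h4] at h5
          exact absurd h5.1 (by decide)
        · omega
    have hs : (fun i => if i ∈ F then oc z y V Y (π i) else {e i}) =
        (fun i => if i ∈ F then (PP z y).divisors else {e i}) := by
      funext i
      by_cases hi : i ∈ F
      · rw [if_pos hi, if_pos hi, (mem_filter.1 hi).2]
        rfl
      · rw [if_neg hi, if_neg hi]
    rw [hs]
    have h3 := h2 y hy F hFu e hdv
    have hP0 : 0 ≤ ∏ i ∈ Fᶜ, gp (b i) c (e i) :=
      prod_nonneg fun i _ => ATS8.gp_nonneg (hB.w0 i) hcz (hdv i)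
    refine h3.trans (mul_le_mul_of_nonneg_left ?_ hP0)
    rw [hW]
    unfold BB
    refine mul_le_mul_of_nonneg_right ?_ (Real.exp_pos _).le
    refine mul_le_mul_of_nonneg_left ?_ hC2
    by_cases hWe : W = ∅
    · rw [if_pos hWe]
      have h4 : ∏ i ∈ Fᶜ, e i = 1 := by
        apply prod_eq_one
        intro i hi
        by_contra hne
        have : i ∈ W := by
          rw [← hW]
          exact mem_filter.2 ⟨hi, hne⟩
        rw [hWe] at this
        exact absurd this (notMem_empty i)
      rw [h4]
      simp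
    · rw [if_neg hWe]
      have h4 : Real.log ((∏ i ∈ Fᶜ, e i : ℕ) : ℝ) ≤ m * Real.log V := by
        rw [← Real.log_pow]
        apply Real.log_le_log
        · exact_mod_cast prod_pos fun i _ => dv_pos (hdv i)
        · have h5 : ∏ i ∈ Fᶜ, e i ≤ V ^ m := by
            calc ∏ i ∈ Fᶜ, e i ≤ ∏ i ∈ Fᶜ, V := by
                  apply prod_le_prod'
                  intro i hi
                  rcases hkind i (mem_compl.1 hi) with h5 | h5
                  · omega
                  · exact h5.2.2
              _ = V ^ Fᶜ.card := by rw [prod_const]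
              _ ≤ V ^ m := Nat.pow_le_pow_right (by omega)
                  ((card_le_card (subset_univ _)).trans (le_of_eq card_univ))
          exact_mod_cast h5
      apply pow_le_pow_left₀ (by
        have := Real.log_natCast_nonneg (∏ i ∈ Fᶜ, e i)
        linarith)
      linarith
  refine ⟨C2 + C ^ m * C2 * (m + 1) ^ N * C1 * Real.exp C0, fun y hy => ?_⟩
  have hly := one_le_log hB.z2 hy
  have hly0 : 0 < Real.log y := by linarith
  have hkey := key y hy
  set l := Real.log y with hl
  set V := VV A l with hV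
  set Y := YY A l with hY
  have hV3 : 3 ≤ V := three_le_VV A l
  have hlV : 1 ≤ Real.log V := one_le_log_VV A l
  rw [split_two F]
  refine (abs_sum_le_sum_abs _ _).trans ((sum_le_sum hkey).trans ?_)
  rw [← sum_mul, prod_two F (fun i => oc z y V Y (π i)) (fun i m => gp (b i) c m)]
  have hm0 : (0 : ℝ) ≤ m := Nat.cast_nonneg m
  by_cases hWe : W = ∅
  · -- no small variables
    rw [if_pos hWe]
    have h3 : ∏ i ∈ Fᶜ, ∑ m ∈ oc z y V Y (π i), gp (b i) c m ≤ 1 := by
      apply prod_le_one
      · intro i _
        exact sum_nonneg fun m hm => ATS8.gp_nonneg (hB.w0 i) hcz (oc_sub _ _ _ _ _ hm)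
      · intro i hi
        have h4 : π i = some 0 := by
          rcases hπ i with h4 | h4 | h4
          · exact absurd (mem_filter.2 ⟨mem_univ i, h4⟩) (mem_compl.1 hi)
          · exact h4
          · have : i ∈ W := mem_filter.2 ⟨mem_univ i, h4⟩
            rw [hWe] at this
            exact absurd this (notMem_empty i)
        rw [h4]
        calc ∑ m ∈ cell z y V Y 0, gp (b i) c m ≤ ∑ m ∈ ({1} : Finset ℕ), gp (b i) c m := by
              apply sum_le_sum_of_subset_of_nonneg
              · intro m hm
                rw [mem_singleton]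
                exact cell_zero hm
              · intro m hm _
                rw [mem_singleton] at hm
                rw [hm, gp_one]
                exact zero_le_one
          _ = 1 := by rw [sum_singleton, gp_one]
    have h4 : BB b L Z z F W y ≤ M y := by
      have h5 := h.CA y hy F hFu
      unfold BB
      rw [hWe]
      simpa using h5
    have h5 := Real.exp_le_exp.2 h4
    have h6 : 0 ≤ C2 * 1 * Real.exp (BB b L Z z F W y) := by positivity
    calc _ ≤ 1 * (C2 * 1 * Real.exp (BB b L Z z F W y)) := mul_le_mul_of_nonneg_right h3 h6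
      _ ≤ C2 * Real.exp (M y) := by
          rw [one_mul, mul_one]
          exact mul_le_mul_of_nonneg_left h5 hC2
      _ ≤ _ := by
          apply mul_le_mul_of_nonneg_right _ (Real.exp_pos _).le
          have : 0 ≤ C ^ m * C2 * (m + 1) ^ N * C1 * Real.exp C0 := by positivity
          linarith
  · rw [if_neg hWe]
    have hBB' : BB b L Z z F W y ≤ M y + C0 - δ * Real.log l := by
      rcases hBB with h3 | h3
      · exact h3 y hy
      · exfalso
        apply hWe
        rw [hWd, filter_eq_empty_iff]
        intro i _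
        exact h3 i
    have hCl : 1 ≤ C * Real.log V := by nlinarith [hB.C1]
    have h3 : ∏ i ∈ Fᶜ, ∑ m ∈ oc z y V Y (π i), gp (b i) c m ≤ (C * Real.log V) ^ m := by
      calc ∏ i ∈ Fᶜ, ∑ m ∈ oc z y V Y (π i), gp (b i) c m ≤ ∏ i ∈ Fᶜ, (C * Real.log V) := by
            apply prod_le_prod
            · intro i _
              exact sum_nonneg fun m hm => ATS8.gp_nonneg (hB.w0 i) hcz (oc_sub _ _ _ _ _ hm)
            · intro i hi
              have h5 : ∀ r : Fin 4, r ≠ 3 → r ≠ 2 →
                  ∑ m ∈ oc z y V Y (some r), gp (b i) c m ≤ C * Real.log V := by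
                intro r hr hr2
                calc ∑ m ∈ cell z y V Y r, gp (b i) c m
                    ≤ ∑ m ∈ cell z y V Y r, gp (b i) c m * hh m :=
                      sum_le_sum fun m hm => gp_le_hh hB i (cell_sub _ _ _ _ _ hm)
                  _ ≤ C * (if r = 2 then Real.exp (Sp (b i) z y) else Real.log V) :=
                      cs_low hB hy hV3 i hr
                  _ = C * Real.log V := by rw [if_neg hr2]
              rcases hπ i with h4 | h4 | h4
              · exact absurd (mem_filter.2 ⟨mem_univ i, h4⟩) (mem_compl.1 hi)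
              · rw [h4]
                exact h5 0 (by decide) (by decide)
              · rw [h4]
                exact h5 1 (by decide) (by decide)
        _ = (C * Real.log V) ^ Fᶜ.card := by rw [prod_const]
        _ ≤ _ := pow_le_pow_right₀ hCl ((card_le_card (subset_univ _)).trans (le_of_eq card_univ))
    have h4 : (1 + m * Real.log V) ^ N ≤ ((m : ℝ) + 1) ^ N * (Real.log V) ^ N := by
      rw [← mul_pow]
      apply pow_le_pow_left₀ (by positivity)
      nlinarith
    have h5 : (Real.log V) ^ (m + N) ≤ C1 * l ^ δ := h1 l hly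
    have h6 : Real.exp (BB b L Z z F W y) ≤ Real.exp (M y) * Real.exp C0 * (l ^ δ)⁻¹ := by
      have h7 : (l ^ δ)⁻¹ = Real.exp (-(δ * Real.log l)) := by
        rw [Real.rpow_def_of_pos hly0, ← Real.exp_neg, mul_comm]
      rw [h7, ← Real.exp_add, ← Real.exp_add]
      apply Real.exp_le_exp.2
      linarith
    have hld : 0 < l ^ δ := Real.rpow_pos_of_pos hly0 _
    have hprod0 : 0 ≤ C2 * (1 + m * Real.log V) ^ N * Real.exp (BB b L Z z F W y) := by positivity
    calc _ ≤ (C * Real.log V) ^ m * (C2 * (1 + m * Real.log V) ^ N *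
            Real.exp (BB b L Z z F W y)) := mul_le_mul_of_nonneg_right h3 hprod0
      _ ≤ (C * Real.log V) ^ m * (C2 * (((m : ℝ) + 1) ^ N * (Real.log V) ^ N) *
            (Real.exp (M y) * Real.exp C0 * (l ^ δ)⁻¹)) := by
          apply mul_le_mul_of_nonneg_left _ (by positivity)
          apply mul_le_mul _ h6 (Real.exp_pos _).le (by positivity)
          exact mul_le_mul_of_nonneg_left h4 hC2
      _ = C ^ m * C2 * (m + 1) ^ N * Real.exp C0 * ((Real.log V) ^ (m + N) * (l ^ δ)⁻¹) *
            Real.exp (M y) := by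
          rw [mul_pow, pow_add]
          ring
      _ ≤ C ^ m * C2 * (m + 1) ^ N * Real.exp C0 * C1 * Real.exp (M y) := by
          apply mul_le_mul_of_nonneg_right _ (Real.exp_pos _).le
          apply mul_le_mul_of_nonneg_left _ (by positivity)
          rw [← div_eq_mul_inv, div_le_iff₀ hld]
          exact h5
      _ ≤ _ := by
          have e1 : C ^ m * C2 * ((m : ℝ) + 1) ^ N * Real.exp C0 * C1 * Real.exp (M y) =
              C ^ m * C2 * ((m : ℝ) + 1) ^ N * C1 * Real.exp C0 * Real.exp (M y) := by ring
          rw [e1, add_mul]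
          have : 0 ≤ C2 * Real.exp (M y) := by positivity
          linarith

end

/-- **The refined bound** -/
theorem atx_of (hblw : BLW) (he : EPS) (hf : FULLG) (hml : ML) : ATX := by
  intro ι _ _ a b L Z c z δ C0 E0 M hb h
  classical
  obtain ⟨C2, E2, h2⟩ := hblw
  have h2' : BW |C2| E2 := fun V Y hV hVY a b ha hb ha' hb' =>
    (h2 V Y hV hVY a b ha hb ha' hb').trans (by
      apply mul_le_mul_of_nonneg_right _ (by positivity)
      exact mul_le_mul_of_nonneg_right (le_abs_self C2)
        (pow_nonneg (Real.log_natCast_nonneg Y) _))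
  obtain ⟨C, hB⟩ := bd_of (c := c) (z := z) he hf h.ab hb (by have := h.hz; omega) h.hE h.H2
  set A : ℕ := 6 * (Fintype.card ι + 2 * E2) with hA
  have hM0 : ∀ y, z < y → 0 ≤ M y := fun y hy => by
    simpa using h.CA y hy ∅ (by simp)
  have hmain : Gd a L c z M A (fun _ => none) := by
    have e1 : (fun _ : ι => (none : Option (Fin 4))) =
        (fun i => if i ∈ Zᶜ then none else (fun _ => none) i) := by
      funext i
      simp
    rw [e1]
    apply gd_all_set
    intro ρ
    by_cases ht : ∃ i, i ∈ Zᶜ ∧ ρ i = 3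
    · obtain ⟨i, hi, hi3⟩ := ht
      exact gd_tail hB A hM0 _ (k := i) (by simp only [if_pos hi, hi3])
    push Not at ht
    by_cases hp : ∃ i j, i ∈ Zᶜ ∧ j ∈ Zᶜ ∧ ρ i = 2 ∧ ρ j = 2 ∧ L i j ≠ L j i
    · obtain ⟨i, j, hi, hj, hi2, hj2, hij⟩ := hp
      refine gd_pair hB (abs_nonneg C2) h2' h.LL (A := A) le_rfl hM0 _ (i := i) (j := j) ?_ ?_ hij
      · simp only [if_pos hi, hi2]
      · simp only [if_pos hj, hj2]
    push Not at hp
    set π1 : ι → Option (Fin 4) := fun i => if i ∈ Zᶜ then some (ρ i) else none with hπ1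
    set F0 := Zᶜ.filter (fun i => ρ i = 2) with hF0
    set Zl := Z.filter (fun q => ∃ i ∈ F0, L i q ≠ L q i) with hZl
    have e2 : π1 = (fun i => if i ∈ Zl then none else π1 i) := by
      funext i
      by_cases hi : i ∈ Zl
      · have hiZ : i ∈ Z := (mem_filter.1 hi).1
        simp [hi, hiZ, hπ1]
      · simp [hi]
    rw [e2]
    apply gd_all_set
    intro σ
    have hZlZ : ∀ i ∈ Zl, i ∉ Zᶜ := fun i hi h' => (mem_compl.1 h') (mem_filter.1 hi).1
    have hF0Z : ∀ i ∈ F0, i ∉ Zl := fun i hi h' => hZlZ i h' (mem_filter.1 hi).1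
    by_cases ht' : ∃ q ∈ Zl, σ q = 3
    · obtain ⟨q, hq, hq3⟩ := ht'
      exact gd_tail hB A hM0 _ (k := q) (by simp only [if_pos hq, hq3])
    push Not at ht'
    by_cases hp' : ∃ q ∈ Zl, σ q = 2
    · obtain ⟨q, hq, hq2⟩ := hp'
      obtain ⟨i, hi, hiq⟩ := (mem_filter.1 hq).2
      have hi' := mem_filter.1 hi
      refine gd_pair hB (abs_nonneg C2) h2' h.LL (A := A) le_rfl hM0 _ (i := i) (j := q) ?_ ?_ hiq
      · simp only [if_neg (hF0Z i hi), hπ1, if_pos hi'.1, hi'.2]
      · simp only [if_pos hq, hq2]
    push Not at hp'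
    set π2 : ι → Option (Fin 4) := fun i => if i ∈ Zl then some (σ i) else π1 i with hπ2
    have e3 : π2 = (fun i => if i ∈ F0 then some 2 else π2 i) := by
      funext i
      by_cases hi : i ∈ F0
      · have hi' := mem_filter.1 hi
        simp only [if_pos hi]
        simp only [hπ2, if_neg (hF0Z i hi), hπ1, if_pos hi'.1, hi'.2]
      · simp only [if_neg hi]
    rw [e3]
    apply gd_two_set
    intro τ hτ
    by_cases ht'' : ∃ i ∈ F0, τ i = some 3
    · obtain ⟨i, hi, hi3⟩ := ht''
      exact gd_tail hB A hM0 _ (k := i) (by simp only [if_pos hi, hi3])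
    push Not at ht''
    set π3 : ι → Option (Fin 4) := fun i => if i ∈ F0 then τ i else π2 i with hπ3
    -- the kinds
    have k0 : ∀ i ∈ F0, π3 i = τ i := fun i hi => by simp only [hπ3, if_pos hi]
    have k1 : ∀ i ∈ Zᶜ, i ∉ F0 → π3 i = some (ρ i) := fun i hi hi0 => by
      have : i ∉ Zl := fun h' => hZlZ i h' hi
      simp only [hπ3, if_neg hi0, hπ2, if_neg this, hπ1, if_pos hi]
    have k2 : ∀ i ∈ Zl, π3 i = some (σ i) := fun i hi => by
      have : i ∉ F0 := fun h' => hF0Z i h' hi
      simp only [hπ3, if_neg this, hπ2, if_pos hi]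
    have k3 : ∀ i ∈ Z, i ∉ Zl → π3 i = none := fun i hi hil => by
      have h1 : i ∉ Zᶜ := fun h' => (mem_compl.1 h') hi
      have h3 : i ∉ F0 := fun h' => h1 (mem_filter.1 h').1
      simp only [hπ3, if_neg h3, hπ2, if_neg hil, hπ1, if_neg h1]
    have hkinds : ∀ i, π3 i = none ∨ π3 i = some 0 ∨ π3 i = some 1 := by
      intro i
      by_cases hiZ : i ∈ Z
      · by_cases hil : i ∈ Zl
        · rw [k2 i hil]
          have h1 := ht' i hil
          have h3 := hp' i hil
          revert h1 h3
          generalize σ i = r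
          revert r
          decide
        · exact Or.inl (k3 i hiZ hil)
      · by_cases hi0 : i ∈ F0
        · rw [k0 i hi0]
          have h1 := hτ i hi0
          have h3 := ht'' i hi0
          revert h1 h3
          generalize τ i = r
          revert r
          decide
        · have hiC := mem_compl.2 hiZ
          rw [k1 i hiC hi0]
          have h1 := ht i hiC
          have h3 : ρ i ≠ 2 := fun h' => hi0 (mem_filter.2 ⟨hiC, h'⟩)
          revert h1 h3
          generalize ρ i = r
          revert r
          decide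
    -- the unlinked set
    have hFs : ∀ i, π3 i = none → i ∈ F0 ∨ (i ∈ Z ∧ i ∉ Zl) := by
      intro i hi
      by_cases hi0 : i ∈ F0
      · exact Or.inl hi0
      · right
        by_cases hiZ : i ∈ Z
        · refine ⟨hiZ, fun hil => ?_⟩
          rw [k2 i hil] at hi
          exact absurd hi (by simp)
        · rw [k1 i (mem_compl.2 hiZ) hi0] at hi
          exact absurd hi (by simp)
    have hun : ∀ i j, (i ∈ F0 ∨ (i ∈ Z ∧ i ∉ Zl)) → (j ∈ F0 ∨ (j ∈ Z ∧ j ∉ Zl)) →
        L i j = L j i := by
      have hc : ∀ i q, i ∈ F0 → (q ∈ Z ∧ q ∉ Zl) → L i q = L q i := by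
        intro i q hi hq
        by_contra hne
        exact hq.2 (mem_filter.2 ⟨hq.1, i, hi, hne⟩)
      rintro i j (hi | hi) (hj | hj)
      · have hi' := mem_filter.1 hi
        have hj' := mem_filter.1 hj
        exact hp i j hi'.1 hj'.1 hi'.2 hj'.2
      · exact hc i j hi hj
      · exact (hc j i hj hi).symm
      · exact h.ZZ i hi.1 j hj.1
    apply gd_fin hml hB hb h A π3 hkinds (fun i j hi hj => hun i j (hFs i hi) (hFs j hj))
    by_cases hW : ∀ i, π3 i ≠ some 1
    · exact Or.inr hW
    left
    push Not at hW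
    intro y hy
    set F := univ.filter (fun i => π3 i = none) with hF
    set W := univ.filter (fun i => π3 i = some 1) with hWd
    have hFu : ∀ i ∈ F, ∀ j ∈ F, L i j = L j i := fun i hi j hj =>
      hun i j (hFs i (mem_filter.1 hi).2) (hFs j (mem_filter.1 hj).2)
    have hdis : Disjoint F W := by
      rw [Finset.disjoint_left]
      intro i hi hi'
      have h1 := (mem_filter.1 hi).2
      have h3 := (mem_filter.1 hi').2
      rw [h1] at h3
      exact absurd h3 (by simp)
    by_cases hq : ∃ w ∈ W, ¬ (w ∈ Z ∧ Unc L w (F ∪ W))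
    · have hCB := h.CB y hy F W hdis hFu hq
      unfold BB
      convert hCB using 2
      ext i
      simp only [mem_filter]
    push Not at hq
    obtain ⟨w, hw⟩ := hW
    have hwW : w ∈ W := mem_filter.2 ⟨mem_univ w, hw⟩
    obtain ⟨hwZ, hwU⟩ := hq w hwW
    have hwl : w ∈ Zl := by
      by_contra hwl
      rw [k3 w hwZ hwl] at hw
      exact absurd hw (by simp)
    obtain ⟨i, hi, hiw⟩ := (mem_filter.1 hwl).2
    have hi' := mem_filter.1 hi
    have hiF : i ∉ F := by
      intro h'
      have := hwU i (mem_union_left _ h')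
      rw [this.1, this.2] at hiw
      exact hiw rfl
    have hCA := h.CA y hy (insert i F) (by
      intro j hj k hk
      have hs : ∀ j ∈ insert i F, j ∈ F0 ∨ (j ∈ Z ∧ j ∉ Zl) := by
        intro j hj
        rcases mem_insert.1 hj with h1 | h1
        · exact Or.inl (h1 ▸ hi)
        · exact hFs j (mem_filter.1 h1).2
      exact hun j k (hs j hj) (hs k hk))
    have hlow := h.low i y hy
    have hSi : ∀ j, 0 ≤ Sp (b j) z y := fun j => Sp_nonneg hB j y
    have hsub : insert i (F.filter (fun j => (∀ w ∈ W, L j w = L w j) ∧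
        ¬ (j ∈ Z ∧ Unc L j (F ∪ W)))) ⊆
        (insert i F).filter (fun j => ¬ (j ∈ Z ∧ Unc L j (insert i F))) := by
      intro j hj
      rcases mem_insert.1 hj with h1 | h1
      · subst h1
        refine mem_filter.2 ⟨mem_insert_self _ _, fun h' => ?_⟩
        exact (mem_compl.1 hi'.1) h'.1
      · obtain ⟨h3, h4, h5⟩ := mem_filter.1 h1
        refine mem_filter.2 ⟨mem_insert_of_mem h3, fun h' => h5 ⟨h'.1, ?_⟩⟩
        intro k hk
        rcases mem_union.1 hk with hk | hk
        · exact h'.2 k (mem_insert_of_mem hk)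
        · have h6 := (hq k hk).2 j (mem_union_left _ h3)
          exact ⟨h6.2, h6.1⟩
    have hle := sum_le_sum_of_subset_of_nonneg hsub
      (f := fun j => Sp (b j) z y) (fun j _ _ => hSi j)
    rw [sum_insert (fun h' => hiF (mem_filter.1 h').1)] at hle
    unfold BB
    have hCA' : ∑ j ∈ (insert i F).filter (fun j => ¬ (j ∈ Z ∧ Unc L j (insert i F))),
        Sp (b j) z y ≤ M y := hCA
    linarith
  obtain ⟨C', hC'⟩ := hmain
  refine ⟨C', fun y hy => ?_⟩
  rw [ATS8.total_eq]
  exact hC' y hy

end Pool.Agent.TH841.TR
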