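import Mathlib
import Pool.Agent.TH841.TR.Stm

/-!
# TR-COMBX: the largest unlinked sets
-/

set_option autoImplicit false
open Finset Pool.Agent.W262.RK
namespace Pool.Agent.TH841.TR.COMBf

abbrev T : Type := (Bool × Bool) × (Bool × Bool)

def Lt (t t' : T) : Bool := xor (t'.2.1 && t.1.1) (t'.2.2 && t.1.2)

def sing (t : T) : Bool := !(xor (t.2.1 && t.1.1) (t.2.2 && t.1.2))

lemma Al_sing : ∀ (c : Fin 4) (t : T), Al c t.1 t.2 = true → sing t = true := by
  decide

/-- everything symmetric with a coupled pair lies in the third plane -/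
lemma tl1' : ∀ p r u : T, (sing p && sing r && Lt p r && Lt r p && (Lt u p == Lt p u) &&
    (Lt u r == Lt r u) && !decide (u.2 = u.1.swap)) = false := by
  decide

lemma tl1 (p r u : T) (h1 : sing p = true) (h2 : sing r = true) (h3 : Lt p r = true)
    (h4 : Lt r p = true) (h5 : Lt u p = Lt p u) (h6 : Lt u r = Lt r u) : u.2 = u.1.swap := by
  have h := tl1' p r u
  rw [h1, h2, h3, h4, h5, h6] at h
  simpa using h

lemma tl2 : ∀ p r : T, p.2 = p.1.swap → r.2 = r.1.swap → Lt p r = Lt r p := by
  decide

def g3 (t : T) (k : Fin 4) : Bool := decide (∀ u : T, (!(decide (u.2 = u.1.swap) &&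
  (Lt u t == Lt t u)) || decide (u = ((false, false), (false, false))) ||
    decide (u = (ec k, (ec k).swap))) = true)

lemma tl3' : ∀ t : T, (!(sing t && !decide (t.2 = t.1.swap)) || g3 t 0 || g3 t 1 || g3 t 2) = true := by
  decide

lemma g3_spec (t : T) (k : Fin 4) (h : g3 t k = true) (u : T) (h1 : u.2 = u.1.swap)
    (h2 : Lt u t = Lt t u) : u = ((false, false), (false, false)) ∨ u = (ec k, (ec k).swap) := by
  have h3 := of_decide_eq_true h u
  simp only [h2, beq_self_eq_true, Bool.and_true, h1, decide_true, Bool.not_true, Bool.false_or,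
    Bool.or_eq_true, decide_eq_true_eq] at h3
  exact h3

lemma tl3 (t : T) (h1 : sing t = true) (h2 : t.2 ≠ t.1.swap) : ∃ k : Fin 4, k ≠ 3 ∧ ∀ u : T,
    u.2 = u.1.swap → Lt u t = Lt t u → u = ((false, false), (false, false)) ∨
      u = (ec k, (ec k).swap) := by
  have h := tl3' t
  rw [h1, decide_eq_false h2] at h
  simp only [Bool.not_false, Bool.and_self, Bool.not_true, Bool.false_or, Bool.or_eq_true] at h
  rcases h with (h | h) | h
  · exact ⟨0, by decide, g3_spec t 0 h⟩
  · exact ⟨1, by decide, g3_spec t 1 h⟩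
  · exact ⟨2, by decide, g3_spec t 2 h⟩

def kk (v : Bool × Bool) : Fin 4 := if v = (true, true) then 0 else if v = (true, false) then 1 else 2

lemma tl4a : ∀ v x s : Bool × Bool, (!(!decide (v = (false, false)) && !decide (x = (false, false)) &&
    !(xor (x.1 && v.1) (x.2 && v.2)) && !(xor (x.1 && s.1) (x.2 && s.2))) ||
    (decide (s = (false, false)) || decide (s = ec (kk v)))) = true := by
  decide

lemma tl4b : ∀ v x s : Bool × Bool, (!(!decide (v = (false, false)) && !decide (x = (false, false)) &&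
    !(xor (x.1 && v.1) (x.2 && v.2)) && !(xor (s.1 && v.1) (s.2 && v.2))) ||
    (decide (s = (false, false)) || decide (s = (ec (kk v)).swap))) = true := by
  decide

lemma tl4 (t u : T) (h1 : t.1 ≠ (false, false)) (h2 : u.2 ≠ (false, false)) (h3 : Lt t u = false) :
    ∃ k : Fin 4, k ≠ 3 ∧ ∀ s : T, Lt t s = false → Lt s u = false →
      (s.1 = (false, false) ∨ s.1 = ec k) ∧ (s.2 = (false, false) ∨ s.2 = (ec k).swap) := by
  refine ⟨kk t.1, by unfold kk; split_ifs <;> decide, fun s hs1 hs2 => ⟨?_, ?_⟩⟩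
  · have h := tl4a t.1 u.2 s.1
    unfold Lt at h3 hs2
    rw [decide_eq_false h1, decide_eq_false h2, h3, hs2] at h
    simpa using h
  · have h := tl4b t.1 u.2 s.2
    unfold Lt at h3 hs1
    rw [decide_eq_false h1, decide_eq_false h2, h3, hs1] at h
    simpa using h


section idx

variable {J : Type} [Fintype J] [DecidableEq J] {cls : J → Fin 4}

lemma L4_eq (i i' : I4 cls) : L4 cls i i' = Lt i.1.2 i'.1.2 := rfl

lemma sing_i (i : I4 cls) : sing i.1.2 = true := Al_sing _ _ i.2

/-- number of allowed types with `P`, weighted -/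
noncomputable def cap (c : Fin 4) (P : T → Bool) : ℝ :=
  (if c = 3 then 1 / 4 else 1 / 2) *
    ((univ.filter (fun t : T => Al c t.1 t.2 = true ∧ P t = true)).card : ℝ)

lemma sum_le_cap (C : Finset (I4 cls)) (P : J → T → Bool) (h : ∀ i ∈ C, P i.1.1 i.1.2 = true) :
    ∑ i ∈ C, w4 cls i ≤ ∑ j, cap (cls j) (P j) := by
  have h1 : ∑ i ∈ C, w4 cls i = ∑ j, ∑ i ∈ C.filter (fun i => i.1.1 = j), w4 cls i := by
    rw [Finset.sum_fiberwise]
  rw [h1]
  refine Finset.sum_le_sum fun j _ => ?_
  have h2 : ∑ i ∈ C.filter (fun i => i.1.1 = j), w4 cls i =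
      (if cls j = 3 then 1 / 4 else 1 / 2) * ((C.filter (fun i => i.1.1 = j)).card : ℝ) := by
    rw [Finset.sum_congr rfl (g := fun _ => (if cls j = 3 then (1 / 4 : ℝ) else 1 / 2)),
      Finset.sum_const, nsmul_eq_mul, mul_comm]
    intro i hi
    rw [mem_filter] at hi
    unfold w4
    rw [hi.2]
  rw [h2]
  unfold cap
  apply mul_le_mul_of_nonneg_left _ (by split_ifs <;> norm_num)
  rw [Nat.cast_le]
  apply Finset.card_le_card_of_injOn (fun i : I4 cls => i.1.2)
  · intro i hi
    rw [mem_coe, mem_filter] at hi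
    rw [mem_coe, mem_filter]
    refine ⟨mem_univ _, ?_, ?_⟩
    · have := i.2
      rw [hi.2] at this
      exact this
    · have := h i hi.1
      rw [hi.2] at this
      exact this
  · intro i hi i' hi' he
    rw [mem_coe, mem_filter] at hi hi'
    apply Subtype.ext
    exact Prod.ext (hi.2.trans hi'.2.symm) he

lemma w4_nonneg (i : I4 cls) : 0 ≤ w4 cls i := by unfold w4; split_ifs <;> norm_num

lemma w4_ge (i : I4 cls) : 1 / 4 ≤ w4 cls i := by unfold w4; split_ifs <;> norm_num

def PD1 (t : T) : Bool := decide (t.2 = (false, false))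
def PD2 (t : T) : Bool := decide (t.1 = (false, false))
def PD3 (t : T) : Bool := decide (t.2 = t.1.swap)
def PS (k : Fin 4) (t : T) : Bool := (decide (t.1 = (false, false)) || decide (t.1 = ec k)) &&
  (decide (t.2 = (false, false)) || decide (t.2 = (ec k).swap))
def PZ (c : Fin 4) (s : Bool) (t : T) : Bool := !decide (c = 3) && !s &&
  decide (t = (ec c, (ec c).swap))
def PU (k : Fin 4) (t : T) : Bool := decide (t = ((false, false), (false, false))) ||
  decide (t = (ec k, (ec k).swap))

lemma capD1 (c : Fin 4) : cap c PD1 = 1 := by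
  have h : ∀ c : Fin 4, (univ.filter (fun t : T => Al c t.1 t.2 = true ∧ PD1 t = true)).card =
      if c = 3 then 4 else 2 := by decide
  unfold cap
  rw [h c]
  split_ifs <;> norm_num

lemma capD2 (c : Fin 4) : cap c PD2 = 1 := by
  have h : ∀ c : Fin 4, (univ.filter (fun t : T => Al c t.1 t.2 = true ∧ PD2 t = true)).card =
      if c = 3 then 4 else 2 := by decide
  unfold cap
  rw [h c]
  split_ifs <;> norm_num

lemma capD3 (c : Fin 4) : cap c PD3 = 1 := by
  have h : ∀ c : Fin 4, (univ.filter (fun t : T => Al c t.1 t.2 = true ∧ PD3 t = true)).card =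
      if c = 3 then 4 else 2 := by decide
  unfold cap
  rw [h c]
  split_ifs <;> norm_num

lemma capU (c k : Fin 4) (hk : k ≠ 3) : cap c (PU k) = 1 - if c = k then 0 else 1 / 2 := by
  have h : ∀ c k : Fin 4, k ≠ 3 →
      (univ.filter (fun t : T => Al c t.1 t.2 = true ∧ PU k t = true)).card =
      if c = 3 then 2 else if c = k then 2 else 1 := by decide
  unfold cap
  rw [h c k hk]
  by_cases h3 : c = 3
  · subst h3
    have h5 : (3 : Fin 4) ≠ k := Ne.symm hk
    norm_num [h5]
  · by_cases h4 : c = k
    · subst h4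
      norm_num [h3]
    · norm_num [h3, h4]

lemma capS (c k : Fin 4) (s : Bool) (hk : k ≠ 3) :
    cap c (fun t => PS k t && !PZ c s t) =
      1 + (if c = k then 1 else 0) + (if c = k ∧ s = true then 1 / 2 else 0) -
        (if c ≠ 3 then 1 / 2 else 0) := by
  have h : ∀ (c k : Fin 4) (s : Bool), k ≠ 3 →
      (univ.filter (fun t : T => Al c t.1 t.2 = true ∧ (PS k t && !PZ c s t) = true)).card =
      if c = 3 then 4 else if c = k then (if s = true then 4 else 3) else 1 := by decide
  unfold cap
  rw [h c k s hk]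
  by_cases h3 : c = 3
  · subst h3
    have : (3 : Fin 4) ≠ k := Ne.symm hk
    norm_num [this]
  · by_cases h4 : c = k
    · subst h4
      cases s <;> norm_num [h3]
    · norm_num [h3, h4]

lemma card_ite (p : J → Prop) [DecidablePred p] (r : ℝ) :
    ∑ j : J, (if p j then r else 0) = r * ((univ.filter p).card : ℝ) := by
  rw [← Finset.sum_filter, Finset.sum_const, nsmul_eq_mul, mul_comm]

variable {sp : J → Bool}

lemma mem_ZI (i : I4 cls) : i ∈ ZI cls sp ↔ PZ (cls i.1.1) (sp i.1.1) i.1.2 = true := by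
  unfold ZI PZ
  rw [mem_filter]
  simp [and_assoc]

theorem ca (hT : Tri cls sp) : CA (L4 cls) (ZI cls sp) (w4 cls) (Fintype.card J) := by
  intro F hF
  have hcard : (Fintype.card J : ℝ) = ∑ j : J, (1 : ℝ) := by simp
  by_cases hc : ∃ p ∈ F, ∃ r ∈ F, L4 cls p r = true
  · obtain ⟨p, hp, r, hr, hpr⟩ := hc
    have hrp : L4 cls r p = true := by rw [← hF p hp r hr]; exact hpr
    refine (sum_le_cap _ (fun _ => PD3) ?_).trans ?_
    · intro i hi
      rw [mem_filter] at hi
      exact decide_eq_true (tl1 p.1.2 r.1.2 i.1.2 (sing_i p) (sing_i r) hpr hrp (hF i hi.1 p hp)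
        (hF i hi.1 r hr))
    · rw [hcard]
      exact Finset.sum_le_sum fun j _ => (capD3 _).le
  · push Not at hc
    have hc' : ∀ p ∈ F, ∀ r ∈ F, Lt p.1.2 r.1.2 = false := by
      intro p hp r hr
      have := hc p hp r hr
      rw [L4_eq] at this
      simpa using this
    by_cases h1 : ∀ t ∈ F, t.1.2.2 = (false, false)
    · refine (sum_le_cap _ (fun _ => PD1) ?_).trans ?_
      · intro i hi
        exact decide_eq_true (h1 i (mem_filter.1 hi).1)
      · rw [hcard]
        exact Finset.sum_le_sum fun j _ => (capD1 _).le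
    by_cases h2 : ∀ t ∈ F, t.1.2.1 = (false, false)
    · refine (sum_le_cap _ (fun _ => PD2) ?_).trans ?_
      · intro i hi
        exact decide_eq_true (h2 i (mem_filter.1 hi).1)
      · rw [hcard]
        exact Finset.sum_le_sum fun j _ => (capD2 _).le
    push Not at h1 h2
    obtain ⟨u, hu, hu2⟩ := h1
    obtain ⟨t, ht, ht1⟩ := h2
    obtain ⟨k, hk3, hk⟩ := tl4 t.1.2 u.1.2 ht1 hu2 (hc' t ht u hu)
    refine (sum_le_cap _ (fun j => fun s => PS k s && !PZ (cls j) (sp j) s) ?_).trans ?_
    · intro i hi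
      rw [mem_filter] at hi
      obtain ⟨hi1, hi2⟩ := hi
      have h3 := hk i.1.2 (hc' t ht i hi1) (hc' i hi1 u hu)
      have h4 : PZ (cls i.1.1) (sp i.1.1) i.1.2 = false := by
        by_contra h5
        rw [Bool.not_eq_false] at h5
        apply hi2
        refine ⟨(mem_ZI i).2 h5, fun j hj => ?_⟩
        rw [L4_eq, L4_eq]
        exact ⟨hc' i hi1 j hj, hc' j hj i hi1⟩
      have h5 : PS k i.1.2 = true := by
        unfold PS
        simp only [Bool.and_eq_true, Bool.or_eq_true, decide_eq_true_eq]
        exact h3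
      simp only [h4, h5, Bool.not_false, Bool.and_self]
    · have h3 : ∀ j : J, cap (cls j) (fun s => PS k s && !PZ (cls j) (sp j) s) =
          1 + (if cls j = k then 1 else 0) + (if cls j = k ∧ sp j = true then 1 / 2 else 0) -
            (if cls j ≠ 3 then 1 / 2 else 0) := fun j => capS _ _ _ hk3
      rw [Finset.sum_congr rfl fun j _ => h3 j, Finset.sum_sub_distrib, Finset.sum_add_distrib,
        Finset.sum_add_distrib, card_ite, card_ite, card_ite, ← hcard]
      have h4 := hT k hk3
      have h5 : (2 : ℝ) * ((univ.filter (fun j => cls j = k)).card : ℝ) +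
          ((univ.filter (fun j => cls j = k ∧ sp j = true)).card : ℝ) ≤
          ((univ.filter (fun j => cls j ≠ 3)).card : ℝ) := by exact_mod_cast h4
      linarith

/-- the slack when all types lie in the third plane -/
lemma dslack (hT : Tri cls sp) (C : Finset (I4 cls)) (hC : ∀ i ∈ C, i.1.2.2 = i.1.2.1.swap)
    (w : I4 cls) (hw : w ∉ C) (hs : ∀ i ∈ C, L4 cls i w = L4 cls w i) :
    ∑ i ∈ C, w4 cls i ≤ Fintype.card J - 1 / 4 := by
  have hcard : (Fintype.card J : ℝ) = ∑ j : J, (1 : ℝ) := by simp
  by_cases hw3 : w.1.2.2 = w.1.2.1.swap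
  · have h1 := sum_le_cap (cls := cls) (insert w C) (fun _ => PD3) (by
      intro i hi
      rcases mem_insert.1 hi with rfl | hi
      · exact decide_eq_true hw3
      · exact decide_eq_true (hC i hi))
    rw [Finset.sum_insert hw] at h1
    have h2 : ∑ j : J, cap (cls j) PD3 = Fintype.card J := by
      rw [hcard]
      exact Finset.sum_congr rfl fun j _ => capD3 _
    have h3 := w4_ge w
    linarith
  · obtain ⟨k, hk3, hk⟩ := tl3 w.1.2 (sing_i w) hw3
    have h1 := sum_le_cap (cls := cls) C (fun _ => PU k) (by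
      intro i hi
      have := hk i.1.2 (hC i hi) (hs i hi)
      unfold PU
      simp only [Bool.or_eq_true, decide_eq_true_eq]
      exact this)
    refine h1.trans ?_
    have h3 : ∀ j : J, cap (cls j) (PU k) = 1 - if cls j ≠ k then 1 / 2 else 0 := by
      intro j
      rw [capU _ _ hk3]
      by_cases h : cls j = k <;> simp [h]
    rw [Finset.sum_congr rfl fun j _ => h3 j, Finset.sum_sub_distrib, card_ite, ← hcard]
    have h4 : 1 ≤ (univ.filter (fun j => cls j ≠ k)).card := by
      by_contra h5
      have h6 : (univ.filter (fun j => cls j ≠ k)) = ∅ := by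
        rw [← Finset.card_eq_zero]; omega
      have h7 : ∀ j, cls j = k := by
        intro j
        by_contra h8
        have : j ∈ univ.filter (fun j => cls j ≠ k) := mem_filter.2 ⟨mem_univ _, h8⟩
        rw [h6] at this
        exact absurd this (Finset.notMem_empty _)
      have h9 := hT k hk3
      have h10 : univ.filter (fun j => cls j = k) = univ := by
        rw [Finset.filter_true_of_mem]; intro j _; exact h7 j
      have h11 : univ.filter (fun j => cls j ≠ 3) = univ := by
        rw [Finset.filter_true_of_mem]; intro j _; rw [h7 j]; exact hk3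
      rw [h10, h11] at h9
      have h12 : 0 < (univ : Finset J).card := Finset.card_pos.2 ⟨w.1.1, mem_univ _⟩
      omega
    have h5 : (1 : ℝ) ≤ ((univ.filter (fun j => cls j ≠ k)).card : ℝ) := by exact_mod_cast h4
    linarith

/-- the set of the second condition -/
def GF {ι : Type} [DecidableEq ι] (L : ι → ι → Bool) (Z F W : Finset ι) : Finset ι :=
  F.filter (fun i => (∀ w ∈ W, L i w = L w i) ∧ ¬ (i ∈ Z ∧ Unc L i (F ∪ W)))

lemma mem_GF {ι : Type} [DecidableEq ι] (L : ι → ι → Bool) (Z F W : Finset ι) (i : ι) :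
    i ∈ GF L Z F W ↔ i ∈ F ∧ (∀ w ∈ W, L i w = L w i) ∧ ¬ (i ∈ Z ∧ Unc L i (F ∪ W)) := by
  unfold GF
  rw [mem_filter]

theorem cb (hT : Tri cls sp) : CB (L4 cls) (ZI cls sp) (w4 cls) (Fintype.card J - 1 / 4) := by
  intro F W hdis hF hex
  obtain ⟨w, hwW, hwq⟩ := hex
  set F' : Finset (I4 cls) := F.filter (fun i => ∀ w ∈ W, L4 cls i w = L4 cls w i) with hF'
  have hwF' : w ∉ F' := fun h => Finset.disjoint_left.1 hdis (mem_filter.1 h).1 hwW
  have hF's : ∀ i ∈ F', ∀ x ∈ F ∪ W, L4 cls i x = L4 cls x i := by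
    intro i hi x hx
    rw [hF', mem_filter] at hi
    rcases mem_union.1 hx with hx | hx
    · exact hF i hi.1 x hx
    · exact hi.2 x hx
  have hsub : GF (L4 cls) (ZI cls sp) F W ⊆ F' := by
    intro i hi
    rw [mem_GF] at hi
    exact mem_filter.2 ⟨hi.1, hi.2.1⟩
  -- a coupled pair forces the third plane
  have key : ∀ p x : I4 cls, p ∈ F ∪ W → x ∈ F ∪ W → L4 cls p x = true → L4 cls x p = true →
      ∑ i ∈ GF (L4 cls) (ZI cls sp) F W, w4 cls i ≤ Fintype.card J - 1 / 4 := by
    intro p x hp hx h1 h2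
    refine (Finset.sum_le_sum_of_subset_of_nonneg hsub fun i _ _ => w4_nonneg i).trans ?_
    refine dslack hT F' (fun i hi => ?_) w hwF' (fun i hi => hF's i hi w (mem_union_right _ hwW))
    exact tl1 p.1.2 x.1.2 i.1.2 (sing_i p) (sing_i x) h1 h2 (hF's i hi p hp) (hF's i hi x hx)
  by_cases hA : ∃ q ∈ F', q ∈ ZI cls sp ∧ ¬ Unc (L4 cls) q (F ∪ W)
  · obtain ⟨q, hq, _, hqu⟩ := hA
    unfold Unc at hqu
    push Not at hqu
    obtain ⟨x, hx, hqx⟩ := hqu
    have hs := hF's q hq x hx
    have hq' : q ∈ F ∪ W := mem_union_left _ (mem_filter.1 hq).1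
    by_cases h1 : L4 cls q x = true
    · exact key q x hq' hx h1 (hs ▸ h1)
    · have h2 := hqx (by simpa using h1)
      have h3 : L4 cls x q = true := by simpa using h2
      exact absurd (hs.trans h3) h1
  · push Not at hA
    -- an unsigned index outside of `F'`
    have key2 : ∀ x ∈ F ∪ W, x ∉ F' → x ∉ ZI cls sp →
        ∑ i ∈ GF (L4 cls) (ZI cls sp) F W, w4 cls i ≤ Fintype.card J - 1 / 4 := by
      intro x hx hxF hxZ
      have h1 := ca (sp := sp) hT (insert x F') (by
        intro i hi j hj
        rw [mem_insert] at hi hj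
        rcases hi with rfl | hi
        · rcases hj with rfl | hj
          · rfl
          · exact (hF's j hj i hx).symm
        · rcases hj with rfl | hj
          · exact hF's i hi j hx
          · exact hF i (mem_filter.1 hi).1 j (mem_filter.1 hj).1)
      have h2 : insert x (GF (L4 cls) (ZI cls sp) F W) ⊆
          (insert x F').filter (fun i => ¬ (i ∈ ZI cls sp ∧ Unc (L4 cls) i (insert x F'))) := by
        intro i hi
        rcases mem_insert.1 hi with rfl | hi
        · exact mem_filter.2 ⟨mem_insert_self _ _, fun h => hxZ h.1⟩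
        · have hi2 := hsub hi
          rw [mem_GF] at hi
          refine mem_filter.2 ⟨mem_insert_of_mem hi2, fun h => hi.2.2 ⟨h.1, ?_⟩⟩
          exact hA i hi2 h.1
      have hxn : x ∉ GF (L4 cls) (ZI cls sp) F W := fun h => hxF (hsub h)
      have h3 := (Finset.sum_le_sum_of_subset_of_nonneg h2 fun i _ _ => w4_nonneg i).trans h1
      rw [Finset.sum_insert hxn] at h3
      have h4 := w4_ge x
      linarith
    by_cases hwZ : w ∈ ZI cls sp
    · have hwu : ¬ Unc (L4 cls) w (F ∪ W) := fun h => hwq ⟨hwZ, h⟩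
      unfold Unc at hwu
      push Not at hwu
      obtain ⟨x, hx, hwx⟩ := hwu
      have hor : L4 cls w x = true ∨ L4 cls x w = true := by
        by_cases h1 : L4 cls w x = true
        · exact Or.inl h1
        · right
          have h2 := hwx (by simpa using h1)
          simpa using h2
      by_cases hx2 : x ∈ F' ∨ x ∈ ZI cls sp
      · have hs : L4 cls w x = L4 cls x w := by
          rcases hx2 with hx2 | hx2
          · exact (hF's x hx2 w (mem_union_right _ hwW)).symm
          · have e : ∀ i : I4 cls, i ∈ ZI cls sp → i.1.2.2 = i.1.2.1.swap := by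
              intro i hi
              have := (mem_ZI i).1 hi
              unfold PZ at this
              simp only [Bool.and_eq_true, decide_eq_true_eq] at this
              rw [this.2]
            exact tl2 w.1.2 x.1.2 (e w hwZ) (e x hx2)
        have h1 : L4 cls w x = true := by
          rcases hor with h | h
          · exact h
          · rw [hs]; exact h
        exact key w x (mem_union_right _ hwW) hx h1 (hs ▸ h1)
      · push Not at hx2
        exact key2 x hx hx2.1 hx2.2
    · exact key2 w (mem_union_right _ hwW) hwF' hwZ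

end idx

theorem combx : Pool.Agent.TH841.TR.COMBX := by
  intro J _ _ cls sp hT
  exact ⟨ca hT, cb hT⟩

end Pool.Agent.TH841.TR.COMBf
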