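import Mathlib
import Pool.Agent.TH841.TR.Stm

/-!
# Project TR: the Euler product for tuples of pairwise coprime divisors (EUL)
-/

set_option autoImplicit false

namespace Pool.Agent.TH841.TR.EULf

open Finset Pool.Agent.W262.RK

/-- one variable -/
lemma one_var (h g : ℕ → ℝ) (z y R : ℕ) :
    ∑ m ∈ (PP z y).divisors.filter (fun m => m.Coprime R),
      (∏ p ∈ m.primeFactors, h p) * ∏ p ∈ (PS z y).filter (fun p => ¬ p ∣ R * m), g p =
      ∏ p ∈ (PS z y).filter (fun p => ¬ p ∣ R), (h p + g p) := by
  classical
  rw [Finset.prod_add]
  have hpr : ∀ p ∈ (PS z y).filter (fun p => ¬ p ∣ R), p.Prime := by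
    intro p hp
    exact (mem_PS.1 (mem_filter.1 hp).1).2
  refine Finset.sum_nbij' (fun m => m.primeFactors) (fun t => ∏ p ∈ t, p) ?_ ?_ ?_ ?_ ?_
  · intro m hm
    rw [mem_filter] at hm
    rw [mem_powerset]
    intro p hp
    have hp1 := Nat.prime_of_mem_primeFactors hp
    have hp2 := Nat.dvd_of_mem_primeFactors hp
    rw [mem_filter]
    refine ⟨mem_PS.2 ⟨dv_prime hm.1 hp1 hp2, hp1⟩, ?_⟩
    intro hR
    have := Nat.dvd_gcd hp2 hR
    rw [hm.2] at this
    exact hp1.one_lt.ne' (Nat.dvd_one.1 this)
  · intro t ht
    rw [mem_powerset] at ht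
    rw [mem_filter, Nat.mem_divisors]
    refine ⟨⟨?_, PP_ne_zero z y⟩, ?_⟩
    · exact Finset.prod_dvd_prod_of_subset _ _ _ (ht.trans (filter_subset _ _))
    · refine Nat.Coprime.prod_left ?_
      intro p hp
      exact ((hpr p (ht hp)).coprime_iff_not_dvd).2 (mem_filter.1 (ht hp)).2
  · intro m hm
    rw [mem_filter] at hm
    exact Nat.prod_primeFactors_of_squarefree (dv_squarefree hm.1)
  · intro t ht
    rw [mem_powerset] at ht
    exact Nat.primeFactors_prod (fun p hp => hpr p (ht hp))
  · intro m hm
    rw [mem_filter] at hm
    congr 1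
    apply Finset.prod_congr _ (fun _ _ => rfl)
    ext p
    simp only [mem_filter, mem_sdiff]
    constructor
    · rintro ⟨hp, hn⟩
      refine ⟨⟨hp, fun hR => hn (hR.mul_right m)⟩, fun hpm => ?_⟩
      exact hn ((Nat.dvd_of_mem_primeFactors hpm).mul_left R)
    · rintro ⟨⟨hp, hR⟩, hm2⟩
      refine ⟨hp, fun hd => ?_⟩
      have hp1 := (mem_PS.1 hp).2
      rcases hp1.dvd_mul.1 hd with h1 | h1
      · exact hR h1
      · exact hm2 (Nat.mem_primeFactors.2 ⟨hp1, h1, dv_ne_zero hm.1⟩)

theorem eul : Pool.Agent.TH841.TR.EUL := by
  intro ι _ _ F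
  induction F using Finset.induction_on with
  | empty =>
    intro h z y R hR
    simp
  | insert j F hj ih =>
    intro h z y R hR
    have key := fun m (hm : m ∈ (PP z y).divisors.filter (fun m => m.Coprime R)) =>
      ih h z y (R * m) (mul_ne_zero hR (dv_ne_zero (mem_filter.1 hm).1))
    have h1 : ∏ p ∈ (PS z y).filter (fun p => ¬ p ∣ R), (1 + ∑ i ∈ insert j F, h i p) =
        ∏ p ∈ (PS z y).filter (fun p => ¬ p ∣ R), (h j p + (1 + ∑ i ∈ F, h i p)) := by
      apply Finset.prod_congr rfl
      intro p _
      rw [Finset.sum_insert hj]
      ring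
    rw [h1, ← one_var]
    symm
    refine (Finset.sum_congr rfl (fun m hm => by rw [← key m hm, Finset.mul_sum])).trans ?_
    rw [Finset.sum_sigma']
    refine Finset.sum_nbij' (fun x => Function.update x.2 j x.1)
      (fun d => ⟨d j, Function.update d j 1⟩) ?_ ?_ ?_ ?_ ?_
    · rintro ⟨m, d⟩ hx
      simp only [mem_sigma, mem_filter, Fintype.mem_piFinset] at hx ⊢
      obtain ⟨hm, hd, hc⟩ := hx
      refine ⟨?_, ?_⟩
      · intro i
        by_cases hi : i = j
        · subst hi
          rw [Function.update_self, if_pos (mem_insert_self i F), mem_filter]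
          exact hm
        · rw [Function.update_of_ne hi]
          have := hd i
          by_cases hiF : i ∈ F
          · rw [if_pos hiF, mem_filter] at this
            rw [if_pos (mem_insert_of_mem hiF), mem_filter]
            exact ⟨this.1, (Nat.coprime_mul_iff_right.1 this.2).1⟩
          · rw [if_neg hiF] at this
            rw [if_neg (by simp [hi, hiF])]
            exact this
      · intro i hi k hk hik
        have hFc : ∀ l ∈ F, (d l).Coprime m := by
          intro l hl
          have := hd l
          rw [if_pos hl, mem_filter] at this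
          exact (Nat.coprime_mul_iff_right.1 this.2).2
        rcases mem_insert.1 hi with rfl | hi
        · rcases mem_insert.1 hk with rfl | hk
          · exact absurd rfl hik
          · rw [Function.update_self, Function.update_of_ne (Ne.symm hik)]
            exact (hFc k hk).symm
        · rcases mem_insert.1 hk with rfl | hk
          · rw [Function.update_self, Function.update_of_ne hik]
            refine hFc i ?_
            rcases mem_insert.1 hi with h3 | h3
            · exact absurd h3 hik
            · exact h3
          · have h1 : i ≠ j := fun h => hj (h ▸ hi)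
            have h2 : k ≠ j := fun h => hj (h ▸ hk)
            rw [Function.update_of_ne h1, Function.update_of_ne h2]
            exact hc i hi k hk hik
    · intro d hd
      simp only [mem_sigma, mem_filter, Fintype.mem_piFinset] at hd ⊢
      obtain ⟨hd, hc⟩ := hd
      have hdj := hd j
      rw [if_pos (mem_insert_self j F), mem_filter] at hdj
      refine ⟨hdj, ?_, ?_⟩
      · intro i
        by_cases hi : i = j
        · subst hi
          rw [Function.update_self, if_neg hj]
          simp
        · rw [Function.update_of_ne hi]
          have := hd i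
          by_cases hiF : i ∈ F
          · rw [if_pos (mem_insert_of_mem hiF), mem_filter] at this
            rw [if_pos hiF, mem_filter]
            refine ⟨this.1, Nat.coprime_mul_iff_right.2 ⟨this.2, ?_⟩⟩
            exact hc i (mem_insert_of_mem hiF) j (mem_insert_self j F) hi
          · rw [if_neg (by simp [hi, hiF])] at this
            rw [if_neg hiF]
            exact this
      · intro i hi k hk hik
        have h1 : i ≠ j := fun h => hj (h ▸ hi)
        have h2 : k ≠ j := fun h => hj (h ▸ hk)
        rw [Function.update_of_ne h1, Function.update_of_ne h2]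
        exact hc i (mem_insert_of_mem hi) k (mem_insert_of_mem hk) hik
    · rintro ⟨m, d⟩ hx
      simp only [mem_sigma, mem_filter, Fintype.mem_piFinset] at hx
      obtain ⟨hm, hd, hc⟩ := hx
      have hdj := hd j
      rw [if_neg hj, mem_singleton] at hdj
      simp only [Function.update_self, Function.update_idem, Sigma.mk.injEq, heq_eq_eq, true_and]
      rw [← hdj, Function.update_eq_self]
    · intro d hd
      simp
    · rintro ⟨m, d⟩ hx
      simp only
      rw [Finset.prod_insert hj, Function.update_self]
      congr 1
      apply Finset.prod_congr rfl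
      intro i hi
      have h1 : i ≠ j := fun h => hj (h ▸ hi)
      rw [Function.update_of_ne h1]

end Pool.Agent.TH841.TR.EULf
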