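import Mathlib
import Pool.Agent.TH841.TR.Stm
import Pool.Agent.TH841.PT.SymM

/-!
# Project TR: the refined bound for larger weights (written by helper359)

Each variable is split into `R` variables with the weights divided by `R`.
-/

set_option autoImplicit false
set_option linter.unusedSectionVars false

namespace Pool.Agent.TH841.TR.ATXRf

open Finset Polynomial Pool.Agent.W262.RK Pool.Agent.TH841.PT Pool.Agent.TH841.TR

section core

variable {ι : Type} [DecidableEq ι] {R : ℕ}

theorem unc_lift (L : ι → ι → Bool) (x : ι × Fin R) (F : Finset (ι × Fin R)) :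
    Unc (fun x y : ι × Fin R => L x.1 y.1) x F ↔ Unc L x.1 (F.image Prod.fst) := by
  unfold Unc
  constructor
  · intro h j hj
    obtain ⟨y, hy, rfl⟩ := mem_image.1 hj
    exact h y hy
  · intro h y hy
    exact h y.1 (mem_image_of_mem _ hy)

theorem mem_lift (Z : Finset ι) (x : ι × Fin R) :
    x ∈ Z ×ˢ (univ : Finset (Fin R)) ↔ x.1 ∈ Z := by
  rw [mem_product]
  exact and_iff_left (mem_univ _)

theorem sum_lift (S : ι → ℝ) (hR : 1 ≤ R) (C : Finset ι) :
    ∑ x ∈ C ×ˢ (univ : Finset (Fin R)), S x.1 / R = ∑ i ∈ C, S i := by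
  have hR0 : (R : ℝ) ≠ 0 := by
    have : (1 : ℝ) ≤ R := by exact_mod_cast hR
    linarith
  rw [sum_product]
  refine sum_congr rfl fun i _ => ?_
  simp only [sum_const, card_univ, Fintype.card_fin, nsmul_eq_mul]
  field_simp

theorem CA_lift (L : ι → ι → Bool) (Z : Finset ι) (S : ι → ℝ) (hS : ∀ i, 0 ≤ S i) (M : ℝ)
    (hR : 1 ≤ R) (h : CA L Z S M) :
    CA (fun x y : ι × Fin R => L x.1 y.1) (Z ×ˢ univ) (fun x => S x.1 / R) M := by
  intro F hF
  have hF2 : ∀ i ∈ F.image Prod.fst, ∀ j ∈ F.image Prod.fst, L i j = L j i := by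
    intro i hi j hj
    obtain ⟨x, hx, rfl⟩ := mem_image.1 hi
    obtain ⟨y, hy, rfl⟩ := mem_image.1 hj
    exact hF x hx y hy
  refine le_trans ?_ (h _ hF2)
  rw [← sum_lift S hR]
  refine sum_le_sum_of_subset_of_nonneg ?_ fun x _ _ => div_nonneg (hS _) (Nat.cast_nonneg _)
  intro x hx
  rw [mem_filter, mem_lift, unc_lift] at hx
  rw [mem_product, mem_filter]
  exact ⟨⟨mem_image_of_mem _ hx.1, hx.2⟩, mem_univ _⟩

theorem CB_lift (L : ι → ι → Bool) (Z : Finset ι) (S : ι → ℝ) (hS : ∀ i, 0 ≤ S i)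
    (M M2 M3 : ℝ) (hR : 1 ≤ R) (h : CA L Z S M) (h2 : CB L Z S M2) (h23 : M2 ≤ M3)
    (hlow : ∀ i, M - S i / R ≤ M3) :
    CB (fun x y : ι × Fin R => L x.1 y.1) (Z ×ˢ univ) (fun x => S x.1 / R) M3 := by
  intro F' W' hd hF ⟨⟨w0, r0⟩, hw0, hw0'⟩
  set F := F'.image Prod.fst with hFd
  set W := W'.image Prod.fst with hWd
  have hFW : (F' ∪ W').image Prod.fst = F ∪ W := image_union _ _
  have hF2 : ∀ i ∈ F, ∀ j ∈ F, L i j = L j i := by
    intro i hi j hj
    obtain ⟨x, hx, rfl⟩ := mem_image.1 hi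
    obtain ⟨y, hy, rfl⟩ := mem_image.1 hj
    exact hF x hx y hy
  rw [mem_lift, unc_lift, hFW] at hw0'
  simp only at hw0'
  have hU : F ∪ W \ F = F ∪ W := union_sdiff_self_eq_union
  have hSR : ∀ x : ι × Fin R, 0 ≤ S x.1 / R := fun x => div_nonneg (hS _) (Nat.cast_nonneg _)
  by_cases hc : ∃ w ∈ W \ F, ¬ (w ∈ Z ∧ Unc L w (F ∪ W \ F))
  · refine le_trans ?_ ((h2 F (W \ F) disjoint_sdiff hF2 hc).trans h23)
    rw [← sum_lift S hR]
    refine sum_le_sum_of_subset_of_nonneg ?_ fun x _ _ => hSR x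
    intro x hx
    rw [mem_filter, mem_lift, unc_lift, hFW] at hx
    rw [mem_product, mem_filter, hU]
    refine ⟨⟨mem_image_of_mem _ hx.1, fun w hw => ?_, hx.2.2⟩, mem_univ _⟩
    obtain ⟨y, hy, rfl⟩ := mem_image.1 (mem_sdiff.1 hw).1
    exact hx.2.1 y hy
  · push Not at hc
    rw [hU] at hc
    -- an uncoupled set
    have key : ∀ i ∈ F, ¬ (i ∈ Z ∧ Unc L i (F ∪ W)) → ¬ (i ∈ Z ∧ Unc L i F) := by
      intro i hi h3 h4
      apply h3
      refine ⟨h4.1, fun j hj => ?_⟩
      by_cases hjF : j ∈ F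
      · exact h4.2 j hjF
      · rcases mem_union.1 hj with hj | hj
        · exact absurd hj hjF
        · have := (hc j (mem_sdiff.2 ⟨hj, hjF⟩)).2 i (mem_union_left _ hi)
          exact ⟨this.2, this.1⟩
    have hw0W : w0 ∈ W := mem_image_of_mem Prod.fst hw0
    have hw0F : w0 ∈ F := by
      by_contra hcon
      exact hw0' (hc w0 (mem_sdiff.2 ⟨hw0W, hcon⟩))
    have h5 := h F hF2
    have h6 : ∑ x ∈ ((F.filter (fun i => ¬ (i ∈ Z ∧ Unc L i F))) ×ˢ
        (univ : Finset (Fin R))).erase (w0, r0), S x.1 / R + S w0 / R =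
        ∑ i ∈ F.filter (fun i => ¬ (i ∈ Z ∧ Unc L i F)), S i := by
      rw [← sum_lift S hR]
      refine sum_erase_add (f := fun x : ι × Fin R => S x.1 / R) _ ?_
      rw [mem_product, mem_filter]
      exact ⟨⟨hw0F, key w0 hw0F hw0'⟩, mem_univ _⟩
    have h7 : ∑ x ∈ F'.filter (fun x => (∀ w ∈ W', L x.1 w.1 = L w.1 x.1) ∧
        ¬ (x ∈ Z ×ˢ (univ : Finset (Fin R)) ∧
          Unc (fun x y : ι × Fin R => L x.1 y.1) x (F' ∪ W'))), S x.1 / R ≤
        ∑ x ∈ ((F.filter (fun i => ¬ (i ∈ Z ∧ Unc L i F))) ×ˢ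
        (univ : Finset (Fin R))).erase (w0, r0), S x.1 / R := by
      refine sum_le_sum_of_subset_of_nonneg ?_ fun x _ _ => hSR x
      intro x hx
      rw [mem_filter, mem_lift, unc_lift, hFW] at hx
      rw [mem_erase, mem_product, mem_filter]
      have hxF : x.1 ∈ F := mem_image_of_mem _ hx.1
      refine ⟨?_, ⟨hxF, key x.1 hxF hx.2.2⟩, mem_univ _⟩
      rintro rfl
      exact (disjoint_left.1 hd hx.1) hw0
    have h8 := hlow w0
    refine h7.trans ?_
    linarith

end core

theorem loglog_nonneg {y : ℕ} (hy : 3 ≤ y) : 0 ≤ Real.log (Real.log y) := by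
  have h3 : (3 : ℝ) ≤ y := by exact_mod_cast hy
  have h1 : 1 ≤ Real.log y := by
    rw [Real.le_log_iff_exp_le (by linarith)]
    have := Real.exp_one_lt_d9
    linarith
  exact Real.log_nonneg h1

theorem atxr_of (h : Pool.Agent.TH841.TR.ATX) (hm : Pool.Agent.TH841.PT.MERGE) :
    Pool.Agent.TH841.TR.ATXR := by
  intro R hR ι _ _ a b L Z c z δ C0 E0 M hb H hz
  have hR0 : (0 : ℝ) < R := by exact_mod_cast hR
  have hR1 : (1 : ℝ) ≤ R := by exact_mod_cast hR
  have hb0 : ∀ i p, 0 ≤ b i p := fun i p => (abs_nonneg _).trans (H.ab i p)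
  have hS0 : ∀ i y, 0 ≤ Sp (b i) z y := fun i y => Sp_nonneg (hb0 i) _ _
  have hSp : ∀ i y, Sp (fun p => b i p / R) z y = Sp (b i) z y / R := by
    intro i y
    unfold Sp
    rw [sum_div]
    exact sum_congr rfl fun p _ => by ring
  have hC0R : C0 / R ≤ C0 := div_le_self H.hC hR1
  have hll : ∀ y, z < y → 0 ≤ Real.log (Real.log y) := by
    intro y hy
    apply loglog_nonneg
    have := H.hz
    omega
  have hdl : ∀ i y, z < y → δ / R * Real.log (Real.log y) ≤ Sp (b i) z y / R + C0 := by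
    intro i y hy
    have h1 := div_le_div_of_nonneg_right (H.low i y hy) hR0.le
    rw [add_div] at h1
    calc δ / R * Real.log (Real.log y) = δ * Real.log (Real.log y) / R := by ring
      _ ≤ Sp (b i) z y / R + C0 / R := h1
      _ ≤ _ := by linarith
  obtain ⟨C, hC⟩ := h (ι × Fin R) (fun x p => a x.1 p / R) (fun x p => b x.1 p / R)
    (fun x y => L x.1 y.1) (Z ×ˢ univ) c z (δ / R) C0 (E0 / R) M
    (by
      intro x p
      show b x.1 p / R ≤ 1 / 2
      rw [div_le_iff₀ hR0]
      have := hb x.1 p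
      linarith)
    { ab := by
        intro x p
        show |a x.1 p / R| ≤ b x.1 p / R
        rw [abs_div, abs_of_pos hR0]
        exact div_le_div_of_nonneg_right (H.ab x.1 p) hR0.le
      LL := fun x => H.LL x.1
      hz := by
        rw [Fintype.card_prod, Fintype.card_fin]
        exact hz
      hδ := div_pos H.hδ hR0
      hE := div_nonneg H.hE hR0.le
      hC := H.hC
      low := by
        intro x y hy
        show δ / R * Real.log (Real.log y) ≤ Sp (fun p => b x.1 p / R) z y + C0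
        rw [hSp]
        exact hdl x.1 y hy
      ZZ := by
        intro q hq q' hq'
        exact H.ZZ q.1 ((mem_lift Z q).1 hq) q'.1 ((mem_lift Z q').1 hq')
      H1 := by
        intro q hq y hy
        have h1 := div_le_div_of_nonneg_right (H.H1 q.1 ((mem_lift Z q).1 hq) y hy) hR0.le
        rw [sum_div] at h1
        have h5 : ∑ p ∈ PS z y, a q.1 p / R / (p : ℝ) = ∑ p ∈ PS z y, a q.1 p / (p : ℝ) / R :=
          sum_congr rfl fun p _ => by ring
        show ∑ p ∈ PS z y, a q.1 p / R / (p : ℝ) ≤ C0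
        rw [h5]
        exact h1.trans hC0R
      H2 := by
        intro x y n e hy hn hsq hpn
        have h4 := div_le_div_of_nonneg_right (H.H2 x.1 y n e hy hn hsq hpn) hR0.le
        rw [sum_div, add_div] at h4
        have h5 : ∑ p ∈ PS z y, a x.1 p / R * (Jr p n * x4 e p) / (p : ℝ) =
            ∑ p ∈ PS z y, a x.1 p * (Jr p n * x4 e p) / (p : ℝ) / R :=
          sum_congr rfl fun p _ => by ring
        have h7 : E0 * Real.log (Real.log n) / R = E0 / R * Real.log (Real.log n) := by ring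
        show ∑ p ∈ PS z y, a x.1 p / R * (Jr p n * x4 e p) / (p : ℝ) ≤
          E0 / R * Real.log (Real.log n) + C0
        rw [h5]
        rw [h7] at h4
        linarith
      CA := by
        intro y hy
        have h1 := CA_lift (R := R) L Z (fun i => Sp (b i) z y) (fun i => hS0 i y) (M y) hR
          (H.CA y hy)
        show CA _ _ (fun x : ι × Fin R => Sp (fun p => b x.1 p / R) z y) _
        simp only [hSp]
        exact h1
      CB := by
        intro y hy
        have h1 := CB_lift (R := R) L Z (fun i => Sp (b i) z y) (fun i => hS0 i y) (M y)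
          (M y + C0 - δ * Real.log (Real.log y)) (M y + C0 - δ / R * Real.log (Real.log y)) hR
          (H.CA y hy) (H.CB y hy)
          (by
            have h2 : δ / R * Real.log (Real.log y) ≤ δ * Real.log (Real.log y) :=
              mul_le_mul_of_nonneg_right (div_le_self H.hδ.le hR1) (hll y hy)
            linarith)
          (by
            intro i
            have h2 := hdl i y hy
            show M y - Sp (b i) z y / R ≤ _
            linarith)
        show CB _ _ (fun x : ι × Fin R => Sp (fun p => b x.1 p / R) z y) _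
        simp only [hSp]
        exact h1 }
  refine ⟨C, fun y hy => ?_⟩
  have h4 := hm ι (Fin R) (fun x p => a x.1 p / R) c z y (fun d => Sym L (fun _ => 1) d)
  have h5 : ∀ i, (fun p => ∑ _θ : Fin R, a i p / (R : ℝ)) = a i := by
    intro i
    funext p
    rw [sum_const, card_univ, Fintype.card_fin, nsmul_eq_mul]
    field_simp
  simp only [h5] at h4
  rw [← h4]
  refine le_trans (le_of_eq ?_) (hC y hy)
  congr 1
  refine sum_congr rfl fun d hd => ?_
  congr 1
  exact (Sym_merge L (fun _ => 1) d fun x => Tup_ne hd x).symm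

end Pool.Agent.TH841.TR.ATXRf
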