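import Mathlib
import Pool.Agent.TH841.TR.Stm
import Pool.Agent.H474R2.GE.FA

/-!
# TR-H1L: sums of the symbols of a second polynomial (adapted from PT/TWG)
-/

set_option autoImplicit false

namespace Pool.Agent.TH841.TR.H1Lf

open Finset Polynomial Pool.Agent.W262.RK Pool.Agent.TH841.PT Pool.Agent.TH841.TR

open Pool.Agent.H474R2.PG (rho Sg PR)

/-! ### Partial summation -/

/-- discrete partial summation -/
private theorem tw_abel (a : ℕ → ℝ) (κ : ℝ) (m : ℕ) (hm : 3 ≤ m)
    (hA : ∀ P : ℕ, 2 ≤ P → ∑ n ∈ Icc 1 P, a n ≤ Real.log P + κ)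
    (h0 : 0 ≤ ∑ n ∈ Icc 1 m, a n) (N : ℕ) (hN : m ≤ N) :
    ∑ n ∈ Ioc m N, a n / Real.log n ≤
      Real.log (Real.log N) - Real.log (Real.log m) + (1 + κ / Real.log m) := by
  have hlog : ∀ n : ℕ, 3 ≤ n → 0 < Real.log n := by
    intro n hn
    apply Real.log_pos
    exact_mod_cast (by omega : 1 < n)
  have key : ∀ N : ℕ, m ≤ N → ∑ n ∈ Ioc m N, a n / Real.log n +
      (Real.log N + κ - ∑ n ∈ Icc 1 N, a n) / Real.log N ≤
      Real.log (Real.log N) - Real.log (Real.log m) + (1 + κ / Real.log m) := by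
    intro N hN
    induction N, hN using Nat.le_induction with
    | base =>
      have hl := hlog m hm
      rw [Ioc_self, sum_empty, zero_add, sub_self, zero_add]
      have e1 : 1 + κ / Real.log m = (Real.log m + κ) / Real.log m := by
        field_simp
      rw [e1]
      apply div_le_div_of_nonneg_right _ hl.le
      linarith
    | succ N hN ih =>
      have hl := hlog N (by omega)
      have hl' := hlog (N + 1) (by omega)
      have hle : Real.log (N : ℝ) ≤ Real.log ((N + 1 : ℕ) : ℝ) := by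
        apply Real.log_le_log
        · exact_mod_cast (by omega : 0 < N)
        · push_cast; linarith
      have hD : 0 ≤ Real.log N + κ - ∑ n ∈ Icc 1 N, a n := by
        have := hA N (by omega)
        linarith
      have e1 : ∑ n ∈ Ioc m (N + 1), a n / Real.log n =
          ∑ n ∈ Ioc m N, a n / Real.log n + a (N + 1) / Real.log ((N + 1 : ℕ) : ℝ) := by
        rw [← Finset.insert_Ioc_right_eq_Ioc_add_one (by omega), sum_insert (by simp), add_comm]
      have e2 : ∑ n ∈ Icc 1 (N + 1), a n = ∑ n ∈ Icc 1 N, a n + a (N + 1) := by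
        rw [← Finset.insert_Icc_right_eq_Icc_add_one (by omega), sum_insert (by simp), add_comm]
      rw [e1, e2]
      set x := Real.log (N : ℝ) with hx
      set x' := Real.log ((N + 1 : ℕ) : ℝ) with hx'
      set A := ∑ n ∈ Icc 1 N, a n with hAd
      set S := ∑ n ∈ Ioc m N, a n / Real.log n with hS
      have e3 : a (N + 1) / x' + (x' + κ - (A + a (N + 1))) / x' =
          (x + κ - A) / x' + (x' - x) / x' := by
        field_simp
        ring
      have e4 : (x + κ - A) / x' ≤ (x + κ - A) / x := by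
        apply div_le_div_of_nonneg_left hD hl hle
      have e5 : (x' - x) / x' ≤ Real.log x' - Real.log x := by
        have h1 := Real.log_le_sub_one_of_pos (x := x / x') (by positivity)
        rw [Real.log_div hl.ne' hl'.ne'] at h1
        have h2 : (x' - x) / x' = 1 - x / x' := by
          field_simp
        rw [h2]
        linarith
      linarith
  have h1 := key N hN
  have hl := hlog N (by omega)
  have h2 : 0 ≤ (Real.log N + κ - ∑ n ∈ Icc 1 N, a n) / Real.log N := by
    apply div_nonneg _ hl.le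
    have := hA N (by omega)
    linarith
  linarith

/-! ### The symbols -/

private theorem tw_abs (a : ℤ) (n : ℕ) : |Jr a n| ≤ 1 := by
  unfold Jr
  rcases jacobiSym.trichotomy a n with h | h | h <;> rw [h] <;> norm_num

private theorem tw_rhoc_le (f g : ℤ[X]) (p : ℕ) : |rhoc f g p| ≤ rho f p := by
  unfold rhoc rho
  refine (Finset.abs_sum_le_sum_abs _ _).trans ?_
  refine (Finset.sum_le_sum fun a _ => tw_abs _ _).trans ?_
  simp

private theorem tw_rhoc_mul (f g : ℤ[X]) (d : ℤ) (p : ℕ) :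
    rhoc f g p * Jr d p = rhoc f (C d * g) p := by
  unfold rhoc
  rw [Finset.sum_mul]
  apply Finset.sum_congr rfl
  intro a _
  rw [eval_mul, eval_C]
  unfold Jr
  rw [jacobiSym.mul_left]
  push_cast
  ring

/-- the sum over the primes in `(m, y]` -/
private theorem tw_upper (f g : ℤ[X]) (d : ℤ) (κ Cm : ℝ)
    (hT : ∀ P : ℕ, 2 ≤ P →
      ∑ p ∈ (Icc 1 P).filter Nat.Prime, ((rho f p : ℝ) + rhoc f (C d * g) p) * Real.log p / p ≤
        Real.log P + κ)
    (hM : ∀ w : ℝ, 3 ≤ w → |Sg (rho f) w - Real.log (Real.log w)| ≤ Cm)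
    (m : ℕ) (hm : 3 ≤ m) (y : ℕ) (hy : m ≤ y) :
    ∑ p ∈ PS m y, rhoc f (C d * g) p / (p : ℝ) ≤ 1 + κ / Real.log m + 2 * Cm := by
  set a : ℕ → ℝ := fun n => if n.Prime then
    ((rho f n : ℝ) + rhoc f (C d * g) n) * Real.log n / n else 0 with ha
  have ha0 : ∀ n, 0 ≤ a n := by
    intro n
    simp only [ha]
    split_ifs with h
    · have h1 := (abs_le.mp (tw_rhoc_le f (C d * g) n)).1
      have h2 : 0 ≤ Real.log n := Real.log_natCast_nonneg n
      have h3 : 0 ≤ (rho f n : ℝ) + rhoc f (C d * g) n := by linarith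
      positivity
    · exact le_rfl
  have hA : ∀ P : ℕ, 2 ≤ P → ∑ n ∈ Icc 1 P, a n ≤ Real.log P + κ := by
    intro P hP
    have := hT P hP
    rw [Finset.sum_filter] at this
    exact this
  have h1 := tw_abel a κ m hm hA (Finset.sum_nonneg fun n _ => ha0 n) y hy
  have h2 : ∑ n ∈ Ioc m y, a n / Real.log n =
      ∑ p ∈ PS m y, ((rho f p : ℝ) / p + rhoc f (C d * g) p / p) := by
    unfold PS
    rw [Finset.sum_filter]
    apply Finset.sum_congr rfl
    intro n hn
    simp only [ha]
    split_ifs with h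
    · have hl : Real.log n ≠ 0 := by
        have : 0 < Real.log n := Real.log_pos (by exact_mod_cast h.one_lt)
        exact this.ne'
      have hn0 : (n : ℝ) ≠ 0 := by exact_mod_cast h.ne_zero
      field_simp
    · simp
  rw [h2, Finset.sum_add_distrib] at h1
  have h3 : ∑ p ∈ PS m y, (rho f p : ℝ) / p = Sg (rho f) y - Sg (rho f) m := by
    unfold Sg PR
    rw [Nat.floor_natCast, Nat.floor_natCast, eq_sub_iff_add_eq, add_comm]
    have hdis : Disjoint ((Icc 1 m).filter Nat.Prime) (PS m y) := by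
      rw [Finset.disjoint_left]
      intro p hp hp'
      have h1 := (Finset.mem_Icc.mp (Finset.mem_filter.mp hp).1).2
      unfold PS at hp'
      have h2 := (Finset.mem_Ioc.mp (Finset.mem_filter.mp hp').1).1
      omega
    rw [← Finset.sum_union hdis]
    apply Finset.sum_congr _ fun _ _ => rfl
    ext p
    unfold PS
    simp only [Finset.mem_union, Finset.mem_filter, Finset.mem_Icc, Finset.mem_Ioc]
    constructor
    · rintro (⟨⟨h1, h2⟩, h3⟩ | ⟨⟨h1, h2⟩, h3⟩)
      · exact ⟨⟨h1, by omega⟩, h3⟩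
      · exact ⟨⟨by omega, h2⟩, h3⟩
    · rintro ⟨⟨h1, h2⟩, h3⟩
      by_cases h : p ≤ m
      · exact Or.inl ⟨⟨h1, h⟩, h3⟩
      · exact Or.inr ⟨⟨by omega, h2⟩, h3⟩
  have h4 := abs_le.mp (hM y (by exact_mod_cast (by omega : 3 ≤ y)))
  have h5 := abs_le.mp (hM m (by exact_mod_cast hm))
  rw [h3] at h1
  linarith [h4.1, h5.2]

theorem h1l_of (h2 : M2G) : H1L := by
  intro f hf hdeg g hfg hns
  have hprim : f.IsPrimitive := hf.isPrimitive hdeg.ne'
  have hirr : Irreducible (f.map (Int.castRingHom ℚ)) :=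
    (Polynomial.IsPrimitive.Int.irreducible_iff_irreducible_map_cast hprim).mp hf
  obtain ⟨K0, hK0⟩ := h2 f hirr g hfg
  obtain ⟨Cm, hCm0, hCm⟩ := Pool.Agent.H474R2.GE.mertens_rho f hf hdeg
  have h1 : (C (1 : ℤ) * g) = g := by rw [C_1, one_mul]
  refine ⟨3, fun z hz => ⟨1 + K0 * (1 + Real.log |((1 : ℤ) : ℝ)|) / Real.log z + 2 * Cm,
    fun y hy => ?_⟩⟩
  have h3 := tw_upper f g 1 (K0 * (1 + Real.log |((1 : ℤ) : ℝ)|)) Cm (hK0 1 one_ne_zero hns) hCm z hz
    y hy.le
  rw [h1] at h3
  exact h3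

end Pool.Agent.TH841.TR.H1Lf
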