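import Mathlib
import Pool.Agent.TH841.TR.Stm
import Pool.Agent.TH841.PT.Mak3

/-!
# Project TR: one-parameter families, the main average
-/

set_option autoImplicit false

namespace Pool.Agent.TH841.TR

open Finset Polynomial Pool.Agent.W262.RK Pool.Agent.W307.RT Pool.Agent.W307.RS
open Pool.Agent.TH841.PT

open Pool.Agent.H474R2.PG (rho)

section

variable {ι : Type} [DecidableEq ι]

lemma CA.scale {L : ι → ι → Bool} {Z : Finset ι} {w S : ι → ℝ} {K T : ℝ} (h : CA L Z w K)
    (hT : 0 ≤ T) (hS : ∀ i, S i ≤ w i * T) : CA L Z S (K * T) := by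
  intro F hF
  have h1 := h F hF
  calc ∑ i ∈ F.filter (fun i => ¬ (i ∈ Z ∧ Unc L i F)), S i
      ≤ ∑ i ∈ F.filter (fun i => ¬ (i ∈ Z ∧ Unc L i F)), w i * T :=
        sum_le_sum fun i _ => hS i
    _ = (∑ i ∈ F.filter (fun i => ¬ (i ∈ Z ∧ Unc L i F)), w i) * T := by rw [sum_mul]
    _ ≤ K * T := mul_le_mul_of_nonneg_right h1 hT

lemma CB.scale {L : ι → ι → Bool} {Z : Finset ι} {w S : ι → ℝ} {K T : ℝ} (h : CB L Z w K)
    (hT : 0 ≤ T) (hS : ∀ i, S i ≤ w i * T) : CB L Z S (K * T) := by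
  intro F W hFW hF hW
  have h1 := h F W hFW hF hW
  calc ∑ i ∈ F.filter (fun i => (∀ w ∈ W, L i w = L w i) ∧ ¬ (i ∈ Z ∧ Unc L i (F ∪ W))), S i
      ≤ ∑ i ∈ F.filter (fun i => (∀ w ∈ W, L i w = L w i) ∧ ¬ (i ∈ Z ∧ Unc L i (F ∪ W))),
        w i * T := sum_le_sum fun i _ => hS i
    _ = (∑ i ∈ F.filter (fun i => (∀ w ∈ W, L i w = L w i) ∧ ¬ (i ∈ Z ∧ Unc L i (F ∪ W))),
        w i) * T := by rw [sum_mul]
    _ ≤ K * T := mul_le_mul_of_nonneg_right h1 hT

lemma CA.mono {L : ι → ι → Bool} {Z : Finset ι} {S : ι → ℝ} {K K' : ℝ} (h : CA L Z S K)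
    (hK : K ≤ K') : CA L Z S K' := fun F hF => (h F hF).trans hK

lemma CB.mono {L : ι → ι → Bool} {Z : Finset ι} {S : ι → ℝ} {K K' : ℝ} (h : CB L Z S K)
    (hK : K ≤ K') : CB L Z S K' := fun F W hFW hF hW => (h F W hFW hF hW).trans hK

end

section

variable {J : Type} [Fintype J] [DecidableEq J]

lemma gpol_ZI {cls : J → Fin 4} {sp : J → Bool} (a : Fin 3 → ℤ) (f : J → ℤ[X]) {i : I4 cls}
    (hi : i ∈ ZI cls sp) : gpol cls a f i = kpol cls a f i.1.1 0 := by
  obtain ⟨h1, _, h3⟩ := (mem_filter.1 hi).2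
  unfold gpol
  rw [if_neg, if_neg h1]
  rw [h3]
  generalize cls i.1.1 = k at h1 ⊢
  revert h1
  revert k
  decide

lemma L4_self (cls : J → Fin 4) (i : I4 cls) : L4 cls i i = false := by
  have h := i.2
  unfold L4
  revert h
  unfold Al ec
  generalize i.1.2.1 = v
  generalize i.1.2.2 = x
  generalize cls i.1.1 = q
  revert q v x
  decide

lemma L4_ZI {cls : J → Fin 4} {sp : J → Bool} {i j : I4 cls} (hi : i ∈ ZI cls sp)
    (hj : j ∈ ZI cls sp) : L4 cls i j = L4 cls j i := by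
  obtain ⟨h1, _, h3⟩ := (mem_filter.1 hi).2
  obtain ⟨k1, _, k3⟩ := (mem_filter.1 hj).2
  unfold L4
  rw [h3, k3]
  generalize cls i.1.1 = q at h1 ⊢
  generalize cls j.1.1 = q' at k1 ⊢
  revert h1 k1
  revert q q'
  decide

/-- **the main average for one-parameter families** -/
theorem makx (hats : ATXR) (hcomb : COMBX) (hh1 : H1L) (hmer : MERGE) (hexp : EXPT) (htw : TWG)
    (hgd : GDP)
    (cls : J → Fin 4) (a : Fin 3 → ℤ) (f : J → ℤ[X]) (sp : J → Bool) (ha : ∀ k, a k ≠ 0)
    (hf : Irr f) (htri : Tri cls sp)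
    (hsp : ∀ j, cls j ≠ 3 → sp j = false → NSqg (f j) (kpol cls a f j 0) 1)
    (c : ℕ) (hc : (∏ j, f j).natDegree + 1 ≤ c) :
    ∃ z0 : ℕ, ∀ z, z0 ≤ z → Gp a f z c ∧ ∃ C : ℝ, ∀ y, z < y →
      ∑ s ∈ Tup (J × Ty) z y, NBT (clsI cls) eI s *
        ∏ i, gp (rT cls a f z i) c (s i) ≤
        C * Real.exp (Sp (fun p => rho (∏ j, f j) p) z y) := by
  obtain ⟨zg, hzg⟩ := exists_Gp hgd hf ha c hc
  choose E0 zt hE0 hzt using fun i : I4 cls =>
    htw (f i.1.1) (hf.irr _) (hf.deg _) (gpol cls a f i) (hf.ndvd_gpol ha i)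
  have hh : ∀ i : I4 cls, ∃ z0 : ℕ, ∀ z, z0 ≤ z → ∃ C : ℝ, i ∈ ZI cls sp → ∀ y : ℕ, z < y →
      ∑ p ∈ PS z y, rhoc (f i.1.1) (gpol cls a f i) p / (p : ℝ) ≤ C := by
    intro i
    by_cases hi : i ∈ ZI cls sp
    · obtain ⟨h1, h2, h3⟩ := (mem_filter.1 hi).2
      obtain ⟨z0, hz0⟩ := hh1 (f i.1.1) (hf.irr _) (hf.deg _) (gpol cls a f i)
        (hf.ndvd_gpol ha i) (by rw [gpol_ZI a f hi]; exact hsp _ h1 h2)
      exact ⟨z0, fun z hz => (hz0 z hz).imp fun C hC _ => hC⟩
    · exact ⟨0, fun z _ => ⟨0, fun h => absurd h hi⟩⟩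
  choose zh hzh using hh
  refine ⟨zg + univ.sup zt + univ.sup zh + (2 * c + 2 + Fintype.card (I4 cls) * (2 * c)) +
    (2 * c + 2 + Fintype.card (I4 cls)), fun z hz => ⟨hzg z (by omega), ?_⟩⟩
  have hG := hzg z (by omega)
  have hzt' : ∀ i, zt i ≤ z := fun i => (le_sup (f := zt) (mem_univ i)).trans (by omega)
  have hzh' : ∀ i, zh i ≤ z := fun i => (le_sup (f := zh) (mem_univ i)).trans (by omega)
  choose Ct hCt using fun i : I4 cls => hzt i z (hzt' i)
  choose Ch hCh using fun i : I4 cls => hzh i z (hzh' i)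
  have hz4 := hG.four
  choose Cm hCm0 hCm using fun j : J => mert (hf.irr j) (hf.deg j) (z := z) (by omega)
  set Cs : ℝ := ∑ j, Cm j with hCs
  have hCs' : ∀ j, Cm j ≤ Cs := fun j => single_le_sum (f := Cm) (fun j _ => hCm0 j) (mem_univ j)
  have hCs0 : 0 ≤ Cs := sum_nonneg fun j _ => hCm0 j
  have hEs : ∀ i, E0 i ≤ ∑ i, E0 i := fun i =>
    single_le_sum (f := E0) (fun j _ => hE0 j) (mem_univ i)
  have hCts : ∀ i, |Ct i| ≤ ∑ i, |Ct i| := fun i =>
    single_le_sum (f := fun i => |Ct i|) (fun j _ => abs_nonneg _) (mem_univ i)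
  have hChs : ∀ i, |Ch i| ≤ ∑ i, |Ch i| := fun i =>
    single_le_sum (f := fun i => |Ch i|) (fun j _ => abs_nonneg _) (mem_univ i)
  have hE0s : 0 ≤ ∑ i, E0 i := sum_nonneg fun i _ => hE0 i
  have hC0s : 0 ≤ ∑ i, |Ct i| := sum_nonneg fun i _ => abs_nonneg _
  have hC1s : 0 ≤ ∑ i, |Ch i| := sum_nonneg fun i _ => abs_nonneg _
  set K0 : ℝ := ∑ i, |Ct i| + Cs + ∑ i, |Ch i| with hK0
  have hK00 : 0 ≤ K0 := by positivity
  have hll : ∀ y, z < y → 0 ≤ Real.log (Real.log y) := by
    intro y hy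
    have h3 : (3 : ℝ) ≤ y := by exact_mod_cast (by omega : 3 ≤ y)
    apply Real.log_nonneg
    rw [Real.le_log_iff_exp_le (by linarith)]
    have := Real.exp_one_lt_d9
    linarith
  have hSb : ∀ i y, Sp (bw cls f z i) z y = w4 cls i * Sp (fun p => rho (f i.1.1) p) z y := by
    intro i y
    unfold Sp
    rw [mul_sum]
    refine sum_congr rfl fun p hp => ?_
    have hp' := mem_filter.1 hp
    unfold bw
    rw [if_pos ⟨hp'.2, (mem_Ioc.1 hp'.1).1⟩]
    ring
  have hSl : ∀ j y, z < y → Sp (fun p => rho (f j) p) z y ≤ Real.log (Real.log y) + Cs ∧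
      Real.log (Real.log y) - Cs ≤ Sp (fun p => rho (f j) p) z y := by
    intro j y hy
    have h1 := abs_le.1 (hCm j y hy)
    have h2 := hCs' j
    constructor <;> linarith [h1.1, h1.2]
  set M : ℕ → ℝ := fun y => ∑ j, Sp (fun p => rho (f j) p) z y + 2 * (Fintype.card J * Cs) with hM
  have hMge : ∀ y, z < y → Fintype.card J * (Real.log (Real.log y) + Cs) ≤ M y := by
    intro y hy
    have h3 : ∑ j : J, (Real.log (Real.log y) - Cs) ≤ ∑ j, Sp (fun p => rho (f j) p) z y :=
      sum_le_sum fun j _ => (hSl j y hy).2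
    rw [sum_const, nsmul_eq_mul, card_univ] at h3
    rw [hM]
    beta_reduce
    linarith
  have hSw : ∀ y, z < y → ∀ i, Sp (bw cls f z i) z y ≤
      w4 cls i * (Real.log (Real.log y) + Cs) := by
    intro y hy i
    rw [hSb]
    exact mul_le_mul_of_nonneg_left (hSl i.1.1 y hy).1 (PT.w4_pos cls i).le
  obtain ⟨hCA, hCB⟩ := hcomb J cls sp htri
  obtain ⟨C, hC⟩ := hats (2 * c) (by have := hG.one; omega) (I4 cls) (aw cls a f z) (bw cls f z)
    (L4 cls) (ZI cls sp) c z (1 / 4) K0 (∑ i, E0 i) M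
    (by
      intro i p
      unfold bw
      split_ifs with h1
      · have h2 : (rho (f i.1.1) p : ℝ) ≤ c := by
          exact_mod_cast rho_le_prod hG h1.1 h1.2 i.1.1
        have h3 := PT.w4_le cls i
        have h4 := (PT.w4_pos cls i).le
        have h5 : (0 : ℝ) ≤ rho (f i.1.1) p := Nat.cast_nonneg _
        push_cast
        nlinarith
      · positivity)
    { ab := fun i p => aw_abs _ _ _ _ _ _
      LL := L4_self cls
      hz := by omega
      hδ := by norm_num
      hE := hE0s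
      hC := hK00
      low := by
        intro i y hy
        rw [hSb i]
        have h1 := (hSl i.1.1 y hy).2
        have h2 : (1 : ℝ) / 4 ≤ w4 cls i := by
          unfold w4
          split_ifs <;> norm_num
        have h3 := PT.w4_le cls i
        have h4 := hll y hy
        have h5 : w4 cls i * (Real.log (Real.log y) - Cs) ≤
            w4 cls i * Sp (fun p => rho (f i.1.1) p) z y :=
          mul_le_mul_of_nonneg_left h1 (PT.w4_pos cls i).le
        rw [hK0]
        nlinarith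
      ZZ := fun q hq q' hq' => L4_ZI hq hq'
      H1 := by
        intro i hi y hy
        have h1 := hCh i hi y hy
        have h2 : ∑ p ∈ PS z y, aw cls a f z i p / (p : ℝ) =
            w4 cls i * ∑ p ∈ PS z y, rhoc (f i.1.1) (gpol cls a f i) p / (p : ℝ) := by
          rw [mul_sum]
          refine sum_congr rfl fun p hp => ?_
          have hp' := mem_filter.1 hp
          unfold aw
          rw [if_pos ⟨hp'.2, (mem_Ioc.1 hp'.1).1⟩]
          ring
        rw [h2]
        have h3 : ∑ p ∈ PS z y, rhoc (f i.1.1) (gpol cls a f i) p / (p : ℝ) ≤ ∑ i, |Ch i| := by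
          linarith [hChs i, le_abs_self (Ch i)]
        have h7 := mul_le_mul_of_nonneg_left h3 (PT.w4_pos cls i).le
        have h8 := mul_le_mul_of_nonneg_right (PT.w4_le cls i) hC1s
        rw [hK0]
        linarith
      H2 := by
        intro i y r e hy hr hsq hpr
        have h1 := hCt i y r e hy hr hsq hpr
        have hlr := loglog_nonneg (by omega : 2 ≤ z) hr hpr
        have h2 : ∑ p ∈ PS z y, aw cls a f z i p * (Jr p r * x4 e p) / (p : ℝ) =
            w4 cls i * ∑ p ∈ PS z y, rhoc (f i.1.1) (gpol cls a f i) p *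
              (Jr p r * x4 e p) / (p : ℝ) := by
          rw [mul_sum]
          refine sum_congr rfl fun p hp => ?_
          have hp' := mem_filter.1 hp
          unfold aw
          rw [if_pos ⟨hp'.2, (mem_Ioc.1 hp'.1).1⟩]
          ring
        rw [h2]
        have h3 : ∑ p ∈ PS z y, rhoc (f i.1.1) (gpol cls a f i) p * (Jr p r * x4 e p) / (p : ℝ) ≤
            (∑ i, E0 i) * Real.log (Real.log r) + ∑ i, |Ct i| := by
          have := mul_le_mul_of_nonneg_right (hEs i) hlr
          linarith [hCts i, le_abs_self (Ct i)]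
        have h5 : 0 ≤ (∑ i, E0 i) * Real.log (Real.log r) + ∑ i, |Ct i| := by positivity
        have h6 : w4 cls i * ∑ p ∈ PS z y, rhoc (f i.1.1) (gpol cls a f i) p *
              (Jr p r * x4 e p) / (p : ℝ) ≤ (∑ i, E0 i) * Real.log (Real.log r) + ∑ i, |Ct i| := by
          have h7 := mul_le_mul_of_nonneg_left h3 (PT.w4_pos cls i).le
          have h8 := mul_le_mul_of_nonneg_right (PT.w4_le cls i) h5
          linarith
        rw [hK0]
        linarith
      CA := by
        intro y hy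
        have hT : 0 ≤ Real.log (Real.log y) + Cs := by have := hll y hy; positivity
        exact (hCA.scale hT (hSw y hy)).mono (hMge y hy)
      CB := by
        intro y hy
        have hT : 0 ≤ Real.log (Real.log y) + Cs := by have := hll y hy; positivity
        refine (hCB.scale hT (hSw y hy)).mono ?_
        have h1 := hMge y hy
        have h2 : ((Fintype.card J : ℝ) - 1 / 4) * (Real.log (Real.log y) + Cs) =
            Fintype.card J * (Real.log (Real.log y) + Cs) - 1 / 4 * Real.log (Real.log y) -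
              1 / 4 * Cs := by ring
        rw [h2]
        linarith }
    (by omega)
  refine ⟨C * Real.exp (2 * (Fintype.card J * Cs)), fun y hy => ?_⟩
  have h1 := expt3 hexp hmer cls (rT cls a f z) c z y (by omega)
  simp only [sum_types hG] at h1
  rw [h1]
  have h2 := hC y hy
  have h3 : ∑ j, Sp (fun p => rho (f j) p) z y = Sp (fun p => rho (∏ j, f j) p) z y := by
    unfold Sp
    rw [sum_comm]
    refine sum_congr rfl fun p hp => ?_
    have hp' := mem_filter.1 hp
    beta_reduce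
    rw [rho_prod hG hp'.2 (mem_Ioc.1 hp'.1).1, ← sum_div]
    push_cast
    rfl
  rw [hM] at h2
  beta_reduce at h2
  rw [h3, Real.exp_add] at h2
  calc _ ≤ _ := le_abs_self _
    _ ≤ _ := h2
    _ = _ := by ring

end

end Pool.Agent.TH841.TR
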