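import Mathlib
import Pool.Agent.TH841.PT.Avg3
import Pool.Agent.TH841.PT.Avg3G

/-!
# Project TR: the averages, from the bound for the main term (adapted from PT/Avg3, PT/Avg3G)
-/

set_option autoImplicit false

namespace Pool.Agent.TH841.TR

open Finset Polynomial Pool.Agent.W262.RK Pool.Agent.W307.RT Pool.Agent.W307.RS
open Pool.Agent.W307.SE Pool.Agent.TH841.PT

open Pool.Agent.H474R2.PG (rho)

section

variable {J : Type} [Fintype J] [DecidableEq J]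

/-- the bound for the main term -/
def MK (cls : J → Fin 4) (a : Fin 3 → ℤ) (f : J → ℤ[X]) : Prop :=
  ∀ c : ℕ, (∏ j, f j).natDegree + 1 ≤ c →
    ∃ z0 : ℕ, ∀ z, z0 ≤ z → Gp a f z c ∧ ∃ C : ℝ, ∀ y, z < y →
      ∑ s ∈ Tup (J × Ty) z y, NBT (clsI cls) eI s *
        ∏ i, gp (rT cls a f z i) c (s i) ≤
        C * Real.exp (Sp (fun p => rho (∏ j, f j) p) z y)

/-- **the average of the order of the 2-Selmer group in a one-parameter family** -/
theorem avgX (hcnt : CNTH) (hsel : SELX) (hant : ANTX) (hrs : RSP) (hrv : RVP) (hru : RUP)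
    (hsub : SUBT)
    (cls : J → Fin 4) (a : Fin 3 → ℤ) (f : J → ℤ[X]) (B : ℕ) (ha : ∀ k, a k ≠ 0)
    (hmk : MK cls a f)
    (hrel : C (a 0) * ∏ l ∈ fs cls 0, f l - C (a 1) * ∏ l ∈ fs cls 1, f l =
      C (a 2) * ∏ l ∈ fs cls 2, f l) :
    ∃ C2 : ℝ, ∀ (N : ℤ) (X : ℕ), 1 ≤ X → N.natAbs ≤ X ^ B →
      ∑ t ∈ (Icc 1 X).filter (fun t : ℕ => ∀ j, (f j).eval (N + (t : ℤ)) ≠ 0),
        SN (Fval cls a (fun l => (f l).eval (N + (t : ℤ))) 0)
          (Fval cls a (fun l => (f l).eval (N + (t : ℤ))) 1) ≤ C2 * X := by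
  classical
  obtain ⟨z0, hz0⟩ := hmk _ le_rfl
  set c := (∏ j, f j).natDegree + 1 with hc
  obtain ⟨hG, C', hC'⟩ := hz0 z0 le_rfl
  set z := z0 with hz
  have hz4 := hG.four
  have hz2 := hG.two
  have hc1 := hG.one
  obtain ⟨Cc, K, y0, hC0, hK1, hcn⟩ := cnt3 hcnt cls hG
  obtain ⟨Kd, m, hKd⟩ := eval_le_all f
  have hrel' : ∀ t : ℤ, Fval cls a (fun l => (f l).eval t) 0 - Fval cls a (fun l => (f l).eval t) 1 =
      Fval cls a (fun l => (f l).eval t) 2 := by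
    intro t
    have := congrArg (Polynomial.eval t) hrel
    rw [eval_sub, eval_mul, eval_mul, eval_mul, eval_C, eval_C, eval_C, eval_prod, eval_prod,
      eval_prod] at this
    exact this
  set B' : ℕ := (B + 2) * m + 1 with hB'
  set y1 : ℕ := y0 + Kd + 3 with hy1
  -- the summand
  let r : ℤ → ℝ := fun w => SN (Fval cls a (fun l => (f l).eval w) 0)
    (Fval cls a (fun l => (f l).eval w) 1)
  have hr0 : ∀ w, 0 ≤ r w := fun w => SN_nonneg _ _
  suffices key : ∃ C2 : ℝ, ∀ θ : {θ : ℤ × ℕ // 1 ≤ θ.2 ∧ θ.1.natAbs ≤ θ.2 ^ B},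
      ∑ t ∈ (Icc 1 θ.1.2).filter (fun t : ℕ => ∀ j, (f j).eval (θ.1.1 + (t : ℤ)) ≠ 0),
        r (θ.1.1 + (t : ℤ)) ≤ C2 * (θ.1.2 : ℝ) by
    obtain ⟨C2, hC2⟩ := key
    exact ⟨C2, fun N X hX hN => hC2 ⟨(N, X), hX, hN⟩⟩
  set G : (J × Ty → ℕ) → ℝ := NBT (clsI cls) eI with hGdef
  have hG0 : ∀ s, 0 ≤ G s := by
    intro s
    rw [hGdef]
    unfold NBT
    exact mul_nonneg (by positivity) (sum_nonneg fun _ _ => Nat.cast_nonneg _)
  have hcz : c ≤ z := by omega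
  have hgn : ∀ {y' : ℕ} {s : J × Ty → ℕ} (_ : s ∈ Tup (J × Ty) z y') (i : J × Ty),
      0 ≤ gp (rT cls a f z i) c (s i) := fun hs i =>
    gp_nonneg (rT_nonneg cls a f z i) hcz ((Pool.Agent.W405.RK2.mem_Tup.1 hs).1 i)
  refine hant (J × Ty) ℕ {θ : ℤ × ℕ // 1 ≤ θ.2 ∧ θ.1.natAbs ≤ θ.2 ^ B}
    (fun θ => (Icc 1 θ.1.2).filter (fun t : ℕ => ∀ j, (f j).eval (θ.1.1 + (t : ℤ)) ≠ 0))
    (fun θ => θ.1.2) (fun θ t => prt cls a f z (θ.1.1 + (t : ℤ))) (fun θ => (θ.1.2 : ℝ)) z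
    (fun y => Real.exp (Sp (fun p => rho (∏ j, f j) p) z y))
    (fun s => G s * ∏ i, gp (rT cls a f z i) c (s i))
    (fun v => ∏ i, ((4 : ℝ) ^ (v i).primeFactors.card * (gp (rT cls a f z i) c (v i) / v i)))
    (fun u => ∏ i, ((c : ℝ) ^ (u i).primeFactors.card / (u i : ℝ)))
    (fun θ t => r (θ.1.1 + (t : ℤ)))
    (Cc * 4 ^ (z + 2)) ((4 ^ B') ^ Fintype.card J) K y1 (by omega) (fun y _ => Real.exp_pos _)
    (fun θ => θ.2.1) (fun θ => Nat.cast_nonneg _) (fun X0 => ?_) (fun θ t ht => ?_)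
    (fun θ t => hr0 _) (by positivity) (one_le_pow₀ (one_le_pow₀ (by norm_num))) hK1
    (fun y s hs => ⟨?_, ?_⟩) (fun y Y hzy u hu => ?_) (fun lam hlam => ?_)
    (fun lam hlam => ?_) (fun lam hlam => ?_) ?_
  · -- small scales
    refine ⟨∑ N ∈ Icc (-((X0 : ℤ) ^ B)) ((X0 : ℤ) ^ B), ∑ t ∈ Icc 1 X0, r (N + (t : ℤ)), ?_⟩
    rintro ⟨⟨N, X⟩, hX, hN⟩ hle
    simp only at hX hN hle ⊢
    have hX0 : X ^ B ≤ X0 ^ B := Nat.pow_le_pow_left hle B
    have hmem : N ∈ Icc (-((X0 : ℤ) ^ B)) ((X0 : ℤ) ^ B) := by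
      rw [mem_Icc]
      have h1 : (N.natAbs : ℤ) ≤ (X0 : ℤ) ^ B := by exact_mod_cast hN.trans hX0
      omega
    have h1 : ∑ t ∈ (Icc 1 X).filter (fun t : ℕ => ∀ j, (f j).eval (N + (t : ℤ)) ≠ 0),
        r (N + (t : ℤ)) ≤ ∑ t ∈ Icc 1 X0, r (N + (t : ℤ)) := by
      refine sum_le_sum_of_subset_of_nonneg ?_ fun t _ _ => hr0 _
      exact (filter_subset _ _).trans (Icc_subset_Icc_right hle)
    have h2 : ∑ t ∈ Icc 1 X0, r (N + (t : ℤ)) ≤
        ∑ N ∈ Icc (-((X0 : ℤ) ^ B)) ((X0 : ℤ) ^ B), ∑ t ∈ Icc 1 X0, r (N + (t : ℤ)) :=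
      single_le_sum (f := fun N : ℤ => ∑ t ∈ Icc 1 X0, r (N + (t : ℤ)))
        (fun _ _ => sum_nonneg fun _ _ => hr0 _) hmem
    have h3 : 0 ≤ ∑ N ∈ Icc (-((X0 : ℤ) ^ B)) ((X0 : ℤ) ^ B), ∑ t ∈ Icc 1 X0, r (N + (t : ℤ)) :=
      sum_nonneg fun _ _ => sum_nonneg fun _ _ => hr0 _
    have h4 : (1 : ℝ) ≤ (X : ℝ) := by exact_mod_cast hX
    exact (h1.trans h2).trans (le_mul_of_one_le_right h3 h4)
  · exact prt_Gd hG (mem_filter.1 ht).2
  · exact mul_nonneg (hG0 s) (prod_nonneg fun i _ => hgn hs i)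
  · exact prod_nonneg fun i _ => mul_nonneg (by positivity)
      (div_nonneg (hgn hs i) (Nat.cast_nonneg _))
  · exact prod_nonneg fun i _ => by positivity
  · -- the first sum
    obtain ⟨A, hA⟩ := hrs (J × Ty) z c (rT cls a f z) G
      (fun y => C' * Real.exp (Sp (fun p => rho (∏ j, f j) p) z y)) 4 lam (by omega)
      (fun i p => ⟨rT_nonneg cls a f z i p, rT_le hG i p⟩) (by norm_num) hlam hG0
      (fun y hy s e hse => hsub (J × Ty) (clsI cls) eI z y (by omega) s e hse)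
      (fun y hy => hC' y hy)
    refine ⟨A * C', fun y hy => ?_⟩
    have := hA y hy
    rw [mul_assoc]
    exact this
  · exact hrv (J × Ty) z c (rT cls a f z) 4 lam (by omega)
      (fun i p => ⟨rT_nonneg cls a f z i p, rT_le hG i p⟩) (by norm_num) hlam
  · exact hru (J × Ty) (c : ℝ) lam (by exact_mod_cast hc1) hlam
  -- the local majorant
  rintro ⟨⟨N, X⟩, hX1, hN⟩ y Y k hy0 hzy hyK hk s hs v hv u hu h8 T' hT' hval
  simp only at hX1 hN hyK hk h8 hT' hval ⊢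
  have hy00 : y0 ≤ y := by omega
  have hyX : y ≤ X := le_trans (Nat.le_self_pow (by omega) y) hyK
  set g : Finset ℕ → ℝ := fun E => (NL (∏ i, s i) (LTs (clsI cls) eI s E) : ℝ) with hg
  have hg0 : ∀ E, 0 ≤ g E := fun E => Nat.cast_nonneg _
  set ng : ℕ → Finset ℕ := fun t => negx cls (fun l => (f l).eval (N + (t : ℤ)))
    (S1 z y (fun l => (f l).eval (N + (t : ℤ)))) with hng
  have h1 : ∀ t ∈ T', r (N + (t : ℤ)) ≤
      4 ^ (z + 2) * ((4 ^ B') ^ Fintype.card J) ^ k *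
        (∏ i, (4 : ℝ) ^ (v i).primeFactors.card) * g (ng t) := by
    intro t ht
    have htT := hT' ht
    rw [mem_filter] at htT
    obtain ⟨ht1, ht0⟩ := htT
    obtain ⟨hts, htv, _⟩ := hval t ht
    have hsize : ∀ j, ((f j).eval (N + (t : ℤ))).natAbs ≤ X ^ B' := by
      intro j
      have e2 : t ≤ X := (mem_Icc.1 ht1).2
      have e5 : X ^ B ≤ X ^ (B + 1) := Nat.pow_le_pow_right hX1 (by omega)
      have e6 : X ≤ X ^ (B + 1) := Nat.le_self_pow (by omega) X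
      have e8 : (N + (t : ℤ)).natAbs ≤ X ^ (B + 2) := by
        calc (N + (t : ℤ)).natAbs ≤ N.natAbs + t :=
              (Int.natAbs_add_le _ _).trans (by rw [Int.natAbs_natCast])
          _ ≤ X ^ (B + 1) + X ^ (B + 1) := Nat.add_le_add (hN.trans e5) (e2.trans e6)
          _ = 2 * X ^ (B + 1) := by ring
          _ ≤ X * X ^ (B + 1) := Nat.mul_le_mul_right _ (by omega)
          _ = X ^ (B + 2) := by ring
      calc ((f j).eval (N + (t : ℤ))).natAbs ≤ Kd * (X ^ (B + 2)) ^ m :=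
            hKd _ _ (Nat.one_le_pow _ _ hX1) e8 j
        _ ≤ X * (X ^ (B + 2)) ^ m := Nat.mul_le_mul_right _ (by omega)
        _ = X ^ B' := by rw [hB', ← pow_mul]; ring
    have hr := (rank3 hsel (cls := cls) hG ha ht0 (hrel' _) (y := y) (X := X) (k := k) (B := B')
      hsize hX1 (by omega) hk).2
    rw [hts, htv] at hr
    exact hr
  have hneg : ∀ t ∈ T', ng t ∈ (P3 (clsI cls) s).powerset := by
    intro t ht
    have htT := hT' ht
    rw [mem_filter] at htT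
    obtain ⟨ht1, ht0⟩ := htT
    obtain ⟨hts, htv, _⟩ := hval t ht
    rw [mem_powerset, hng]
    unfold negx
    refine (filter_subset _ _).trans ?_
    unfold P3
    have h5 : ∏ j ∈ univ.filter (fun j => cls j = 3),
        S1 z y (fun l => (f l).eval (N + (t : ℤ))) j =
        ∏ i ∈ univ.filter (fun i => clsI cls i = 3), s i := by
      rw [prod_filter, prod_filter, Fintype.prod_prod_type]
      refine prod_congr rfl fun j _ => ?_
      unfold clsI
      by_cases h6 : cls j = 3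
      · simp only [h6, if_true]
        rw [← S1_prod (cls := cls) (a := a) ht0 y j, hts]
      · simp [h6]
    rw [h5]
  have h2 : ∑ t ∈ T', g (ng t) =
      ∑ E ∈ (P3 (clsI cls) s).powerset,
        ((T'.filter (fun t : ℕ => ng t = E)).card : ℝ) * g E := by
    rw [← sum_fiberwise_of_maps_to hneg]
    refine sum_congr rfl fun E _ => ?_
    rw [← nsmul_eq_mul, ← sum_const]
    refine sum_congr rfl fun t ht => ?_
    rw [(mem_filter.1 ht).2]
  set Q : ℝ := Cc * X * (1 / 2) ^ (P3 (clsI cls) s).card *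
      (∏ i, gp (rT cls a f z i) c (s i)) * (∏ i, gp (rT cls a f z i) c (v i) / v i) *
      (∏ i, (c : ℝ) ^ (u i).primeFactors.card / u i) *
      Real.exp (-Sp (fun p => rho (∏ j, f j) p) z y) with hQ
  have h8' : (∏ i, s i * v i * u i) ^ 8 ≤ X := h8
  have h3 : ∀ E ∈ (P3 (clsI cls) s).powerset,
      ((T'.filter (fun t : ℕ => ng t = E)).card : ℝ) * g E ≤ Q * g E := by
    intro E _
    refine mul_le_mul_of_nonneg_right ?_ (hg0 E)
    refine hcn N X y Y hy00 hzy hyK s v u hs hv hu h8' E _ fun t ht => ?_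
    rw [mem_filter] at ht
    obtain ⟨ht', htE⟩ := ht
    have htT := hT' ht'
    rw [mem_filter] at htT
    obtain ⟨hts, htv, htu⟩ := hval t ht'
    exact ⟨htT.1, htT.2, hts, htv, htu, htE⟩
  calc ∑ t ∈ T', r (N + (t : ℤ))
      ≤ ∑ t ∈ T', 4 ^ (z + 2) * ((4 ^ B') ^ Fintype.card J) ^ k *
        (∏ i, (4 : ℝ) ^ (v i).primeFactors.card) * g (ng t) := sum_le_sum h1
    _ = 4 ^ (z + 2) * ((4 ^ B') ^ Fintype.card J) ^ k *
        (∏ i, (4 : ℝ) ^ (v i).primeFactors.card) *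
          ∑ E ∈ (P3 (clsI cls) s).powerset,
            ((T'.filter (fun t : ℕ => ng t = E)).card : ℝ) * g E := by
        rw [← mul_sum, h2]
    _ ≤ 4 ^ (z + 2) * ((4 ^ B') ^ Fintype.card J) ^ k *
        (∏ i, (4 : ℝ) ^ (v i).primeFactors.card) *
          ∑ E ∈ (P3 (clsI cls) s).powerset, Q * g E :=
        mul_le_mul_of_nonneg_left (sum_le_sum h3) (by positivity)
    _ = _ := by
        have e1 : G s = (1 / 2) ^ (P3 (clsI cls) s).card *
            ∑ E ∈ (P3 (clsI cls) s).powerset, g E := by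
          rw [hGdef]
          rfl
        rw [← mul_sum, e1, hQ, Real.exp_neg, prod_mul_distrib]
        ring

/-- **the average of the order of the 2-Selmer group in a one-parameter family**, over the
arguments where a second polynomial has no small prime factors -/
theorem avgXG (hcnt : CNTH) (hsel : SELX) (hant : ANTX) (hrs : RSP) (hrv : RVP) (hru : RUP)
    (hsub : SUBT) (hgd : GDP)
    (cls : J → Fin 4) (a : Fin 3 → ℤ) (f : J → ℤ[X]) (B : ℕ) (ha : ∀ k, a k ≠ 0)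
    (hmk : MK cls a f)
    (hrel : C (a 0) * ∏ l ∈ fs cls 0, f l - C (a 1) * ∏ l ∈ fs cls 1, f l =
      C (a 2) * ∏ l ∈ fs cls 2, f l)
    (G : ℤ[X]) (hDG : Squarefree (mQ ((∏ j, f j) * G))) :
    ∃ z0 : ℕ, ∀ z, z0 ≤ z → ∃ C2 : ℝ, ∀ (N : ℤ) (X : ℕ), 1 ≤ X → N.natAbs ≤ X ^ B →
      ∀ T : Finset ℕ, T ⊆ Icc 1 X → (∀ t ∈ T, (∀ j, (f j).eval (N + (t : ℤ)) ≠ 0) ∧
        Sft G z X (N + (t : ℤ))) →
      ∑ t ∈ T, SN (Fval cls a (fun l => (f l).eval (N + (t : ℤ))) 0)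
          (Fval cls a (fun l => (f l).eval (N + (t : ℤ))) 1) ≤
        C2 * (X * Real.exp (-Sp (fun p => (rho G p : ℝ)) z X)) := by
  classical
  have hDG0 : (∏ j, f j) * G ≠ 0 := by
    intro h0
    unfold mQ at hDG
    rw [h0, Polynomial.map_zero] at hDG
    exact not_squarefree_zero hDG
  set c := ((∏ j, f j) * G).natDegree + 1 with hc
  have hcc : (∏ j, f j).natDegree + 1 ≤ c := by
    rw [hc, natDegree_mul (left_ne_zero_of_mul hDG0) (right_ne_zero_of_mul hDG0)]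
    omega
  obtain ⟨z0, hz0⟩ := hmk c hcc
  obtain ⟨zg, hzg⟩ := hgd _ hDG
  refine ⟨z0 + zg, fun z hz => ?_⟩
  obtain ⟨hG, C', hC'⟩ := hz0 z (by omega)
  have hDGz : GoodD ((∏ j, f j) * G) z c := by
    intro p hp hzp
    obtain ⟨h1, h2⟩ := hzg z (by omega) p hp hzp
    exact ⟨h1.trans (by omega), h2⟩
  have hG2 := (good2_of hDGz).2
  have hz4 := hG.four
  have hz2 := hG.two
  have hc1 := hG.one
  obtain ⟨Cc, K, y0, hC0, hK1, hcn⟩ := cnt3G hcnt cls hG hG2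
  obtain ⟨At, hAt0, hAt⟩ := tail_le (z := z) (by omega)
  obtain ⟨Kd, m, hKd⟩ := eval_le_all f
  have hrel' : ∀ t : ℤ, Fval cls a (fun l => (f l).eval t) 0 - Fval cls a (fun l => (f l).eval t) 1 =
      Fval cls a (fun l => (f l).eval t) 2 := by
    intro t
    have := congrArg (Polynomial.eval t) hrel
    rw [eval_sub, eval_mul, eval_mul, eval_mul, eval_C, eval_C, eval_C, eval_prod, eval_prod,
      eval_prod] at this
    exact this
  set B' : ℕ := (B + 2) * m + 1 with hB'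
  set y1 : ℕ := y0 + Kd + 3 with hy1
  -- the summand
  let r : ℤ → ℝ := fun w => SN (Fval cls a (fun l => (f l).eval w) 0)
    (Fval cls a (fun l => (f l).eval w) 1)
  have hr0 : ∀ w, 0 ≤ r w := fun w => SN_nonneg _ _
  suffices key : ∃ C2 : ℝ, ∀ θ : {θ : (ℤ × ℕ) × Finset ℕ // (1 ≤ θ.1.2 ∧ θ.1.1.natAbs ≤ θ.1.2 ^ B) ∧
      θ.2 ⊆ Icc 1 θ.1.2 ∧ ∀ t ∈ θ.2, (∀ j, (f j).eval (θ.1.1 + (t : ℤ)) ≠ 0) ∧
        Sft G z θ.1.2 (θ.1.1 + (t : ℤ))},
      ∑ t ∈ θ.1.2, r (θ.1.1.1 + (t : ℤ)) ≤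
        C2 * ((θ.1.1.2 : ℝ) * Real.exp (-Sp (fun p => (rho G p : ℝ)) z θ.1.1.2)) by
    obtain ⟨C2, hC2⟩ := key
    exact ⟨C2, fun N X hX hN T hT hT' => hC2 ⟨((N, X), T), ⟨hX, hN⟩, hT, hT'⟩⟩
  set GG : (J × Ty → ℕ) → ℝ := NBT (clsI cls) eI with hGdef
  have hG0 : ∀ s, 0 ≤ GG s := by
    intro s
    rw [hGdef]
    unfold NBT
    exact mul_nonneg (by positivity) (sum_nonneg fun _ _ => Nat.cast_nonneg _)
  have hcz : c ≤ z := by omega
  have hgn : ∀ {y' : ℕ} {s : J × Ty → ℕ} (_ : s ∈ Tup (J × Ty) z y') (i : J × Ty),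
      0 ≤ gp (rT cls a f z i) c (s i) := fun hs i =>
    gp_nonneg (rT_nonneg cls a f z i) hcz ((Pool.Agent.W405.RK2.mem_Tup.1 hs).1 i)
  refine hant (J × Ty) ℕ {θ : (ℤ × ℕ) × Finset ℕ // (1 ≤ θ.1.2 ∧ θ.1.1.natAbs ≤ θ.1.2 ^ B) ∧
      θ.2 ⊆ Icc 1 θ.1.2 ∧ ∀ t ∈ θ.2, (∀ j, (f j).eval (θ.1.1 + (t : ℤ)) ≠ 0) ∧
        Sft G z θ.1.2 (θ.1.1 + (t : ℤ))}
    (fun θ => θ.1.2)
    (fun θ => θ.1.1.2) (fun θ t => prt cls a f z (θ.1.1.1 + (t : ℤ)))
    (fun θ => (θ.1.1.2 : ℝ) * Real.exp (-Sp (fun p => (rho G p : ℝ)) z θ.1.1.2)) z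
    (fun y => Real.exp (Sp (fun p => rho (∏ j, f j) p) z y))
    (fun s => GG s * ∏ i, gp (rT cls a f z i) c (s i))
    (fun v => ∏ i, ((4 : ℝ) ^ (v i).primeFactors.card * (gp (rT cls a f z i) c (v i) / v i)))
    (fun u => ∏ i, ((c : ℝ) ^ (u i).primeFactors.card / (u i : ℝ)))
    (fun θ t => r (θ.1.1.1 + (t : ℤ)))
    (Cc * 4 ^ (z + 2) * Real.exp (c * At)) ((4 ^ B') ^ Fintype.card J * Real.exp c) (K + 2) y1
    (by omega) (fun y _ => Real.exp_pos _)
    (fun θ => θ.2.1.1) (fun θ => by positivity) (fun X0 => ?_) (fun θ t ht => ?_)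
    (fun θ t => hr0 _) (by positivity)
    (one_le_mul_of_one_le_of_one_le (one_le_pow₀ (one_le_pow₀ (by norm_num)))
      (Real.one_le_exp (Nat.cast_nonneg _))) (by omega)
    (fun y s hs => ⟨?_, ?_⟩) (fun y Y hzy u hu => ?_) (fun lam hlam => ?_)
    (fun lam hlam => ?_) (fun lam hlam => ?_) ?_
  · -- small scales
    refine ⟨(∑ N ∈ Icc (-((X0 : ℤ) ^ B)) ((X0 : ℤ) ^ B), ∑ t ∈ Icc 1 X0, r (N + (t : ℤ))) *
      Real.exp (Sp (fun p => (rho G p : ℝ)) z X0), ?_⟩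
    rintro ⟨⟨⟨N, X⟩, T⟩, ⟨hX, hN⟩, hT, hT'⟩ hle
    simp only at hX hN hT hT' hle ⊢
    have hX0 : X ^ B ≤ X0 ^ B := Nat.pow_le_pow_left hle B
    have hmem : N ∈ Icc (-((X0 : ℤ) ^ B)) ((X0 : ℤ) ^ B) := by
      rw [mem_Icc]
      have h1 : (N.natAbs : ℤ) ≤ (X0 : ℤ) ^ B := by exact_mod_cast hN.trans hX0
      omega
    have h1 : ∑ t ∈ T, r (N + (t : ℤ)) ≤ ∑ t ∈ Icc 1 X0, r (N + (t : ℤ)) := by
      refine sum_le_sum_of_subset_of_nonneg ?_ fun t _ _ => hr0 _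
      exact hT.trans (Icc_subset_Icc_right hle)
    have h2 : ∑ t ∈ Icc 1 X0, r (N + (t : ℤ)) ≤
        ∑ N ∈ Icc (-((X0 : ℤ) ^ B)) ((X0 : ℤ) ^ B), ∑ t ∈ Icc 1 X0, r (N + (t : ℤ)) :=
      single_le_sum (f := fun N : ℤ => ∑ t ∈ Icc 1 X0, r (N + (t : ℤ)))
        (fun _ _ => sum_nonneg fun _ _ => hr0 _) hmem
    have h3 : 0 ≤ ∑ N ∈ Icc (-((X0 : ℤ) ^ B)) ((X0 : ℤ) ^ B), ∑ t ∈ Icc 1 X0, r (N + (t : ℤ)) :=
      sum_nonneg fun _ _ => sum_nonneg fun _ _ => hr0 _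
    have h4 : (1 : ℝ) ≤ (X : ℝ) := by exact_mod_cast hX
    have h5 : Sp (fun p => (rho G p : ℝ)) z X ≤ Sp (fun p => (rho G p : ℝ)) z X0 := by
      unfold Sp
      refine sum_le_sum_of_subset_of_nonneg ?_ fun p _ _ =>
        div_nonneg (Nat.cast_nonneg _) (Nat.cast_nonneg _)
      intro p hp
      have := mem_PS'.1 hp
      exact mem_PS'.2 ⟨⟨this.1.1, this.1.2.trans hle⟩, this.2⟩
    have h6 : (1 : ℝ) ≤ Real.exp (Sp (fun p => (rho G p : ℝ)) z X0) *
        Real.exp (-Sp (fun p => (rho G p : ℝ)) z X) := by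
      rw [← Real.exp_add]
      exact Real.one_le_exp (by linarith)
    have h7 : (1 : ℝ) ≤ Real.exp (Sp (fun p => (rho G p : ℝ)) z X0) *
        (X * Real.exp (-Sp (fun p => (rho G p : ℝ)) z X)) := by
      have := mul_le_mul h4 h6 zero_le_one (by linarith : (0 : ℝ) ≤ X)
      calc (1 : ℝ) = 1 * 1 := by ring
        _ ≤ X * (Real.exp (Sp (fun p => (rho G p : ℝ)) z X0) *
            Real.exp (-Sp (fun p => (rho G p : ℝ)) z X)) := this
        _ = _ := by ring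
    rw [mul_assoc]
    exact (h1.trans h2).trans (le_mul_of_one_le_right h3 h7)
  · exact prt_Gd hG (θ.2.2.2 t ht).1
  · exact mul_nonneg (hG0 s) (prod_nonneg fun i _ => hgn hs i)
  · exact prod_nonneg fun i _ => mul_nonneg (by positivity)
      (div_nonneg (hgn hs i) (Nat.cast_nonneg _))
  · exact prod_nonneg fun i _ => by positivity
  · -- the first sum
    obtain ⟨A, hA⟩ := hrs (J × Ty) z c (rT cls a f z) GG
      (fun y => C' * Real.exp (Sp (fun p => rho (∏ j, f j) p) z y)) 4 lam (by omega)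
      (fun i p => ⟨rT_nonneg cls a f z i p, rT_le hG i p⟩) (by norm_num) hlam hG0
      (fun y hy s e hse => hsub (J × Ty) (clsI cls) eI z y (by omega) s e hse)
      (fun y hy => hC' y hy)
    refine ⟨A * C', fun y hy => ?_⟩
    have := hA y hy
    rw [mul_assoc]
    exact this
  · exact hrv (J × Ty) z c (rT cls a f z) 4 lam (by omega)
      (fun i p => ⟨rT_nonneg cls a f z i p, rT_le hG i p⟩) (by norm_num) hlam
  · exact hru (J × Ty) (c : ℝ) lam (by exact_mod_cast hc1) hlam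
  -- the local majorant
  rintro ⟨⟨⟨N, X⟩, T⟩, ⟨hX1, hN⟩, hT, hTT⟩ y Y k hy0 hzy hyK hk s hs v hv u hu h8 T' hT' hval
  simp only at hX1 hN hT hTT hyK hk h8 hT' hval ⊢
  have hy00 : y0 ≤ y := by omega
  have hyX : y ≤ X := le_trans (Nat.le_self_pow (by omega) y) hyK
  have hyK' : y ^ K ≤ X := (Nat.pow_le_pow_right (by omega) (by omega)).trans hyK
  have hy2 : y ^ 2 ≤ X := (Nat.pow_le_pow_right (by omega) (by omega)).trans hyK
  set g : Finset ℕ → ℝ := fun E => (NL (∏ i, s i) (LTs (clsI cls) eI s E) : ℝ) with hg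
  have hg0 : ∀ E, 0 ≤ g E := fun E => Nat.cast_nonneg _
  set ng : ℕ → Finset ℕ := fun t => negx cls (fun l => (f l).eval (N + (t : ℤ)))
    (S1 z y (fun l => (f l).eval (N + (t : ℤ)))) with hng
  have h1 : ∀ t ∈ T', r (N + (t : ℤ)) ≤
      4 ^ (z + 2) * ((4 ^ B') ^ Fintype.card J) ^ k *
        (∏ i, (4 : ℝ) ^ (v i).primeFactors.card) * g (ng t) := by
    intro t ht
    have htT := hT' ht
    have ht1 := hT htT
    have ht0 := (hTT t htT).1
    obtain ⟨hts, htv, _⟩ := hval t ht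
    have hsize : ∀ j, ((f j).eval (N + (t : ℤ))).natAbs ≤ X ^ B' := by
      intro j
      have e2 : t ≤ X := (mem_Icc.1 ht1).2
      have e5 : X ^ B ≤ X ^ (B + 1) := Nat.pow_le_pow_right hX1 (by omega)
      have e6 : X ≤ X ^ (B + 1) := Nat.le_self_pow (by omega) X
      have e8 : (N + (t : ℤ)).natAbs ≤ X ^ (B + 2) := by
        calc (N + (t : ℤ)).natAbs ≤ N.natAbs + t :=
              (Int.natAbs_add_le _ _).trans (by rw [Int.natAbs_natCast])
          _ ≤ X ^ (B + 1) + X ^ (B + 1) := Nat.add_le_add (hN.trans e5) (e2.trans e6)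
          _ = 2 * X ^ (B + 1) := by ring
          _ ≤ X * X ^ (B + 1) := Nat.mul_le_mul_right _ (by omega)
          _ = X ^ (B + 2) := by ring
      calc ((f j).eval (N + (t : ℤ))).natAbs ≤ Kd * (X ^ (B + 2)) ^ m :=
            hKd _ _ (Nat.one_le_pow _ _ hX1) e8 j
        _ ≤ X * (X ^ (B + 2)) ^ m := Nat.mul_le_mul_right _ (by omega)
        _ = X ^ B' := by rw [hB', ← pow_mul]; ring
    have hr := (rank3 hsel (cls := cls) hG ha ht0 (hrel' _) (y := y) (X := X) (k := k) (B := B')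
      hsize hX1 (by omega) hk).2
    rw [hts, htv] at hr
    exact hr
  have hneg : ∀ t ∈ T', ng t ∈ (P3 (clsI cls) s).powerset := by
    intro t ht
    have htT := hT' ht
    have ht1 := hT htT
    have ht0 := (hTT t htT).1
    obtain ⟨hts, htv, _⟩ := hval t ht
    rw [mem_powerset, hng]
    unfold negx
    refine (filter_subset _ _).trans ?_
    unfold P3
    have h5 : ∏ j ∈ univ.filter (fun j => cls j = 3),
        S1 z y (fun l => (f l).eval (N + (t : ℤ))) j =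
        ∏ i ∈ univ.filter (fun i => clsI cls i = 3), s i := by
      rw [prod_filter, prod_filter, Fintype.prod_prod_type]
      refine prod_congr rfl fun j _ => ?_
      unfold clsI
      by_cases h6 : cls j = 3
      · simp only [h6, if_true]
        rw [← S1_prod (cls := cls) (a := a) ht0 y j, hts]
      · simp [h6]
    rw [h5]
  have h2 : ∑ t ∈ T', g (ng t) =
      ∑ E ∈ (P3 (clsI cls) s).powerset,
        ((T'.filter (fun t : ℕ => ng t = E)).card : ℝ) * g E := by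
    rw [← sum_fiberwise_of_maps_to hneg]
    refine sum_congr rfl fun E _ => ?_
    rw [← nsmul_eq_mul, ← sum_const]
    refine sum_congr rfl fun t ht => ?_
    rw [(mem_filter.1 ht).2]
  set SG : ℝ := Real.exp (-Sp (fun p => (rho G p : ℝ)) z X) with hSG
  set Q : ℝ := Cc * X * (1 / 2) ^ (P3 (clsI cls) s).card *
      (∏ i, gp (rT cls a f z i) c (s i)) * (∏ i, gp (rT cls a f z i) c (v i) / v i) *
      (∏ i, (c : ℝ) ^ (u i).primeFactors.card / u i) *
      Real.exp (-Sp (fun p => rho (∏ j, f j) p) z y) *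
      (Real.exp (c * At) * (Real.exp c) ^ k * SG) with hQ
  have h8' : (∏ i, s i * v i * u i) ^ 8 ≤ X := h8
  have hGc : ∀ p : ℕ, p.Prime → z < p → rho G p ≤ c := fun p hp hzp =>
    (Nat.le_add_left _ _).trans (hG2 p hp hzp).1
  have hexpG := exp_G hGc hzy (hAt y X k hzy hk)
  have h3 : ∀ E ∈ (P3 (clsI cls) s).powerset,
      ((T'.filter (fun t : ℕ => ng t = E)).card : ℝ) * g E ≤ Q * g E := by
    intro E _
    refine mul_le_mul_of_nonneg_right ?_ (hg0 E)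
    refine (hcn N X y Y hy00 hzy hyK' s v u hs hv hu h8' E _ fun t ht => ?_).trans ?_
    · rw [mem_filter] at ht
      obtain ⟨ht', htE⟩ := ht
      have htT := hT' ht'
      obtain ⟨hts, htv, htu⟩ := hval t ht'
      refine ⟨hT htT, (hTT t htT).1, hts, htv, htu, htE, fun p hp => ?_⟩
      have hp' := mem_PS'.1 hp
      exact (hTT t htT).2 p hp'.2 hp'.1.1 ((Nat.pow_le_pow_left hp'.1.2 2).trans hy2)
    · rw [hQ]
      refine mul_le_mul_of_nonneg_left hexpG ?_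
      have n1 : 0 ≤ ∏ i, gp (rT cls a f z i) c (s i) := prod_nonneg fun i _ => hgn hs i
      have n2 : 0 ≤ ∏ i, gp (rT cls a f z i) c (v i) / v i :=
        prod_nonneg fun i _ => div_nonneg (hgn hv i) (Nat.cast_nonneg _)
      have n3 : 0 ≤ ∏ i, (c : ℝ) ^ (u i).primeFactors.card / u i :=
        prod_nonneg fun i _ => by positivity
      positivity
  calc ∑ t ∈ T', r (N + (t : ℤ))
      ≤ ∑ t ∈ T', 4 ^ (z + 2) * ((4 ^ B') ^ Fintype.card J) ^ k *
        (∏ i, (4 : ℝ) ^ (v i).primeFactors.card) * g (ng t) := sum_le_sum h1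
    _ = 4 ^ (z + 2) * ((4 ^ B') ^ Fintype.card J) ^ k *
        (∏ i, (4 : ℝ) ^ (v i).primeFactors.card) *
          ∑ E ∈ (P3 (clsI cls) s).powerset,
            ((T'.filter (fun t : ℕ => ng t = E)).card : ℝ) * g E := by
        rw [← mul_sum, h2]
    _ ≤ 4 ^ (z + 2) * ((4 ^ B') ^ Fintype.card J) ^ k *
        (∏ i, (4 : ℝ) ^ (v i).primeFactors.card) *
          ∑ E ∈ (P3 (clsI cls) s).powerset, Q * g E :=
        mul_le_mul_of_nonneg_left (sum_le_sum h3) (by positivity)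
    _ = _ := by
        have e1 : GG s = (1 / 2) ^ (P3 (clsI cls) s).card *
            ∑ E ∈ (P3 (clsI cls) s).powerset, g E := by
          rw [hGdef]
          rfl
        rw [← mul_sum, e1, hQ, Real.exp_neg (Sp (fun p => (rho (∏ j, f j) p : ℝ)) z y),
          prod_mul_distrib, mul_pow ((4 ^ B') ^ Fintype.card J)]
        ring

end

end Pool.Agent.TH841.TR
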