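import Mathlib
import Pool.Agent.TH841.TR.AvgX
import Pool.Agent.TH841.TR.Stm
import Pool.Agent.TH841.PT.PenF

/-!
# Project TR: pencils twisted by an arbitrary polynomial (adapted from PT/Pen, PT/PenP, PT/PenF)
-/

set_option autoImplicit false

namespace Pool.Agent.TH841.TR

open Finset Polynomial Pool.Agent.W262.RK Pool.Agent.TH841.PT

open Pool.Agent.H474R2.PG (rho)

open Pool.Agent.W307.SE (SN Sel SelR Loc SN_nonneg sel_fin)

/-- AV3X: the average of the order of the 2-Selmer group in a one-parameter family -/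
def AV3X : Prop := ∀ (J : Type) [Fintype J] [DecidableEq J] (cls : J → Fin 4) (a : Fin 3 → ℤ)
  (f : J → ℤ[X]) (sp : J → Bool) (B : ℕ), (∀ k, a k ≠ 0) → Irr f → Tri cls sp →
  (∀ j, cls j ≠ 3 → sp j = false → NSqg (f j) (kpol cls a f j 0) 1) →
  C (a 0) * ∏ l ∈ fs cls 0, f l - C (a 1) * ∏ l ∈ fs cls 1, f l = C (a 2) * ∏ l ∈ fs cls 2, f l →
  ∃ C2 : ℝ, ∀ (N : ℤ) (X : ℕ), 1 ≤ X → N.natAbs ≤ X ^ B →
    ∑ t ∈ (Icc 1 X).filter (fun t : ℕ => ∀ j, (f j).eval (N + (t : ℤ)) ≠ 0),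
      SN (Fval cls a (fun l => (f l).eval (N + (t : ℤ))) 0)
        (Fval cls a (fun l => (f l).eval (N + (t : ℤ))) 1) ≤ C2 * X

/-- AV3XG: the same over sifted arguments -/
def AV3XG : Prop := ∀ (J : Type) [Fintype J] [DecidableEq J] (cls : J → Fin 4) (a : Fin 3 → ℤ)
  (f : J → ℤ[X]) (sp : J → Bool) (B : ℕ), (∀ k, a k ≠ 0) → Irr f → Tri cls sp →
  (∀ j, cls j ≠ 3 → sp j = false → NSqg (f j) (kpol cls a f j 0) 1) →
  C (a 0) * ∏ l ∈ fs cls 0, f l - C (a 1) * ∏ l ∈ fs cls 1, f l = C (a 2) * ∏ l ∈ fs cls 2, f l →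
  ∀ G : ℤ[X], Squarefree (mQ ((∏ j, f j) * G)) →
    ∃ z0 : ℕ, ∀ z, z0 ≤ z → ∃ C2 : ℝ, ∀ (N : ℤ) (X : ℕ), 1 ≤ X → N.natAbs ≤ X ^ B →
      ∀ T : Finset ℕ, T ⊆ Icc 1 X → (∀ t ∈ T, (∀ j, (f j).eval (N + (t : ℤ)) ≠ 0) ∧
        Sft G z X (N + (t : ℤ))) →
      ∑ t ∈ T, SN (Fval cls a (fun l => (f l).eval (N + (t : ℤ))) 0)
          (Fval cls a (fun l => (f l).eval (N + (t : ℤ))) 1) ≤
        C2 * (X * Real.exp (-Sp (fun p => (rho G p : ℝ)) z X))

section

variable {n : Fin 3 → ℕ} {m : ℕ}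

/-- all the polynomials -/
noncomputable def allf (g : Fin m → ℤ[X]) (f : ∀ k : Fin 3, Fin (n k) → ℤ[X]) :
    (Σ k : Fin 3, Fin (n k)) ⊕ Fin m → ℤ[X] :=
  Sum.elim (fun x => f x.1 x.2) g

/-- the classes -/
def allc (n : Fin 3 → ℕ) (m : ℕ) : (Σ k : Fin 3, Fin (n k)) ⊕ Fin m → Fin 4 :=
  Sum.elim (fun x => x.1.castSucc) (fun _ => 3)

/-- `F_k = a_k ∏ g_i ∏ f_{k,i}` -/
noncomputable def FP (a : Fin 3 → ℤ) (g : Fin m → ℤ[X]) (f : ∀ k : Fin 3, Fin (n k) → ℤ[X])
    (k : Fin 3) : ℤ[X] := C (a k) * (∏ i, g i) * ∏ i, f k i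

lemma prod_allc {M : Type} [CommMonoid M] (F : (Σ k : Fin 3, Fin (n k)) ⊕ Fin m → M) (k : Fin 3) :
    ∏ l ∈ fs (allc n m) k, F l = (∏ i, F (Sum.inr i)) * ∏ i, F (Sum.inl ⟨k, i⟩) := by
  unfold fs
  rw [prod_filter, Fintype.prod_sum_type, mul_comm]
  congr 1
  · refine prod_congr rfl fun i _ => ?_
    rw [if_pos]
    exact Or.inr rfl
  · rw [Fintype.prod_sigma]
    rw [Finset.prod_eq_single k]
    · refine prod_congr rfl fun i _ => ?_
      rw [if_pos]
      exact Or.inl rfl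
    · intro l _ hl
      refine prod_eq_one fun i _ => ?_
      rw [if_neg]
      rintro (h | h)
      · exact hl (Fin.castSucc_injective _ h)
      · have h2 : (Fin.castSucc l : Fin 4) = 3 := h
        have h3 : ∀ l : Fin 3, (Fin.castSucc l : Fin 4) ≠ 3 := by decide
        exact h3 l h2
    · intro h
      exact absurd (mem_univ k) h

lemma card_allc (Q : (k : Fin 3) → Fin (n k) → Prop) [∀ k i, Decidable (Q k i)] (k : Fin 3) :
    (univ.filter (fun j => allc n m j = k.castSucc ∧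
      Sum.elim (fun x : Σ k : Fin 3, Fin (n k) => decide (Q x.1 x.2)) (fun _ => false) j =
        true)).card = (univ.filter (fun i => Q k i)).card := by
  have h1 : (univ.filter (fun j => allc n m j = k.castSucc ∧
      Sum.elim (fun x : Σ k : Fin 3, Fin (n k) => decide (Q x.1 x.2)) (fun _ => false) j =
        true)) = (univ.filter (fun i => Q k i)).image
      (fun i : Fin (n k) => (Sum.inl ⟨k, i⟩ : (Σ k : Fin 3, Fin (n k)) ⊕ Fin m)) := by
    ext j
    simp only [mem_filter, mem_univ, true_and, mem_image]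
    constructor
    · rintro ⟨h, hQ⟩
      rcases j with ⟨l, i⟩ | i
      · have h2 : l.castSucc = k.castSucc := h
        have h3 := Fin.castSucc_injective _ h2
        subst h3
        exact ⟨i, of_decide_eq_true hQ, rfl⟩
      · exact absurd hQ (by simp)
    · rintro ⟨i, hi, rfl⟩
      exact ⟨rfl, decide_eq_true hi⟩
  rw [h1, card_image_of_injective]
  intro i j hij
  have h2 := Sum.inl_injective hij
  simpa using h2

lemma card_allc' (k : Fin 3) :
    (univ.filter (fun j => allc n m j = k.castSucc)).card = n k := by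
  have h := card_allc (m := m) (fun _ _ => True) k (n := n)
  have h1 : (univ.filter (fun j => allc n m j = k.castSucc)) =
      (univ.filter (fun j => allc n m j = k.castSucc ∧
      Sum.elim (fun x : Σ k : Fin 3, Fin (n k) => decide True) (fun _ => false) j = true)) := by
    ext j
    simp only [mem_filter, mem_univ, true_and]
    constructor
    · intro h2
      refine ⟨h2, ?_⟩
      rcases j with x | i
      · simp
      · exfalso
        have h3 : ∀ l : Fin 3, (3 : Fin 4) ≠ l.castSucc := by decide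
        exact h3 k h2
    · exact fun h2 => h2.1
  rw [h1, h]
  simp

lemma card_allc3 : (univ.filter (fun j => allc n m j ≠ 3)).card = n 0 + n 1 + n 2 := by
  have h1 : (univ.filter (fun j => allc n m j ≠ 3)) =
      univ.filter (fun j => allc n m j = (0 : Fin 3).castSucc) ∪
      (univ.filter (fun j => allc n m j = (1 : Fin 3).castSucc) ∪
      univ.filter (fun j => allc n m j = (2 : Fin 3).castSucc)) := by
    ext j
    simp only [mem_filter, mem_univ, true_and, mem_union]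
    generalize allc n m j = x
    revert x
    decide
  rw [h1, card_union_of_disjoint, card_union_of_disjoint, card_allc', card_allc', card_allc']
  · ring
  · rw [disjoint_filter]
    intro j _ h2 h3
    rw [h2] at h3
    exact absurd h3 (by decide)
  · rw [disjoint_left]
    intro j h2 h3
    have h2' := (mem_filter.1 h2).2
    rcases mem_union.1 h3 with h4 | h4
    · have h5 := (mem_filter.1 h4).2
      rw [h2'] at h5
      exact absurd h5 (by decide)
    · have h5 := (mem_filter.1 h4).2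
      rw [h2'] at h5
      exact absurd h5 (by decide)

open Classical in
/-- the average of the order of the 2-Selmer group -/
theorem sum3 (h : AV3X) (a : Fin 3 → ℤ) (g : Fin m → ℤ[X]) (f : ∀ k : Fin 3, Fin (n k) → ℤ[X])
    (ha : ∀ k, a k ≠ 0) (hf : Irr (allf g f)) (hF : FP a g f 0 - FP a g f 1 = FP a g f 2)
    (sp : (Σ k : Fin 3, Fin (n k)) ⊕ Fin m → Bool) (hT : Tri (allc n m) sp)
    (hS : ∀ j, allc n m j ≠ 3 → sp j = false → NSqg (allf g f j) (kpol (allc n m) a (allf g f) j 0) 1)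
    (L : ℕ) :
    ∃ C : ℝ, ∀ (N : ℤ) (M : ℕ), 1 ≤ M → |N| ≤ (M : ℤ) ^ L →
      ∑ t ∈ (Ioc N (N + M)).filter (fun t => ∀ k, (FP a g f k).eval t ≠ 0),
        SN ((FP a g f 0).eval t) ((FP a g f 1).eval t) ≤ C * M := by
  have hP : ∀ k, C (a k) * ∏ l ∈ fs (allc n m) k, allf g f l = FP a g f k := by
    intro k
    rw [prod_allc]
    unfold FP
    rw [mul_assoc]
    rfl
  have hV : ∀ k t, Fval (allc n m) a (fun l => (allf g f l).eval t) k = (FP a g f k).eval t := by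
    intro k t
    rw [← hP k, eval_mul, eval_C, eval_prod]
    rfl
  obtain ⟨C, hC⟩ := h ((Σ k : Fin 3, Fin (n k)) ⊕ Fin m) (allc n m) a (allf g f) sp L ha hf hT hS
    (by rw [hP, hP, hP]; exact hF)
  simp only [hV] at hC
  refine ⟨C, fun N M hM hN => ?_⟩
  refine (to_Ioc (fun t => SN ((FP a g f 0).eval t) ((FP a g f 1).eval t))
    (fun t => SN_nonneg _ _) (fun t => ∀ k, (FP a g f k).eval t ≠ 0) N M).trans ?_
  refine (sum_le_sum_of_subset_of_nonneg ?_ fun t _ _ => SN_nonneg _ _).trans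
    (hC N M hM (natAbs_le_of hN))
  intro t ht
  rw [mem_filter] at ht ⊢
  refine ⟨ht.1, fun j => ?_⟩
  obtain ⟨k, hk⟩ : ∃ k, j ∈ fs (allc n m) k := by
    unfold fs
    rcases j with ⟨k, i⟩ | i
    · exact ⟨k, mem_filter.2 ⟨mem_univ _, Or.inl rfl⟩⟩
    · exact ⟨0, mem_filter.2 ⟨mem_univ _, Or.inr rfl⟩⟩
  have h2 := ht.2 k
  rw [← hP k, eval_mul, eval_prod] at h2
  exact (prod_ne_zero_iff.1 (right_ne_zero_of_mul h2)) j hk

/-- `U_k = a_k ∏ f_{k,i}` -/
noncomputable def UP (a : Fin 3 → ℤ) (f : ∀ k : Fin 3, Fin (n k) → ℤ[X]) (k : Fin 3) : ℤ[X] :=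
  C (a k) * ∏ i, f k i

/-- the irreducible factors of the three polynomials -/
def fp (f : ∀ k : Fin 3, Fin (n k) → ℤ[X]) : (Σ k : Fin 3, Fin (n k)) → ℤ[X] := fun x => f x.1 x.2

/-- the polynomial `- D u₁`, `- D u₀` or `D u₀`; the fibre has split multiplicative reduction at
`f k i` if it is a square modulo `f k i` -/
noncomputable def vp (D : ℤ[X]) (a : Fin 3 → ℤ) (f : ∀ k : Fin 3, Fin (n k) → ℤ[X]) (k : Fin 3) :
    ℤ[X] := C (sg4 k.castSucc) * (D * UP a f (cp4 k.castSucc))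

/-- `v` is a square modulo `f`, over the rationals -/
def SqM (f v : ℤ[X]) : Prop := ∃ q : ℚ[X], f.map (Int.castRingHom ℚ) ∣
  (q ^ 2 - v.map (Int.castRingHom ℚ))

open Classical in
/-- the condition on the numbers of the factors -/
def Bal (D : ℤ[X]) (a : Fin 3 → ℤ) (f : ∀ k : Fin 3, Fin (n k) → ℤ[X]) : Prop :=
  ∀ k, 2 * n k + (univ.filter (fun i => SqM (f k i) (vp D a f k))).card ≤ n 0 + n 1 + n 2

open Classical in
lemma tri_of {a : Fin 3 → ℤ} {f : ∀ k : Fin 3, Fin (n k) → ℤ[X]} {D : ℤ[X]} (hB : Bal D a f)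
    {m : ℕ} {g : Fin m → ℤ[X]} {a' : Fin 3 → ℤ} {D₂ : ℤ[X]}
    (hfac : ∀ k, D * UP a f k = FP a' g f k * D₂ ^ 2) :
    ∃ sp : (Σ k : Fin 3, Fin (n k)) ⊕ Fin m → Bool, Tri (allc n m) sp ∧
      ∀ j, allc n m j ≠ 3 → sp j = false →
        NSqg (allf g f j) (kpol (allc n m) a' (allf g f) j 0) 1 := by
  refine ⟨Sum.elim (fun x : Σ k : Fin 3, Fin (n k) => decide (SqM (f x.1 x.2) (vp D a f x.1)))
    (fun _ => false), ?_, ?_⟩
  · intro k hk
    obtain ⟨l, rfl⟩ : ∃ l : Fin 3, l.castSucc = k := by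
      revert k
      decide
    rw [card_allc (m := m) (fun k i => SqM (f k i) (vp D a f k)) l, card_allc', card_allc3]
    exact hB l
  · rintro (⟨k, i⟩ | i) h3 hsp
    · have h1 : ¬ SqM (f k i) (vp D a f k) := of_decide_eq_false hsp
      intro q hq
      apply h1
      refine ⟨q * D₂.map (Int.castRingHom ℚ), ?_⟩
      have hcl : allc n m (Sum.inl ⟨k, i⟩) = k.castSucc := rfl
      have hk : kpol (allc n m) a' (allf g f) (Sum.inl ⟨k, i⟩) 0 =
          C (sg4 k.castSucc) * FP a' g f (cp4 k.castSucc) := by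
        unfold kpol
        rw [if_neg h3, prod_allc, hcl, C_mul]
        unfold FP
        have e1 : ∀ i, allf g f (Sum.inr i) = g i := fun i => rfl
        have e2 : ∀ i, allf g f (Sum.inl ⟨cp4 k.castSucc, i⟩) = f (cp4 k.castSucc) i := fun i => rfl
        simp only [e1, e2]
        ring
      have hv : (q * D₂.map (Int.castRingHom ℚ)) ^ 2 - (vp D a f k).map (Int.castRingHom ℚ) =
          (q ^ 2 - C ((1 : ℤ) : ℚ) * (kpol (allc n m) a' (allf g f)
            (Sum.inl ⟨k, i⟩) 0).map (Int.castRingHom ℚ)) * (D₂.map (Int.castRingHom ℚ)) ^ 2 := by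
        rw [hk]
        unfold vp
        rw [hfac]
        simp only [Polynomial.map_mul, Polynomial.map_pow, Int.cast_one, map_one, one_mul]
        ring
      rw [hv]
      exact Dvd.dvd.mul_right hq _
    · exact absurd rfl h3

/-- the reduction to squarefree polynomials -/
theorem reduce (a : Fin 3 → ℤ) (f : ∀ k : Fin 3, Fin (n k) → ℤ[X])
    (ha : ∀ k, a k ≠ 0) (hf : Irr (fp f)) (hU : UP a f 0 - UP a f 1 = UP a f 2)
    (D : ℤ[X]) (hD : D ≠ 0) (hDf : ∀ k i, ¬ f k i ∣ D) :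
    ∃ (m : ℕ) (g : Fin m → ℤ[X]) (a' : Fin 3 → ℤ) (D₂ : ℤ[X]), (∀ k, a' k ≠ 0) ∧
      Irr (allf g f) ∧ FP a' g f 0 - FP a' g f 1 = FP a' g f 2 ∧
      (∀ k, D * UP a f k = FP a' g f k * D₂ ^ 2) ∧ ∀ i, g i ∣ D := by
  obtain ⟨D₁, D₂, hfac, hsq⟩ := exists_fac D hD
  obtain ⟨S, c, hc, hSc, hS⟩ := exists_irr D₁ hsq
  have hdvd : ∀ g ∈ S, g ∣ D := by
    intro g hg
    rw [hfac, hSc]
    exact ((dvd_prod_of_mem _ hg).mul_left _).mul_right _
  set e := S.equivFin with he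
  have hprod : ∏ i : Fin S.card, ((e.symm i : S) : ℤ[X]) = ∏ g ∈ S, g := by
    rw [← Finset.prod_coe_sort S (fun g => g)]
    exact Equiv.prod_comp e.symm (fun g : S => (g : ℤ[X]))
  have hFP : ∀ k, FP (fun k => c * a k) (fun i => ((e.symm i : S) : ℤ[X])) f k =
      D₁ * UP a f k := by
    intro k
    unfold FP UP
    rw [hprod, hSc, C_mul]
    ring
  refine ⟨S.card, fun i => ((e.symm i : S) : ℤ[X]), fun k => c * a k, D₂,
    fun k => mul_ne_zero hc (ha k), ⟨?_, ?_, ?_⟩, ?_, ?_, ?_⟩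
  · rintro (x | i)
    · exact hf.irr x
    · exact (hS _ (e.symm i).2).1
  · rintro (x | i)
    · exact hf.deg x
    · exact (hS _ (e.symm i).2).2
  · rintro (x | i) (x' | i') hne has
    · exact hf.assoc x x' (fun h => hne (by rw [h])) has
    · exact hDf x.1 x.2 (has.dvd.trans (hdvd _ (e.symm i').2))
    · exact hDf x'.1 x'.2 (has.symm.dvd.trans (hdvd _ (e.symm i).2))
    · have hgg : ((e.symm i : S) : ℤ[X]) ≠ ((e.symm i' : S) : ℤ[X]) := by
        intro h
        exact hne (congrArg Sum.inr (e.symm.injective (Subtype.ext h)))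
      have has' : Associated ((e.symm i : S) : ℤ[X]) ((e.symm i' : S) : ℤ[X]) := has
      have hg := (e.symm i).2
      have hg' := (e.symm i').2
      -- the square of `g` divides `D₁` up to a unit
      have h1 : ((e.symm i : S) : ℤ[X]) * ((e.symm i' : S) : ℤ[X]) ∣ D₁ := by
        rw [hSc]
        refine Dvd.dvd.mul_left ?_ _
        rw [← mul_prod_erase S (fun g => g) hg]
        exact mul_dvd_mul_left _ (dvd_prod_of_mem (fun g => g) (mem_erase.2 ⟨hgg.symm, hg'⟩))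
      have h2 : ((e.symm i : S) : ℤ[X]) * ((e.symm i : S) : ℤ[X]) ∣ D₁ :=
        (mul_dvd_mul_left _ has'.dvd).trans h1
      have h3 : ((e.symm i : S) : ℤ[X]).map (Int.castRingHom ℚ) *
          ((e.symm i : S) : ℤ[X]).map (Int.castRingHom ℚ) ∣ D₁.map (Int.castRingHom ℚ) := by
        rw [← Polynomial.map_mul]
        exact Polynomial.map_dvd _ h2
      have h4 := natDegree_eq_zero_of_isUnit (hsq _ h3)
      rw [natDegree_map_eq_of_injective (RingHom.injective_int (Int.castRingHom ℚ))] at h4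
      have := (hS _ hg).2
      omega
  · rw [hFP, hFP, hFP, ← mul_sub, hU]
  · intro k
    rw [hFP, hfac]
    ring
  · intro i
    exact hdvd _ (e.symm i).2

open Classical in
/-- **the average in a pencil twisted by an arbitrary polynomial** -/
theorem pen_all (h : AV3X) (a : Fin 3 → ℤ) (f : ∀ k : Fin 3, Fin (n k) → ℤ[X])
    (ha : ∀ k, a k ≠ 0) (hf : Irr (fp f)) (hU : UP a f 0 - UP a f 1 = UP a f 2)
    (D : ℤ[X]) (hD : D ≠ 0) (hDf : ∀ k i, ¬ f k i ∣ D) (hB : Bal D a f) (L : ℕ) :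
    ∃ C : ℝ, 0 ≤ C ∧ ∀ (N : ℤ) (M : ℕ), 1 ≤ M → |N| ≤ (M : ℤ) ^ L →
      ∑ t ∈ (Ioc N (N + M)).filter (fun t => ∀ k, (D * UP a f k).eval t ≠ 0),
        SN ((D * UP a f 0).eval t) ((D * UP a f 1).eval t) ≤ C * M := by
  obtain ⟨m, g, a', D₂, ha', hf', hF', hfac, _⟩ := reduce a f ha hf hU D hD hDf
  obtain ⟨sp, hT, hS⟩ := tri_of hB hfac
  obtain ⟨C, hC⟩ := sum3 h a' g f ha' hf' hF' sp hT hS L
  refine ⟨|C|, abs_nonneg _, fun N M hM hN => ?_⟩
  have h1 : ∑ t ∈ (Ioc N (N + M)).filter (fun t => ∀ k, (D * UP a f k).eval t ≠ 0),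
        SN ((D * UP a f 0).eval t) ((D * UP a f 1).eval t) ≤
      ∑ t ∈ (Ioc N (N + M)).filter (fun t => ∀ k, (FP a' g f k).eval t ≠ 0),
        SN ((FP a' g f 0).eval t) ((FP a' g f 1).eval t) := by
    refine (sum_le_sum fun t ht => ?_).trans (sum_le_sum_of_subset_of_nonneg (f := fun t =>
      SN ((FP a' g f 0).eval t) ((FP a' g f 1).eval t)) ?_ fun t _ _ => SN_nonneg _ _)
    · have ht' := (mem_filter.1 ht).2 0
      rw [hfac, eval_mul, eval_pow] at ht'
      have hw : D₂.eval t ≠ 0 := fun h0 => ht' (by rw [h0]; ring)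
      rw [hfac, hfac, eval_mul, eval_mul, eval_pow, SN_sq hw]
    · intro t ht
      rw [mem_filter] at ht ⊢
      refine ⟨ht.1, fun k h0 => ht.2 k ?_⟩
      rw [hfac, eval_mul, h0, zero_mul]
  refine h1.trans ((hC N M hM hN).trans ?_)
  exact mul_le_mul_of_nonneg_right (le_abs_self _) (Nat.cast_nonneg _)

end

section

variable {n : Fin 3 → ℕ} {r : ℕ} {G : Fin r → ℤ[X]}

open Classical in
/-- the small arguments -/
lemma small_pen (h : AV3X) (hG : Irr G) (a : Fin 3 → ℤ) (f : ∀ k : Fin 3, Fin (n k) → ℤ[X])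
    (ha : ∀ k, a k ≠ 0) (hf : Irr (fp f)) (hU : UP a f 0 - UP a f 1 = UP a f 2)
    (D : ℤ[X]) (hD : D ≠ 0) (hDf : ∀ k i, ¬ f k i ∣ D) (hB : Bal D a f) :
    ∃ C : ℝ, 0 ≤ C ∧ ∀ (N : ℤ) (M : ℕ), 2 ≤ M →
      ∑ t ∈ ((Ioc N (N + M)).filter (fun t => ∀ k, (D * UP a f k).eval t ≠ 0)).filter
        (fun t => ∃ i, ((G i).eval t).natAbs ^ 2 ≤ M),
        SN ((D * UP a f 0).eval t) ((D * UP a f 1).eval t) ≤ C * (M / (Real.log M) ^ r) := by
  obtain ⟨C, hC0, hC⟩ := pen_all h a f ha hf hU D hD hDf hB 1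
  choose K hK using fun i => grow (hG.deg i)
  obtain ⟨C2, hC20, hC2⟩ := sqrt_log r
  set Kt := ∑ i, K i with hKt
  refine ⟨C * (2 * Kt + 3) * C2, by positivity, fun N M hM => ?_⟩
  have hM1 : (1 : ℝ) ≤ M := by exact_mod_cast (by omega : 1 ≤ M)
  set R : ℕ := Nat.sqrt M + Kt with hR
  have h1 := hC (-(R : ℤ) - 1) (2 * R + 1) (by omega) (by
    rw [pow_one, abs_le]
    push_cast
    constructor <;> omega)
  have h2 : ∑ t ∈ ((Ioc N (N + M)).filter (fun t => ∀ k, (D * UP a f k).eval t ≠ 0)).filter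
        (fun t => ∃ i, ((G i).eval t).natAbs ^ 2 ≤ M),
        SN ((D * UP a f 0).eval t) ((D * UP a f 1).eval t) ≤
      ∑ t ∈ (Ioc (-(R : ℤ) - 1) (-(R : ℤ) - 1 + (2 * R + 1 : ℕ))).filter
        (fun t => ∀ k, (D * UP a f k).eval t ≠ 0),
        SN ((D * UP a f 0).eval t) ((D * UP a f 1).eval t) := by
    refine sum_le_sum_of_subset_of_nonneg ?_ fun t _ _ => SN_nonneg _ _
    intro t ht
    rw [mem_filter, mem_filter] at ht
    obtain ⟨⟨_, ht2⟩, i, hi⟩ := ht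
    rw [mem_filter, mem_Ioc]
    have h3 := hK i t
    have h4 : ((G i).eval t).natAbs ≤ Nat.sqrt M := Nat.le_sqrt'.2 hi
    have h5 : K i ≤ Kt := single_le_sum (f := K) (fun _ _ => Nat.zero_le _) (mem_univ i)
    have h6 : t.natAbs ≤ R := by omega
    refine ⟨⟨by omega, by push_cast; omega⟩, ht2⟩
  have h3 : (Nat.sqrt M : ℝ) ≤ Real.sqrt M := by
    apply Real.le_sqrt_of_sq_le
    exact_mod_cast Nat.sqrt_le' M
  have h4 : (1 : ℝ) ≤ Real.sqrt M := Real.one_le_sqrt.2 hM1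
  refine h2.trans (h1.trans ?_)
  have h5 : ((2 * R + 1 : ℕ) : ℝ) ≤ (2 * Kt + 3) * Real.sqrt M := by
    rw [hR]
    push_cast
    have h6 : (Kt : ℝ) ≤ Kt * Real.sqrt M := le_mul_of_one_le_right (Nat.cast_nonneg _) h4
    linarith
  calc C * ((2 * R + 1 : ℕ) : ℝ) ≤ C * ((2 * Kt + 3) * Real.sqrt M) :=
        mul_le_mul_of_nonneg_left h5 hC0
    _ ≤ C * ((2 * Kt + 3) * (C2 * (M / (Real.log M) ^ r))) :=
        mul_le_mul_of_nonneg_left (mul_le_mul_of_nonneg_left (hC2 M hM) (by positivity)) hC0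
    _ = _ := by ring

open Classical in
/-- **the average in a pencil at prime arguments** -/
theorem pen_prime (h : AV3X) (hg : AV3XG) (hG : Irr G) (a : Fin 3 → ℤ) (f : ∀ k : Fin 3, Fin (n k) → ℤ[X])
    (ha : ∀ k, a k ≠ 0) (hf : Irr (fp f)) (hU : UP a f 0 - UP a f 1 = UP a f 2)
    (hGf : ∀ i k j, ¬ Associated (f k j) (G i))
    (D : ℤ[X]) (hD : D ≠ 0) (hDf : ∀ k i, ¬ f k i ∣ D) (hDG : ∀ i, ¬ G i ∣ D)
    (hB : Bal D a f) (L : ℕ) :
    ∃ C : ℝ, 0 ≤ C ∧ ∀ (N : ℤ) (M : ℕ), 2 ≤ M → |N| ≤ (M : ℤ) ^ L →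
      ∑ t ∈ (Ioc N (N + M)).filter (fun t => (∀ k, (D * UP a f k).eval t ≠ 0) ∧ AllPr G t),
        SN ((D * UP a f 0).eval t) ((D * UP a f 1).eval t) ≤ C * (M / (Real.log M) ^ r) := by
  obtain ⟨m, g, a', D₂, ha', hf', hF', hfac, hgD⟩ := reduce a f ha hf hU D hD hDf
  have hP : ∀ k, Polynomial.C (a' k) * ∏ l ∈ fs (allc n m) k, allf g f l = FP a' g f k := by
    intro k
    rw [prod_allc]
    unfold FP
    rw [mul_assoc]
    rfl
  have hV : ∀ k t, Fval (allc n m) a' (fun l => (allf g f l).eval t) k =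
      (FP a' g f k).eval t := by
    intro k t
    rw [← hP k, eval_mul, eval_C, eval_prod]
    rfl
  have hall : Irr (Sum.elim (allf g f) G) := by
    refine irr_sum hf' hG ?_
    rintro (x | i) l has
    · exact hGf l x.1 x.2 has
    · exact hDG l (has.symm.dvd.trans (hgD i))
  have hsq : Squarefree (mQ ((∏ j, allf g f j) * ∏ i, G i)) := by
    have := hall.sqf
    rw [Fintype.prod_sum_type] at this
    exact this
  obtain ⟨sp, hT, hS⟩ := tri_of hB hfac
  obtain ⟨z1, hz1⟩ := hg ((Σ k : Fin 3, Fin (n k)) ⊕ Fin m) (allc n m) a' (allf g f) sp L ha' hf' hT hS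
    (by rw [hP, hP, hP]; exact hF') (∏ i, G i) hsq
  obtain ⟨z2, hz2⟩ := exp_prod GDPf.gdp hG
  obtain ⟨C1, hC1⟩ := hz1 (z1 + z2) (by omega)
  obtain ⟨C2, hC20, hC2⟩ := hz2 (z1 + z2) (by omega)
  obtain ⟨C3, hC30, hC3⟩ := small_pen h hG a f ha hf hU D hD hDf hB
  simp only [hV] at hC1
  refine ⟨|C1| * C2 + C3, by positivity, fun N M hM hN => ?_⟩
  have hM0 : (0 : ℝ) ≤ M := Nat.cast_nonneg _
  set S : ℤ → ℝ := fun t => SN ((D * UP a f 0).eval t) ((D * UP a f 1).eval t) with hS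
  have hS0 : ∀ t, 0 ≤ S t := fun t => SN_nonneg _ _
  -- the large part
  have hlarge : ∑ t ∈ (Ioc N (N + M)).filter (fun t => (∀ k, (D * UP a f k).eval t ≠ 0) ∧
      AllPr G t ∧ ∀ i, M < ((G i).eval t).natAbs ^ 2), S t ≤
        |C1| * C2 * (M / (Real.log M) ^ r) := by
    have h1 : ∑ t ∈ (Ioc N (N + M)).filter (fun t => (∀ k, (D * UP a f k).eval t ≠ 0) ∧
        AllPr G t ∧ ∀ i, M < ((G i).eval t).natAbs ^ 2), S t ≤
        ∑ t ∈ (Ioc N (N + M)).filter (fun t => (∀ k, (FP a' g f k).eval t ≠ 0) ∧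
        AllPr G t ∧ ∀ i, M < ((G i).eval t).natAbs ^ 2),
        SN ((FP a' g f 0).eval t) ((FP a' g f 1).eval t) := by
      refine (sum_le_sum fun t ht => ?_).trans (sum_le_sum_of_subset_of_nonneg (f := fun t =>
        SN ((FP a' g f 0).eval t) ((FP a' g f 1).eval t)) ?_ fun t _ _ => SN_nonneg _ _)
      · have ht' := (mem_filter.1 ht).2.1 0
        rw [hfac, eval_mul, eval_pow] at ht'
        have hw : D₂.eval t ≠ 0 := fun h0 => ht' (by rw [h0]; ring)
        rw [hS]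
        simp only
        rw [hfac, hfac, eval_mul, eval_mul, eval_pow, SN_sq hw]
      · intro t ht
        rw [mem_filter] at ht ⊢
        refine ⟨ht.1, fun k h0 => ht.2.1 k ?_, ht.2.2⟩
        rw [hfac, eval_mul, h0, zero_mul]
    refine h1.trans ((to_Ioc (fun t => SN ((FP a' g f 0).eval t) ((FP a' g f 1).eval t))
      (fun t => SN_nonneg _ _) (fun t => (∀ k, (FP a' g f k).eval t ≠ 0) ∧
        AllPr G t ∧ ∀ i, M < ((G i).eval t).natAbs ^ 2) N M).trans ?_)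
    refine (hC1 N M (by omega) (natAbs_le_of hN) _ (filter_subset _ _) ?_).trans ?_
    · intro t ht
      have ht' := (mem_filter.1 ht).2
      refine ⟨fun j => ?_, Sft_of ht'.2.1 ht'.2.2⟩
      obtain ⟨k, hk⟩ : ∃ k, j ∈ fs (allc n m) k := by
        unfold fs
        rcases j with ⟨k, i⟩ | i
        · exact ⟨k, mem_filter.2 ⟨mem_univ _, Or.inl rfl⟩⟩
        · exact ⟨0, mem_filter.2 ⟨mem_univ _, Or.inr rfl⟩⟩
      have h2 := ht'.1 k
      rw [← hP k, eval_mul, eval_prod] at h2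
      exact (prod_ne_zero_iff.1 (right_ne_zero_of_mul h2)) j hk
    · calc C1 * (M * Real.exp (-Sp (fun p => (rho (∏ i, G i) p : ℝ)) (z1 + z2) M))
          ≤ |C1| * (M * Real.exp (-Sp (fun p => (rho (∏ i, G i) p : ℝ)) (z1 + z2) M)) :=
            mul_le_mul_of_nonneg_right (le_abs_self _) (by positivity)
        _ ≤ |C1| * (M * (C2 / (Real.log M) ^ r)) :=
            mul_le_mul_of_nonneg_left (mul_le_mul_of_nonneg_left (hC2 M hM) hM0) (abs_nonneg _)
        _ = _ := by ring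
  have hsmall := hC3 N M hM
  refine le_trans ?_ ((add_le_add hlarge hsmall).trans (le_of_eq (by ring)))
  have hsub : (Ioc N (N + M)).filter (fun t => (∀ k, (D * UP a f k).eval t ≠ 0) ∧ AllPr G t) ⊆
      (Ioc N (N + M)).filter (fun t => (∀ k, (D * UP a f k).eval t ≠ 0) ∧
      AllPr G t ∧ ∀ i, M < ((G i).eval t).natAbs ^ 2) ∪
      ((Ioc N (N + M)).filter (fun t => ∀ k, (D * UP a f k).eval t ≠ 0)).filter
        (fun t => ∃ i, ((G i).eval t).natAbs ^ 2 ≤ M) := by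
    intro t ht
    rw [mem_filter] at ht
    rw [mem_union, mem_filter, mem_filter, mem_filter]
    by_cases hi : ∃ i, ((G i).eval t).natAbs ^ 2 ≤ M
    · exact Or.inr ⟨⟨ht.1, ht.2.1⟩, hi⟩
    · push Not at hi
      exact Or.inl ⟨ht.1, ht.2.1, ht.2.2, hi⟩
  refine (sum_le_sum_of_subset_of_nonneg hsub fun t _ _ => hS0 t).trans ?_
  have hnn : 0 ≤ ∑ t ∈ ((Ioc N (N + M)).filter (fun t => (∀ k, (D * UP a f k).eval t ≠ 0) ∧
      AllPr G t ∧ ∀ i, M < ((G i).eval t).natAbs ^ 2)) ∩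
      (((Ioc N (N + M)).filter (fun t => ∀ k, (D * UP a f k).eval t ≠ 0)).filter
        (fun t => ∃ i, ((G i).eval t).natAbs ^ 2 ≤ M)), S t :=
    sum_nonneg fun t _ => hS0 t
  have := sum_union_inter (s₁ := (Ioc N (N + M)).filter (fun t =>
      (∀ k, (D * UP a f k).eval t ≠ 0) ∧ AllPr G t ∧ ∀ i, M < ((G i).eval t).natAbs ^ 2))
      (s₂ := ((Ioc N (N + M)).filter (fun t => ∀ k, (D * UP a f k).eval t ≠ 0)).filter
        (fun t => ∃ i, ((G i).eval t).natAbs ^ 2 ≤ M)) (f := S)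
  linarith

end

end Pool.Agent.TH841.TR
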