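import Mathlib
import Pool.Agent.TH841.TR.PenX

/-!
# Project TR: pencils, ranks and Tate-Shafarevich groups (adapted from PT/PenF)
-/

set_option autoImplicit false

namespace Pool.Agent.TH841.TR

open Finset Polynomial Pool.Agent.TH841.PT

open Pool.Agent.W307.SE (SN SN_nonneg)

section

open Pool.Agent.TH841.SH.D (ShaTor HasDiv rk)

variable {n : Fin 3 → ℕ}

lemma ne_three {a : Fin 3 → ℤ} {f : ∀ k : Fin 3, Fin (n k) → ℤ[X]} {D : ℤ[X]}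
    (hU : UP a f 0 - UP a f 1 = UP a f 2) {t : ℤ} (h : ∀ k, (D * UP a f k).eval t ≠ 0) :
    (D * UP a f 0).eval t ≠ 0 ∧ (D * UP a f 1).eval t ≠ 0 ∧
      (D * UP a f 0).eval t ≠ (D * UP a f 1).eval t := by
  refine ⟨h 0, h 1, fun h0 => h 2 ?_⟩
  rw [← hU, mul_sub, eval_sub, h0, sub_self]

open Classical in
/-- pencils over the rationals -/
theorem penQ (h : AV3X) (a : Fin 3 → ℤ) (f : ∀ k : Fin 3, Fin (n k) → ℤ[X])
    (ha : ∀ k, a k ≠ 0) (hf : Irr (fp f)) (hU : UP a f 0 - UP a f 1 = UP a f 2)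
    (D : ℤ[X]) (hD : D ≠ 0) (hDf : ∀ k i, ¬ f k i ∣ D) (hB : Bal D a f) (L : ℕ) :
    ∃ C : ℝ, ∀ (N : ℤ) (M : ℕ), 1 ≤ M → |N| ≤ (M : ℤ) ^ L → ∀ P : Finset ℤ,
      P = (Ioc N (N + M)).filter (fun t => ∀ k, (D * UP a f k).eval t ≠ 0) →
      (∀ t ∈ P, ∀ k : ℕ, Finite (ShaTor (EQ ((D * UP a f 0).eval t) ((D * UP a f 1).eval t))
        (2 ^ k))) ∧
      (∀ k : ℕ, 1 ≤ k → ∑ t ∈ P, (2 : ℝ) ^ rk (EQ ((D * UP a f 0).eval t)
        ((D * UP a f 1).eval t)) * (Nat.card (ShaTor (EQ ((D * UP a f 0).eval t)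
        ((D * UP a f 1).eval t)) (2 ^ k)) : ℝ) ^ ((1 : ℝ) / k) ≤ C * M) ∧
      ∀ r q : ℕ, ((P.filter (fun t => r ≤ rk (EQ ((D * UP a f 0).eval t)
        ((D * UP a f 1).eval t)) ∧ HasDiv (EQ ((D * UP a f 0).eval t)
        ((D * UP a f 1).eval t)) q)).card : ℝ) ≤ C * M / 2 ^ (r + q) := by
  obtain ⟨C, _, hC⟩ := pen_all h a f ha hf hU D hD hDf hB L
  refine ⟨C, fun N M hM hN P hP => ?_⟩
  refine concl P (fun t => (D * UP a f 0).eval t) (fun t => (D * UP a f 1).eval t) (C * M)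
    (fun t ht => ?_) ?_
  · rw [hP] at ht
    exact ne_three hU (mem_filter.1 ht).2
  · rw [hP]
    exact hC N M hM hN

open Classical in
/-- pencils over the rationals at prime arguments -/
theorem penQP (h : AV3X) (hg : AV3XG) {r : ℕ} {G : Fin r → ℤ[X]} (hG : Irr G) (a : Fin 3 → ℤ) (f : ∀ k : Fin 3, Fin (n k) → ℤ[X])
    (ha : ∀ k, a k ≠ 0) (hf : Irr (fp f)) (hU : UP a f 0 - UP a f 1 = UP a f 2)
    (hGf : ∀ i k j, ¬ Associated (f k j) (G i))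
    (D : ℤ[X]) (hD : D ≠ 0) (hDf : ∀ k i, ¬ f k i ∣ D) (hDG : ∀ i, ¬ G i ∣ D)
    (hB : Bal D a f) (L : ℕ) :
    ∃ C : ℝ, ∀ (N : ℤ) (M : ℕ), 2 ≤ M → |N| ≤ (M : ℤ) ^ L → ∀ P : Finset ℤ,
      P = (Ioc N (N + M)).filter (fun t => (∀ k, (D * UP a f k).eval t ≠ 0) ∧ AllPr G t) →
      (∀ t ∈ P, ∀ k : ℕ, Finite (ShaTor (EQ ((D * UP a f 0).eval t) ((D * UP a f 1).eval t))
        (2 ^ k))) ∧
      (∀ k : ℕ, 1 ≤ k → ∑ t ∈ P, (2 : ℝ) ^ rk (EQ ((D * UP a f 0).eval t)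
        ((D * UP a f 1).eval t)) * (Nat.card (ShaTor (EQ ((D * UP a f 0).eval t)
        ((D * UP a f 1).eval t)) (2 ^ k)) : ℝ) ^ ((1 : ℝ) / k) ≤ C * (M / (Real.log M) ^ r)) ∧
      ∀ m q : ℕ, ((P.filter (fun t => m ≤ rk (EQ ((D * UP a f 0).eval t)
        ((D * UP a f 1).eval t)) ∧ HasDiv (EQ ((D * UP a f 0).eval t)
        ((D * UP a f 1).eval t)) q)).card : ℝ) ≤ C * (M / (Real.log M) ^ r) / 2 ^ (m + q) := by
  obtain ⟨C, _, hC⟩ := pen_prime h hg hG a f ha hf hU hGf D hD hDf hDG hB L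
  refine ⟨C, fun N M hM hN P hP => ?_⟩
  refine concl P (fun t => (D * UP a f 0).eval t) (fun t => (D * UP a f 1).eval t) _
    (fun t ht => ?_) ?_
  · rw [hP] at ht
    exact ne_three hU (mem_filter.1 ht).2.1
  · rw [hP]
    exact hC N M hM hN

end

section

open Pool.Agent.TH841.NF (EF Gen)

open Pool.Agent.TH841.NF.D (HasDiv crk rk)

variable {n : Fin 3 → ℕ}

open Classical in
/-- pencils over varying fields, for a set of arguments -/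
theorem penF_aux (a : Fin 3 → ℤ) (f : ∀ k : Fin 3, Fin (n k) → ℤ[X])
    (hU : UP a f 0 - UP a f 1 = UP a f 2) (s : ℕ) (D₀ : ℤ[X])
    (D : Fin s → ℤ[X]) (A B e1 e2 e3 : ℤ[X])
    (he : ∀ t x : ℤ, x ^ 3 + A.eval t * x + B.eval t =
      (x - e1.eval t) * (x - e2.eval t) * (x - e3.eval t))
    (h12 : e2 - e1 = D₀ * UP a f 0) (h13 : e3 - e1 = D₀ * UP a f 1)
    (P : Finset ℤ) (hP : ∀ t ∈ P, (∀ k, (D₀ * UP a f k).eval t ≠ 0) ∧ ∀ i, (D i).eval t ≠ 0)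
    (Q : ℝ) (hQ : ∀ T : Finset (Fin s), ∑ t ∈ P,
      SN (((D₀ * ∏ i ∈ T, D i) * UP a f 0).eval t) (((D₀ * ∏ i ∈ T, D i) * UP a f 1).eval t) ≤ Q)
    (F : ℤ → Type) [∀ t, Field (F t)] [∀ t, NumberField (F t)]
    (hF : ∀ t ∈ P, Gen (F t) (fun i => (D i).eval t)) (W : ∀ t, WeierstrassCurve (F t))
    (hW : ∀ t, W t = EF (A.eval t) (B.eval t) (F t)) :
    (∀ t ∈ P, BddAbove {q | HasDiv (W t) q}) ∧
      ∑ t ∈ P, ((2 : ℝ) ^ (rk (W t) + crk (W t))) ^ ((1 : ℝ) / 2 ^ s) ≤ Q ∧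
      ∀ m : ℕ, ((P.filter (fun t => m ≤ rk (W t) + crk (W t))).card : ℝ) ≤
        Q / ((2 : ℝ) ^ m) ^ ((1 : ℝ) / 2 ^ s) := by
  have hd1 : ∀ t, e2.eval t - e1.eval t = (D₀ * UP a f 0).eval t := fun t => by
    rw [← h12, eval_sub]
  have hd2 : ∀ t, e3.eval t - e1.eval t = (D₀ * UP a f 1).eval t := fun t => by
    rw [← h13, eval_sub]
  have hd3 : ∀ t, e2.eval t - e3.eval t = (D₀ * UP a f 2).eval t := fun t => by
    rw [← hU, mul_sub, eval_sub, ← hd1, ← hd2]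
    ring
  refine conclF P (fun t => A.eval t) (fun t => B.eval t) (fun t => e1.eval t)
    (fun t => e2.eval t) (fun t => e3.eval t) (fun t i => (D i).eval t) Q (fun t ht => ?_)
    (fun t _ => he t) (fun t ht => (hP t ht).2) (fun T => ?_) F hF W hW
  · have h0 := (hP t ht).1
    refine disc_of (he t) ?_ ?_ ?_
    · rw [hd1]
      exact h0 0
    · rw [hd2]
      exact h0 1
    · rw [hd3]
      exact h0 2
  · refine le_trans (le_of_eq (sum_congr rfl fun t _ => ?_)) (hQ T)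
    rw [hd1, hd2]
    simp only [eval_mul, eval_prod]
    congr 1 <;> ring

open Classical in
/-- pencils over varying fields -/
theorem penF (h : AV3X) (a : Fin 3 → ℤ) (f : ∀ k : Fin 3, Fin (n k) → ℤ[X])
    (ha : ∀ k, a k ≠ 0) (hf : Irr (fp f)) (hU : UP a f 0 - UP a f 1 = UP a f 2)
    (s : ℕ) (D₀ : ℤ[X]) (hD₀ : D₀ ≠ 0) (hDf₀ : ∀ k i, ¬ f k i ∣ D₀)
    (D : Fin s → ℤ[X]) (hD : ∀ i, D i ≠ 0) (hDf : ∀ l k i, ¬ f k i ∣ D l)
    (A B e1 e2 e3 : ℤ[X])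
    (he : ∀ t x : ℤ, x ^ 3 + A.eval t * x + B.eval t =
      (x - e1.eval t) * (x - e2.eval t) * (x - e3.eval t))
    (h12 : e2 - e1 = D₀ * UP a f 0) (h13 : e3 - e1 = D₀ * UP a f 1)
    (hB : ∀ T : Finset (Fin s), Bal (D₀ * ∏ i ∈ T, D i) a f) (L : ℕ) :
    ∃ C : ℝ, ∀ (N : ℤ) (M : ℕ), 1 ≤ M → |N| ≤ (M : ℤ) ^ L → ∀ P : Finset ℤ,
      P = (Ioc N (N + M)).filter (fun t => (∀ k, (D₀ * UP a f k).eval t ≠ 0) ∧
        ∀ i, (D i).eval t ≠ 0) →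
      ∀ (F : ℤ → Type) [∀ t, Field (F t)] [∀ t, NumberField (F t)],
      (∀ t ∈ P, Gen (F t) (fun i => (D i).eval t)) →
      ∀ W : ∀ t, WeierstrassCurve (F t), (∀ t, W t = EF (A.eval t) (B.eval t) (F t)) →
      (∀ t ∈ P, BddAbove {q | HasDiv (W t) q}) ∧
      ∑ t ∈ P, ((2 : ℝ) ^ (rk (W t) + crk (W t))) ^ ((1 : ℝ) / 2 ^ s) ≤ C * M ∧
      ∀ m : ℕ, ((P.filter (fun t => m ≤ rk (W t) + crk (W t))).card : ℝ) ≤
        C * M / ((2 : ℝ) ^ m) ^ ((1 : ℝ) / 2 ^ s) := by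
  have hne : ∀ T : Finset (Fin s), D₀ * ∏ i ∈ T, D i ≠ 0 := fun T =>
    mul_ne_zero hD₀ (prod_ne_zero_iff.2 fun i _ => hD i)
  choose C hC0 hC using fun T : Finset (Fin s) => pen_all h a f ha hf hU (D₀ * ∏ i ∈ T, D i)
    (hne T) (fun k i => prod_ndvd (hf.irr ⟨k, i⟩) (hDf₀ k i) (fun l => hDf l k i) T) (hB T) L
  refine ⟨∑ T, C T, fun N M hM hN P hP F _ _ hF W hW => ?_⟩
  refine penF_aux a f hU s D₀ D A B e1 e2 e3 he h12 h13 P (fun t ht => ?_) _ (fun T => ?_) F hF W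
    hW
  · rw [hP] at ht
    exact (mem_filter.1 ht).2
  · have h1 := hC T N M hM hN
    have h2 : C T * M ≤ (∑ T, C T) * M := mul_le_mul_of_nonneg_right
      (single_le_sum (f := C) (fun T _ => hC0 T) (mem_univ T)) (Nat.cast_nonneg _)
    refine le_trans ?_ (h1.trans h2)
    refine sum_le_sum_of_subset_of_nonneg ?_ fun t _ _ => SN_nonneg _ _
    intro t ht
    rw [hP, mem_filter] at ht
    rw [mem_filter]
    refine ⟨ht.1, fun k h0 => ?_⟩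
    rw [eval_mul, eval_mul, eval_prod] at h0
    have h3 := ht.2.1 k
    rw [eval_mul] at h3
    rcases mul_eq_zero.1 h0 with h4 | h4
    · rcases mul_eq_zero.1 h4 with h5 | h5
      · exact left_ne_zero_of_mul h3 h5
      · obtain ⟨i, _, hi⟩ := prod_eq_zero_iff.1 h5
        exact ht.2.2 i hi
    · exact right_ne_zero_of_mul h3 h4

open Classical in
/-- pencils over varying fields, at prime arguments -/
theorem penFP (h : AV3X) (hg : AV3XG) {r : ℕ} {G : Fin r → ℤ[X]} (hG : Irr G) (a : Fin 3 → ℤ)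
    (f : ∀ k : Fin 3, Fin (n k) → ℤ[X])
    (ha : ∀ k, a k ≠ 0) (hf : Irr (fp f)) (hU : UP a f 0 - UP a f 1 = UP a f 2)
    (hGf : ∀ i k j, ¬ Associated (f k j) (G i))
    (s : ℕ) (D₀ : ℤ[X]) (hD₀ : D₀ ≠ 0) (hDf₀ : ∀ k i, ¬ f k i ∣ D₀) (hDG₀ : ∀ i, ¬ G i ∣ D₀)
    (D : Fin s → ℤ[X]) (hD : ∀ i, D i ≠ 0) (hDf : ∀ l k i, ¬ f k i ∣ D l)
    (hDG : ∀ l i, ¬ G i ∣ D l)
    (A B e1 e2 e3 : ℤ[X])
    (he : ∀ t x : ℤ, x ^ 3 + A.eval t * x + B.eval t =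
      (x - e1.eval t) * (x - e2.eval t) * (x - e3.eval t))
    (h12 : e2 - e1 = D₀ * UP a f 0) (h13 : e3 - e1 = D₀ * UP a f 1)
    (hB : ∀ T : Finset (Fin s), Bal (D₀ * ∏ i ∈ T, D i) a f) (L : ℕ) :
    ∃ C : ℝ, ∀ (N : ℤ) (M : ℕ), 2 ≤ M → |N| ≤ (M : ℤ) ^ L → ∀ P : Finset ℤ,
      P = (Ioc N (N + M)).filter (fun t => ((∀ k, (D₀ * UP a f k).eval t ≠ 0) ∧
        ∀ i, (D i).eval t ≠ 0) ∧ AllPr G t) →
      ∀ (F : ℤ → Type) [∀ t, Field (F t)] [∀ t, NumberField (F t)],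
      (∀ t ∈ P, Gen (F t) (fun i => (D i).eval t)) →
      ∀ W : ∀ t, WeierstrassCurve (F t), (∀ t, W t = EF (A.eval t) (B.eval t) (F t)) →
      (∀ t ∈ P, BddAbove {q | HasDiv (W t) q}) ∧
      ∑ t ∈ P, ((2 : ℝ) ^ (rk (W t) + crk (W t))) ^ ((1 : ℝ) / 2 ^ s) ≤
        C * (M / (Real.log M) ^ r) ∧
      ∀ m : ℕ, ((P.filter (fun t => m ≤ rk (W t) + crk (W t))).card : ℝ) ≤
        C * (M / (Real.log M) ^ r) / ((2 : ℝ) ^ m) ^ ((1 : ℝ) / 2 ^ s) := by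
  have hne : ∀ T : Finset (Fin s), D₀ * ∏ i ∈ T, D i ≠ 0 := fun T =>
    mul_ne_zero hD₀ (prod_ne_zero_iff.2 fun i _ => hD i)
  choose C hC0 hC using fun T : Finset (Fin s) => pen_prime h hg hG a f ha hf hU hGf
    (D₀ * ∏ i ∈ T, D i)
    (hne T) (fun k i => prod_ndvd (hf.irr ⟨k, i⟩) (hDf₀ k i) (fun l => hDf l k i) T)
    (fun i => prod_ndvd (hG.irr i) (hDG₀ i) (fun l => hDG l i) T) (hB T) L
  refine ⟨∑ T, C T, fun N M hM hN P hP F _ _ hF W hW => ?_⟩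
  have hM0 : 0 ≤ (M : ℝ) / (Real.log M) ^ r :=
    div_nonneg (Nat.cast_nonneg _) (pow_nonneg (Real.log_natCast_nonneg _) _)
  refine penF_aux a f hU s D₀ D A B e1 e2 e3 he h12 h13 P (fun t ht => ?_) _ (fun T => ?_) F hF W
    hW
  · rw [hP] at ht
    exact (mem_filter.1 ht).2.1
  · have h1 := hC T N M hM hN
    have h2 : C T * (M / (Real.log M) ^ r) ≤ (∑ T, C T) * (M / (Real.log M) ^ r) :=
      mul_le_mul_of_nonneg_right
        (single_le_sum (f := C) (fun T _ => hC0 T) (mem_univ T)) hM0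
    refine le_trans ?_ (h1.trans h2)
    refine sum_le_sum_of_subset_of_nonneg ?_ fun t _ _ => SN_nonneg _ _
    intro t ht
    rw [hP, mem_filter] at ht
    rw [mem_filter]
    refine ⟨ht.1, fun k h0 => ?_, ht.2.2⟩
    rw [eval_mul, eval_mul, eval_prod] at h0
    have h3 := ht.2.1.1 k
    rw [eval_mul] at h3
    rcases mul_eq_zero.1 h0 with h4 | h4
    · rcases mul_eq_zero.1 h4 with h5 | h5
      · exact left_ne_zero_of_mul h3 h5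
      · obtain ⟨i, _, hi⟩ := prod_eq_zero_iff.1 h5
        exact ht.2.1.2 i hi
    · exact right_ne_zero_of_mul h3 h4

end

end Pool.Agent.TH841.TR
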