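import Mathlib
import Pool.Agent.TH841.TR.Stm

/-!
# Project TR: the symbols of an unlinked set of variables (job TR-SYMD, helper416 for helper841)
-/

set_option autoImplicit false
set_option linter.unusedSectionVars false

namespace Pool.Agent.TH841.TR.SYMDf

open Finset Pool.Agent.W262.RK Pool.Agent.TH841.PT Pool.Agent.TH841.TR

variable {ι : Type} [Fintype ι] [DecidableEq ι]

/-- the sign -/
def sg (b : Bool) : ℝ := if b then -1 else 1

/-- the sign of a pair -/
def sg2 (b b' : Bool) : ℝ := if b && b' then -1 else 1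

lemma abs_sg2 (b b' : Bool) : |sg2 b b'| ≤ 1 := by
  unfold sg2
  split_ifs <;> simp

lemma sg_eq {m : ℕ} (hm : Odd m) : sg (decide (m % 4 = 3)) = x4 true m := by
  unfold sg x4
  rcases Nat.odd_mod_four_iff.1 (Nat.odd_iff.1 hm) with h | h
  · rw [ZMod.χ₄_nat_one_mod_four h]; simp [h]
  · rw [ZMod.χ₄_nat_three_mod_four h]; simp [h]

lemma x4_eq {m n : ℕ} (hm : Odd m) :
    x4 (decide (n % 4 = 3)) m = sg2 (decide (n % 4 = 3)) (decide (m % 4 = 3)) := by
  have h1 := sg_eq hm
  unfold sg2
  cases h : decide (n % 4 = 3)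
  · simp [x4]
  · rw [← h1]
    simp [sg]

/-- expansion of functions of signs -/
lemma fourier (T : Finset ι) : ∀ ε : (ι → Bool) → ℝ, (∀ v, |ε v| ≤ 1) →
    (∀ v v', (∀ i ∈ T, v i = v' i) → ε v = ε v') →
    ∃ c : Finset ι → ℝ, (∀ S, |c S| ≤ 1) ∧
      ∀ v, ε v = ∑ S ∈ T.powerset, c S * ∏ i ∈ S, sg (v i) := by
  induction T using Finset.induction_on with
  | empty =>
    intro ε hε hT
    refine ⟨fun _ => ε (fun _ => false), fun _ => hε _, fun v => ?_⟩
    simp only [powerset_empty, sum_singleton, prod_empty, mul_one]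
    exact hT v _ (by simp)
  | insert a T ha ih =>
    intro ε hε hT
    have hdep : ∀ (b : Bool) (v v' : ι → Bool), (∀ i ∈ T, v i = v' i) →
        ε (Function.update v a b) = ε (Function.update v' a b) := by
      intro b v v' h
      apply hT
      intro i hi
      rcases mem_insert.1 hi with rfl | hi'
      · simp
      · have hia : i ≠ a := fun h => ha (h ▸ hi')
        rw [Function.update_of_ne hia, Function.update_of_ne hia, h i hi']
    obtain ⟨c0, hc0, h0⟩ := ih
      (fun v => (ε (Function.update v a false) + ε (Function.update v a true)) / 2)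
      (by
        intro v
        have h1 := abs_le.1 (hε (Function.update v a false))
        have h2 := abs_le.1 (hε (Function.update v a true))
        rw [abs_le]
        constructor <;> linarith)
      (by
        intro v v' h
        rw [hdep false v v' h, hdep true v v' h])
    obtain ⟨c1, hc1, h1⟩ := ih
      (fun v => (ε (Function.update v a false) - ε (Function.update v a true)) / 2)
      (by
        intro v
        have h1 := abs_le.1 (hε (Function.update v a false))
        have h2 := abs_le.1 (hε (Function.update v a true))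
        rw [abs_le]
        constructor <;> linarith)
      (by
        intro v v' h
        rw [hdep false v v' h, hdep true v v' h])
    refine ⟨fun S => if a ∈ S then c1 (S.erase a) else c0 S, fun S => ?_, fun v => ?_⟩
    · simp only
      split_ifs
      · exact hc1 _
      · exact hc0 _
    · rw [sum_powerset_insert ha]
      have e1 : ∑ S ∈ T.powerset, (if a ∈ S then c1 (S.erase a) else c0 S) * ∏ i ∈ S, sg (v i) =
          (ε (Function.update v a false) + ε (Function.update v a true)) / 2 := by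
        rw [h0 v]
        apply sum_congr rfl
        intro S hS
        rw [if_neg (fun h => ha (mem_powerset.1 hS h))]
      have e2 : ∑ S ∈ T.powerset, (if a ∈ insert a S then c1 ((insert a S).erase a)
          else c0 (insert a S)) * ∏ i ∈ insert a S, sg (v i) =
          sg (v a) * ((ε (Function.update v a false) - ε (Function.update v a true)) / 2) := by
        rw [h1 v, mul_sum]
        apply sum_congr rfl
        intro S hS
        have haS : a ∉ S := fun h => ha (mem_powerset.1 hS h)
        rw [if_pos (mem_insert_self a S), erase_insert haS, prod_insert haS]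
        ring
      rw [e1, e2]
      rcases hv : v a with _ | _
      · have : Function.update v a false = v := by rw [← hv]; exact Function.update_eq_self a v
        rw [this]
        simp only [sg, Bool.false_eq_true, if_false]
        ring
      · have : Function.update v a true = v := by rw [← hv]; exact Function.update_eq_self a v
        rw [this]
        simp only [sg, if_true]
        ring

/-- the symbols inside of `F` -/
lemma inside (L : ι → ι → Bool) (F T : Finset ι) (hL : ∀ i, L i i = false)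
    (hF : ∀ i ∈ F, ∀ j ∈ F, L i j = L j i)
    (hT : ∀ i ∈ F, ∀ j ∈ F, L i j = true → i ∈ T) (s : Finset ι) : s ⊆ F →
    ∃ ε : (ι → Bool) → ℝ, (∀ v, |ε v| ≤ 1) ∧
    (∀ v v', (∀ i ∈ T, v i = v' i) → ε v = ε v') ∧
    ∀ d : ι → ℕ, (∀ i ∈ F, Odd (d i)) → (∀ i ∈ F, ∀ j ∈ F, i ≠ j → (d i).Coprime (d j)) →
      ∏ i ∈ s, ∏ j ∈ s, (if L i j then Jr (d i) (d j) else 1) =
        ε (fun i => decide (d i % 4 = 3)) := by
  induction s using Finset.induction_on with
  | empty =>
    intro _
    exact ⟨fun _ => 1, by simp, fun _ _ _ => rfl, fun d _ _ => by simp⟩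
  | insert a s ha ih =>
    intro hs
    obtain ⟨ε, h1, h2, h3⟩ := ih ((subset_insert a s).trans hs)
    have haF : a ∈ F := hs (mem_insert_self a s)
    have hsF : ∀ j ∈ s, j ∈ F := fun j hj => hs (mem_insert_of_mem hj)
    refine ⟨fun v => (∏ j ∈ s, if L a j then sg2 (v a) (v j) else 1) * ε v, ?_, ?_, ?_⟩
    · intro v
      simp only
      rw [abs_mul]
      apply mul_le_one₀ _ (abs_nonneg _) (h1 v)
      apply abs_prod_le_one
      intro j _
      split_ifs
      · exact abs_sg2 _ _
      · simp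
    · intro v v' h
      simp only
      rw [h2 v v' h]
      congr 1
      apply prod_congr rfl
      intro j hj
      rcases hl : L a j with _ | _
      · simp
      · rw [h a (hT a haF j (hsF j hj) hl),
          h j (hT j (hsF j hj) a haF (by rw [hF j (hsF j hj) a haF]; exact hl))]
    · intro d hd hc
      rw [prod_insert ha, prod_insert ha, hL a]
      simp only [Bool.false_eq_true, if_false, one_mul]
      have e1 : ∏ i ∈ s, ∏ j ∈ insert a s, (if L i j then Jr (d i) (d j) else 1) =
          (∏ i ∈ s, (if L i a then Jr (d i) (d a) else 1)) *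
            ∏ i ∈ s, ∏ j ∈ s, (if L i j then Jr (d i) (d j) else 1) := by
        rw [← prod_mul_distrib]
        exact prod_congr rfl fun i _ => by rw [prod_insert ha]
      rw [e1, h3 d hd hc, ← mul_assoc, ← prod_mul_distrib]
      congr 1
      apply prod_congr rfl
      intro j hj
      have hja : j ≠ a := fun h => ha (h ▸ hj)
      rw [hF j (hsF j hj) a haF]
      rcases hl : L a j with _ | _
      · simp
      · simp only [if_true]
        rw [recip (hd a haF) (hd j (hsF j hj)), ← x4_eq (hd j (hsF j hj))]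
        have := Jr_sq (hc j (hsF j hj) a haF hja)
        linear_combination (x4 (decide (d a % 4 = 3)) (d j)) * this

/-- the symbols between `i` and the fixed variables -/
lemma mixed (L : ι → ι → Bool) (i : ι) (e : ι → ℕ) (s : Finset ι) (he : ∀ w ∈ s, Odd (e w)) :
    ∃ t : Bool, ((∀ w ∈ s, e w ≠ 1 → L i w = false ∧ L w i = false) → t = false) ∧
    ∀ m : ℕ, Odd m → (∀ w ∈ s, m.Coprime (e w)) →
      ∏ w ∈ s, ((if L i w then Jr m (e w) else 1) * (if L w i then Jr (e w) m else 1)) =
        Jr m (∏ w ∈ s.filter (fun w => L i w ≠ L w i), e w) * x4 t m := by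
  induction s using Finset.induction_on with
  | empty =>
    exact ⟨false, fun _ => rfl, fun m _ _ => by simp [Jr_one_right, x4]⟩
  | insert a s ha ih =>
    obtain ⟨t, ht0, ht⟩ := ih fun w hw => he w (mem_insert_of_mem hw)
    have hea := he a (mem_insert_self a s)
    have hP : ∏ b ∈ s.filter (fun b => L i b ≠ L b i), e b ≠ 0 :=
      prod_ne_zero_iff.2 fun b hb => (he b (mem_insert_of_mem (mem_filter.1 hb).1)).pos.ne'
    refine ⟨xor (L a i && decide (e a % 4 = 3)) t, ?_, fun m hm hc => ?_⟩
    · intro h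
      rw [ht0 fun w hw => h w (mem_insert_of_mem hw)]
      by_cases h1 : e a = 1
      · rw [h1]; simp
      · rw [(h a (mem_insert_self a s) h1).2]; simp
    · rw [prod_insert ha, ht m hm (fun w hw => hc w (mem_insert_of_mem hw)), filter_insert]
      have hrec := recip hea hm
      have hsq := Jr_sq (hc a (mem_insert_self a s))
      rw [← x4_mul hm]
      rcases h1 : L i a with _ | _ <;> rcases h2 : L a i with _ | _
      · simp [x4]
      · simp only [Bool.false_eq_true, if_false, if_true, one_mul, ne_eq, not_false_eq_true,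
          Bool.true_and, reduceCtorEq]
        rw [prod_insert (by simp [ha]), Jr_mul_right _ hea.pos.ne' hP, hrec]
        ring
      · simp only [Bool.false_eq_true, if_false, if_true, mul_one, ne_eq, not_false_eq_true,
          Bool.false_and, reduceCtorEq]
        rw [prod_insert (by simp [ha]), Jr_mul_right _ hea.pos.ne' hP]
        simp only [x4, Bool.false_eq_true, if_false]
        ring
      · simp only [if_true, ne_eq, not_true_eq_false, if_false, Bool.true_and]
        rw [hrec]
        linear_combination (x4 (decide (e a % 4 = 3)) m *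
          (Jr m (∏ b ∈ s.filter (fun b => L i b ≠ L b i), e b) * x4 t m)) * hsq

lemma Jr_one_left (n : ℕ) : Jr 1 n = 1 := by simp [Jr, jacobiSym.one_left]

lemma Jr_prod_left (r : ℕ) (s : Finset ℕ) :
    Jr ((∏ p ∈ s, p : ℕ) : ℤ) r = ∏ p ∈ s, Jr p r := by
  induction s using Finset.induction_on with
  | empty => simp [Jr_one_left]
  | insert a s ha ih =>
    rw [prod_insert ha, prod_insert ha, ← ih]
    push_cast
    unfold Jr
    rw [jacobiSym.mul_left]
    push_cast
    rfl

lemma x4_prod (e : Bool) (s : Finset ℕ) : x4 e (∏ p ∈ s, p) = ∏ p ∈ s, x4 e p := by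
  unfold x4
  cases e
  · simp
  · simp only [if_true]
    rw [Nat.cast_prod, map_prod, Int.cast_prod]

/-- multiplicativity -/
lemma mult (a : ℕ → ℝ) (c r : ℕ) (e : Bool) {m : ℕ} (hm : Squarefree m) :
    gp a c m * (Jr m r * x4 e m) =
      ∏ p ∈ m.primeFactors, a p / ((p : ℝ) - c) * (Jr p r * x4 e p) := by
  rw [prod_mul_distrib, prod_mul_distrib]
  unfold gp
  congr 1
  rw [← Jr_prod_left, ← x4_prod, Nat.prod_primeFactors_of_squarefree hm]

/-- splitting of a double product -/
lemma split_prod (F : Finset ι) (G : ι → ι → ℝ) :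
    ∏ i, ∏ j, G i j = (∏ i ∈ F, ∏ j ∈ F, G i j) * (∏ i ∈ F, ∏ w ∈ Fᶜ, (G i w * G w i)) *
      ∏ i ∈ Fᶜ, ∏ j ∈ Fᶜ, G i j := by
  have h1 : ∀ i, ∏ j, G i j = (∏ j ∈ F, G i j) * ∏ j ∈ Fᶜ, G i j := fun i =>
    (prod_mul_prod_compl F (G i)).symm
  have h2 : ∏ i ∈ Fᶜ, ∏ j ∈ F, G i j = ∏ i ∈ F, ∏ w ∈ Fᶜ, G w i := prod_comm
  rw [← prod_mul_prod_compl F (fun i => ∏ j, G i j)]
  simp only [h1, prod_mul_distrib]
  rw [h2]
  ring

/-- the value of the summand -/
lemma value (a : ι → ℕ → ℝ) (L : ι → ι → Bool) (c : ℕ) (F : Finset ι) (e : ι → ℕ)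
    (t : ι → Bool)
    (ht : ∀ i, ∀ m : ℕ, Odd m → (∀ w ∈ Fᶜ, m.Coprime (e w)) →
      ∏ w ∈ Fᶜ, ((if L i w then Jr m (e w) else 1) * (if L w i then Jr (e w) m else 1)) =
        Jr m (∏ w ∈ Fᶜ.filter (fun w => L i w ≠ L w i), e w) * x4 (t i) m)
    (ε : (ι → Bool) → ℝ)
    (hε : ∀ d : ι → ℕ, (∀ i ∈ F, Odd (d i)) →
      (∀ i ∈ F, ∀ j ∈ F, i ≠ j → (d i).Coprime (d j)) →
      ∏ i ∈ F, ∏ j ∈ F, (if L i j then Jr (d i) (d j) else 1) =
        ε (fun i => decide (d i % 4 = 3)))
    (d : ι → ℕ) (hd : ∀ i, Odd (d i)) (hde : ∀ w, w ∉ F → d w = e w)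
    (hc : ∀ i j, i ≠ j → (d i).Coprime (d j)) :
    (∏ i, gp (a i) c (d i)) * Pool.Agent.W262.RK.Sym L (fun _ => 1) d =
      ((∏ w ∈ Fᶜ, gp (a w) c (e w)) *
        ∏ i ∈ Fᶜ, ∏ j ∈ Fᶜ, (if L i j then Jr (e i) (e j) else 1)) *
      (ε (fun i => decide (d i % 4 = 3)) * ∏ i ∈ F, (gp (a i) c (d i) *
        (Jr (d i) (∏ w ∈ Fᶜ.filter (fun w => L i w ≠ L w i), e w) * x4 (t i) (d i)))) := by
  have h1 : ∏ i, gp (a i) c (d i) =
      (∏ i ∈ F, gp (a i) c (d i)) * ∏ w ∈ Fᶜ, gp (a w) c (e w) := by
    rw [← prod_mul_prod_compl F]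
    congr 1
    exact prod_congr rfl fun w hw => by rw [hde w (mem_compl.1 hw)]
  have h2 : Pool.Agent.W262.RK.Sym L (fun _ => 1) d = (∏ i ∈ F, ∏ j ∈ F, (if L i j then Jr (d i) (d j) else 1)) *
      (∏ i ∈ F, ∏ w ∈ Fᶜ, ((if L i w then Jr (d i) (e w) else 1) *
        (if L w i then Jr (e w) (d i) else 1))) *
      ∏ i ∈ Fᶜ, ∏ j ∈ Fᶜ, (if L i j then Jr (e i) (e j) else 1) := by
    unfold Pool.Agent.W262.RK.Sym
    rw [split_prod F (fun i j => if L i j then Jr (d i) (d j) else 1)]
    simp only [Jr_one_left, prod_const_one, mul_one]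
    congr 1
    · congr 1
      refine prod_congr rfl fun i _ => prod_congr rfl fun w hw => ?_
      rw [hde w (mem_compl.1 hw)]
    · refine prod_congr rfl fun i hi => prod_congr rfl fun w hw => ?_
      rw [hde w (mem_compl.1 hw), hde i (mem_compl.1 hi)]
  have h3 : ∏ i ∈ F, ∏ w ∈ Fᶜ, ((if L i w then Jr (d i) (e w) else 1) *
        (if L w i then Jr (e w) (d i) else 1)) =
      ∏ i ∈ F, (Jr (d i) (∏ w ∈ Fᶜ.filter (fun w => L i w ≠ L w i), e w) * x4 (t i) (d i)) := by
    refine prod_congr rfl fun i hi => ht i (d i) (hd i) fun w hw => ?_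
    have hne : i ≠ w := fun h => (mem_compl.1 hw) (h ▸ hi)
    have := hc i w hne
    rwa [hde w (mem_compl.1 hw)] at this
  rw [h1, h2, h3, hε d (fun i _ => hd i) (fun i _ j _ hij => hc i j hij),
    prod_mul_distrib (f := fun i => gp (a i) c (d i))]
  ring

theorem symd_of (h : Pool.Agent.TH841.TR.EUL) : Pool.Agent.TH841.TR.SYMD := by
  intro ι _ _ a b L c z y F e hab hL hF hz hc he
  have hodd : ∀ w, Odd (e w) := fun w => dv_odd hz (he w)
  have hcz : c ≤ z := by omega
  have hb0 : ∀ i p, 0 ≤ b i p := fun i p => (abs_nonneg _).trans (hab i p)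
  choose t ht0 ht using fun i => mixed L i e Fᶜ (fun w _ => hodd w)
  refine ⟨t, fun i _ h1 => ht0 i fun w hw => h1 w (mem_compl.1 hw), ?_⟩
  have hB0 : 0 ≤ ∏ i ∈ Fᶜ, gp (b i) c (e i) :=
    prod_nonneg fun i _ => ATS8.gp_nonneg (hb0 i) hcz (he i)
  have hR0 : ∏ i ∈ Fᶜ, e i ≠ 0 := prod_ne_zero_iff.2 fun i _ => dv_ne_zero (he i)
  have hdP : ∀ d ∈ Fintype.piFinset (fun i => if i ∈ F then (PP z y).divisors else {e i}),
      ∀ w, w ∉ F → d w = e w := by
    intro d hd w hw
    have := Fintype.mem_piFinset.1 hd w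
    rw [if_neg hw, mem_singleton] at this
    exact this
  have hdD : ∀ d ∈ Fintype.piFinset (fun i => if i ∈ F then (PP z y).divisors else {e i}),
      ∀ w, d w ∈ (PP z y).divisors := by
    intro d hd w
    by_cases hw : w ∈ F
    · have := Fintype.mem_piFinset.1 hd w
      rwa [if_pos hw] at this
    · rw [hdP d hd w hw]
      exact he w
  by_cases hcop : ∀ w ∈ Fᶜ, ∀ w' ∈ Fᶜ, w ≠ w' → (e w).Coprime (e w')
  swap
  · rw [sum_eq_zero, abs_zero]
    · exact mul_nonneg hB0 (sum_nonneg fun _ _ => abs_nonneg _)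
    · intro d hd
      unfold ATS8.HG
      rw [if_neg]
      intro hd'
      apply hcop
      intro w hw w' hw' hne
      have := hd' w w' hne
      rwa [hdP d hd w (mem_compl.1 hw), hdP d hd w' (mem_compl.1 hw')] at this
  obtain ⟨ε, hε1, hε2, hε3⟩ := inside L F (F.filter (fun i => ¬ Unc L i F)) hL hF
    (by
      intro i hi j hj hij
      refine mem_filter.2 ⟨hi, fun hU => ?_⟩
      have := (hU j hj).1
      rw [hij] at this
      exact absurd this (by simp)) F (Subset.refl F)
  obtain ⟨cf, hcf1, hcf2⟩ := fourier (F.filter (fun i => ¬ Unc L i F)) ε hε1 hε2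
  set T := F.filter (fun i => ¬ Unc L i F) with hT
  set C : ℝ := (∏ w ∈ Fᶜ, gp (a w) c (e w)) *
        ∏ i ∈ Fᶜ, ∏ j ∈ Fᶜ, (if L i j then Jr (e i) (e j) else 1) with hC
  have hCB : |C| ≤ ∏ i ∈ Fᶜ, gp (b i) c (e i) := by
    rw [hC, abs_mul]
    have h1 := ATS8.abs_prod_gp_le hab hcz Fᶜ he
    have h2 : |∏ i ∈ Fᶜ, ∏ j ∈ Fᶜ, (if L i j then Jr (e i) (e j) else 1)| ≤ 1 := by
      apply abs_prod_le_one
      intro i _
      apply abs_prod_le_one
      intro j _
      exact abs_ite_Jr _ _ _
    have h3 := mul_le_mul h1 h2 (abs_nonneg _) hB0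
    rwa [mul_one] at h3
  have hsum : ∑ d ∈ Fintype.piFinset (fun i => if i ∈ F then (PP z y).divisors else {e i}),
        ATS8.HG a L (fun _ => 1) c d =
      ∑ d ∈ (Fintype.piFinset (fun i : ι => if i ∈ F then (PP z y).divisors.filter
        (fun m => m.Coprime (∏ i ∈ Fᶜ, e i)) else {1})).filter
        (fun d => ∀ i ∈ F, ∀ j ∈ F, i ≠ j → (d i).Coprime (d j)),
        C * (ε (fun i => decide (d i % 4 = 3)) * ∏ i ∈ F, (gp (a i) c (d i) *
        (Jr (d i) (∏ w ∈ Fᶜ.filter (fun w => L i w ≠ L w i), e w) * x4 (t i) (d i)))) := by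
    have s1 : ∑ d ∈ Fintype.piFinset (fun i => if i ∈ F then (PP z y).divisors else {e i}),
        ATS8.HG a L (fun _ => 1) c d =
        ∑ d ∈ (Fintype.piFinset (fun i => if i ∈ F then (PP z y).divisors else {e i})).filter
          (fun d => ∀ i j, i ≠ j → (d i).Coprime (d j)),
          (∏ i, gp (a i) c (d i)) * Pool.Agent.W262.RK.Sym L (fun _ => 1) d := by
      rw [sum_filter]
      refine sum_congr rfl fun d _ => ?_
      unfold ATS8.HG
      congr
    rw [s1]
    refine sum_nbij' (fun d i => if i ∈ F then d i else 1) (fun d i => if i ∈ F then d i else e i)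
      ?_ ?_ ?_ ?_ ?_
    · intro d hd
      obtain ⟨hd1, hd2⟩ := mem_filter.1 hd
      refine mem_filter.2 ⟨Fintype.mem_piFinset.2 fun i => ?_, fun i hi j hj hij => ?_⟩
      · by_cases hi : i ∈ F
        · rw [if_pos hi]
          simp only [if_pos hi]
          refine mem_filter.2 ⟨hdD d hd1 i, ?_⟩
          refine Nat.Coprime.prod_right fun w hw => ?_
          have hne : i ≠ w := fun h => (mem_compl.1 hw) (h ▸ hi)
          have := hd2 i w hne
          rwa [hdP d hd1 w (mem_compl.1 hw)] at this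
        · rw [if_neg hi]
          simp only [if_neg hi, mem_singleton]
      · simp only [if_pos hi, if_pos hj]
        exact hd2 i j hij
    · intro d hd
      obtain ⟨hd1, hd2⟩ := mem_filter.1 hd
      have hd3 : ∀ i ∈ F, d i ∈ (PP z y).divisors ∧ (d i).Coprime (∏ i ∈ Fᶜ, e i) := by
        intro i hi
        have := Fintype.mem_piFinset.1 hd1 i
        rw [if_pos hi] at this
        exact mem_filter.1 this
      have hd4 : ∀ i ∈ F, ∀ w ∈ Fᶜ, (d i).Coprime (e w) := fun i hi w hw =>
        (hd3 i hi).2.coprime_dvd_right (dvd_prod_of_mem e hw)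
      refine mem_filter.2 ⟨Fintype.mem_piFinset.2 fun i => ?_, fun i j hij => ?_⟩
      · by_cases hi : i ∈ F
        · simp only [if_pos hi]
          exact (hd3 i hi).1
        · simp only [if_neg hi, mem_singleton]
      · by_cases hi : i ∈ F
        · by_cases hj : j ∈ F
          · simp only [if_pos hi, if_pos hj]
            exact hd2 i hi j hj hij
          · simp only [if_pos hi, if_neg hj]
            exact hd4 i hi j (mem_compl.2 hj)
        · by_cases hj : j ∈ F
          · simp only [if_neg hi, if_pos hj]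
            exact (hd4 j hj i (mem_compl.2 hi)).symm
          · simp only [if_neg hi, if_neg hj]
            exact hcop i (mem_compl.2 hi) j (mem_compl.2 hj) hij
    · intro d hd
      obtain ⟨hd1, hd2⟩ := mem_filter.1 hd
      funext i
      by_cases hi : i ∈ F
      · simp only [if_pos hi]
      · simp only [if_neg hi]
        exact (hdP d hd1 i hi).symm
    · intro d hd
      obtain ⟨hd1, hd2⟩ := mem_filter.1 hd
      funext i
      by_cases hi : i ∈ F
      · simp only [if_pos hi]
      · simp only [if_neg hi]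
        have := Fintype.mem_piFinset.1 hd1 i
        rw [if_neg hi, mem_singleton] at this
        exact this.symm
    · intro d hd
      obtain ⟨hd1, hd2⟩ := mem_filter.1 hd
      rw [value a L c F e t ht ε hε3 d (fun i => dv_odd hz (hdD d hd1 i)) (hdP d hd1) hd2]
      congr 2
      · apply hε2
        intro i hi
        have hi' : i ∈ F := (mem_filter.1 hi).1
        simp only [if_pos hi']
      · refine prod_congr rfl fun i hi => ?_
        simp only [if_pos hi]
  set D := (Fintype.piFinset (fun i : ι => if i ∈ F then (PP z y).divisors.filter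
        (fun m => m.Coprime (∏ i ∈ Fᶜ, e i)) else {1})).filter
        (fun d => ∀ i ∈ F, ∀ j ∈ F, i ≠ j → (d i).Coprime (d j)) with hD
  have hDd : ∀ d ∈ D, ∀ i ∈ F, d i ∈ (PP z y).divisors := by
    intro d hd i hi
    have := Fintype.mem_piFinset.1 (mem_filter.1 hd).1 i
    rw [if_pos hi] at this
    exact (mem_filter.1 this).1
  have hsum2 : ∑ d ∈ Fintype.piFinset (fun i => if i ∈ F then (PP z y).divisors else {e i}),
        ATS8.HG a L (fun _ => 1) c d =
      C * ∑ S ∈ T.powerset, cf S * ∏ p ∈ (PS z y).filter (fun p => ¬ p ∣ ∏ i ∈ Fᶜ, e i),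
            (1 + ∑ i ∈ F, a i p / ((p : ℝ) - c) *
              (Jr p (∏ w ∈ Fᶜ.filter (fun w => L i w ≠ L w i), e w) *
                x4 (xor (t i) (decide (i ∈ S))) p)) := by
    rw [hsum, ← mul_sum]
    congr 1
    have s3 : ∀ d ∈ D, ε (fun i => decide (d i % 4 = 3)) * ∏ i ∈ F, (gp (a i) c (d i) *
        (Jr (d i) (∏ w ∈ Fᶜ.filter (fun w => L i w ≠ L w i), e w) * x4 (t i) (d i))) =
        ∑ S ∈ T.powerset, cf S * ∏ i ∈ F, ∏ p ∈ (d i).primeFactors,
          a i p / ((p : ℝ) - c) * (Jr p (∏ w ∈ Fᶜ.filter (fun w => L i w ≠ L w i), e w) *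
                x4 (xor (t i) (decide (i ∈ S))) p) := by
      intro d hd
      rw [hcf2, sum_mul]
      refine sum_congr rfl fun S hS => ?_
      rw [mul_assoc]
      congr 1
      have hSF : S ⊆ F := (mem_powerset.1 hS).trans (filter_subset _ _)
      have e1 : ∏ i ∈ S, sg (decide (d i % 4 = 3)) =
          ∏ i ∈ F, x4 (decide (i ∈ S)) (d i) := by
        have e2 : ∏ i ∈ F, x4 (decide (i ∈ S)) (d i) =
            ∏ i ∈ F, (if i ∈ S then x4 true (d i) else 1) := by
          refine prod_congr rfl fun i _ => ?_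
          by_cases hi : i ∈ S
          · rw [if_pos hi, decide_eq_true hi]
          · rw [if_neg hi, decide_eq_false hi]
            simp [x4]
        rw [e2, prod_ite, prod_const_one, mul_one, filter_mem_eq_inter,
          inter_eq_right.2 hSF]
        exact prod_congr rfl fun i hi => sg_eq (dv_odd hz (hDd d hd i (hSF hi)))
      rw [e1, ← prod_mul_distrib]
      refine prod_congr rfl fun i hi => ?_
      have hdi := hDd d hd i hi
      rw [← mult (a i) c _ _ (dv_squarefree hdi), ← x4_mul (dv_odd hz hdi)]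
      ring
    rw [sum_congr rfl s3, sum_comm]
    refine sum_congr rfl fun S _ => ?_
    rw [← mul_sum, h ι F (fun i p => a i p / ((p : ℝ) - c) *
      (Jr p (∏ w ∈ Fᶜ.filter (fun w => L i w ≠ L w i), e w) *
                x4 (xor (t i) (decide (i ∈ S))) p)) z y _ hR0]
  rw [hsum2, abs_mul]
  refine mul_le_mul hCB ?_ (abs_nonneg _) hB0
  refine (abs_sum_le_sum_abs _ _).trans (sum_le_sum fun S _ => ?_)
  rw [abs_mul]
  exact mul_le_of_le_one_left (abs_nonneg _) (hcf1 S)

end Pool.Agent.TH841.TR.SYMDf
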