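import Mathlib
import Pool.Agent.TH841.TR.PenFX
import Pool.Agent.TH841.TR.MakX
import Pool.Agent.TH841.TR.ATX
import Pool.Agent.TH841.TR.ATXR
import Pool.Agent.TH841.TR.SYMD
import Pool.Agent.TH841.TR.H1L
import Pool.Agent.TH841.PT.Fin3

/-!
# Project TR: assembly
-/

set_option autoImplicit false

namespace Pool.Agent.TH841.TR

open Finset Polynomial Pool.Agent.W262.RK Pool.Agent.TH841.PT

theorem atx (hE : EUL) : ATX := atx_of blw EPSf.eps EFG.fullg (ml_of (SYMDf.symd_of hE))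

theorem atxr (hE : EUL) : ATXR := ATXRf.atxr_of (atx hE) MergeF.merge

theorem h1l : H1L := H1Lf.h1l_of (M2CGf.m2g_of (M2BGf.m2mg_of (M2AGf.m2ag_of LADf.lad)))

theorem mk (hE : EUL) (hC : COMBX) {J : Type} [Fintype J] [DecidableEq J] (cls : J → Fin 4)
    (a : Fin 3 → ℤ) (f : J → ℤ[X]) (sp : J → Bool) (ha : ∀ k, a k ≠ 0) (hf : Irr f)
    (htri : Tri cls sp)
    (hsp : ∀ j, cls j ≠ 3 → sp j = false → NSqg (f j) (kpol cls a f j 0) 1) : MK cls a f :=
  fun c hc => makx (atxr hE) hC h1l MergeF.merge ExpT.expt twg GDPf.gdp cls a f sp ha hf htri hsp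
    c hc

theorem av3x (hE : EUL) (hC : COMBX) : AV3X := by
  intro J _ _ cls a f sp B ha hf htri hsp hrel
  exact avgX cnth SelXf.selx antx RSPf.rsp RVU.rvp RVU.rup SubT.subt cls a f B ha
    (mk hE hC cls a f sp ha hf htri hsp) hrel

theorem av3xg (hE : EUL) (hC : COMBX) : AV3XG := by
  intro J _ _ cls a f sp B ha hf htri hsp hrel G hG
  exact avgXG cnth SelXf.selx antx RSPf.rsp RVU.rvp RVU.rup SubT.subt GDPf.gdp cls a f B ha
    (mk hE hC cls a f sp ha hf htri hsp) hrel G hG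

end Pool.Agent.TH841.TR
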