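import Mathlib
import Pool.Agent.TH841.TR.Fin
import Pool.Agent.TH841.TR.EUL
import Pool.Agent.TH841.TR.COMB

/-!
# Project TR: the final theorems, and the condition in terms of square roots modulo the factors
-/

set_option autoImplicit false

namespace Pool.Agent.TH841.TR

open Finset Polynomial Pool.Agent.W262.RK Pool.Agent.TH841.PT

theorem tav3x : AV3X := av3x EULf.eul COMBf.combx

theorem tav3xg : AV3XG := av3xg EULf.eul COMBf.combx

section

variable {n : Fin 3 → ℕ}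

lemma vp_zero (D : ℤ[X]) (a : Fin 3 → ℤ) (f : ∀ k : Fin 3, Fin (n k) → ℤ[X]) :
    vp D a f 0 = -(D * UP a f 1) := by
  have h1 : sg4 ((0 : Fin 3).castSucc) = -1 := rfl
  have h2 : cp4 ((0 : Fin 3).castSucc) = 1 := rfl
  unfold vp
  rw [h1, h2]
  simp

lemma vp_one (D : ℤ[X]) (a : Fin 3 → ℤ) (f : ∀ k : Fin 3, Fin (n k) → ℤ[X]) :
    vp D a f 1 = -(D * UP a f 0) := by
  have h1 : sg4 ((1 : Fin 3).castSucc) = -1 := rfl
  have h2 : cp4 ((1 : Fin 3).castSucc) = 0 := rfl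
  unfold vp
  rw [h1, h2]
  simp

lemma vp_two (D : ℤ[X]) (a : Fin 3 → ℤ) (f : ∀ k : Fin 3, Fin (n k) → ℤ[X]) :
    vp D a f 2 = D * UP a f 0 := by
  have h1 : sg4 ((2 : Fin 3).castSucc) = 1 := rfl
  have h2 : cp4 ((2 : Fin 3).castSucc) = 0 := rfl
  unfold vp
  rw [h1, h2]
  simp

open Classical in
lemma bal_of {D : ℤ[X]} {a : Fin 3 → ℤ} {f : ∀ k : Fin 3, Fin (n k) → ℤ[X]} {v : Fin 3 → ℤ[X]}
    (h0 : v 0 = -(D * UP a f 1)) (h1 : v 1 = -(D * UP a f 0)) (h2 : v 2 = D * UP a f 0)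
    (h : ∀ k, 2 * n k + (univ.filter (fun i => SqM (f k i) (v k))).card ≤ n 0 + n 1 + n 2) :
    Bal D a f := by
  have hv : ∀ k, vp D a f k = v k := by
    intro k
    fin_cases k
    · exact (vp_zero D a f).trans h0.symm
    · exact (vp_one D a f).trans h1.symm
    · exact (vp_two D a f).trans h2.symm
  intro k
  rw [hv]
  exact h k

end

end Pool.Agent.TH841.TR
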